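import Pool.Agent.Lib.MP_3b2820_h61.STAR

/-!
All terms of the density deficiency are determined by the source.
-/

set_option autoImplicit false
set_option linter.unusedSectionVars false
set_option linter.unnecessarySeqFocus false

open Finset

namespace Pool.Agent.Lib.MP_3b2820_co.H61

section ap
variable {N R : Type} [DecidableEq N] [DecidableEq R] [Fintype N] [Fintype R]
  (σ : Sy (Fin 3) N R) (v0 : N)

/-- The values on the star are determined by the source. -/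
def Det (Zs : N → (Fin 3 → ℕ) → ℝ) : Prop := ∃ C : ℝ, ∀ f, Adm f → ∀ e, ∀ η > 0,
  ∃ Z, Lk σ f e Z (C1 N R * (cs σ).err f) ∧
    ∀ v i, (∀ d, i d ≤ 2) → |Z v i - fx f e v0 * Zs v i| ≤ C * (cs σ).err f + η

/-- Approximately a combination of the two source values. -/
def Ap (F : (Finset (Bv (Fin 3) N R) → ℝ) → Bool → ℝ) : Prop := ∃ α β C : ℝ, ∀ f, Adm f → ∀ e,
  |F f e - (α * fx f e v0 + β * fx f (!e) v0)| ≤ C * (cs σ).err f

/-- Approximately a multiple of the total source value. -/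
def ApT (F : (Finset (Bv (Fin 3) N R) → ℝ) → ℝ) : Prop := ∃ γ C : ℝ, ∀ f, Adm f →
  |F f - γ * (fx f true v0 + fx f false v0)| ≤ C * (cs σ).err f

variable {σ v0} {F G : (Finset (Bv (Fin 3) N R) → ℝ) → Bool → ℝ} {Zs : N → (Fin 3 → ℕ) → ℝ}

lemma Ap.add (h : Ap σ v0 F) (h' : Ap σ v0 G) : Ap σ v0 fun f e => F f e + G f e := by
  obtain ⟨a, b, c, h⟩ := h
  obtain ⟨a', b', c', h'⟩ := h'
  refine ⟨a + a', b + b', c + c', fun f hf e => ?_⟩
  have := abs_le.1 (h f hf e)
  have := abs_le.1 (h' f hf e)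
  rw [abs_le]
  constructor <;> linarith

lemma Ap.sub (h : Ap σ v0 F) (h' : Ap σ v0 G) : Ap σ v0 fun f e => F f e - G f e := by
  obtain ⟨a, b, c, h⟩ := h
  obtain ⟨a', b', c', h'⟩ := h'
  refine ⟨a - a', b - b', c + c', fun f hf e => ?_⟩
  have := abs_le.1 (h f hf e)
  have := abs_le.1 (h' f hf e)
  rw [abs_le]
  constructor <;> linarith

lemma ap_zero : Ap σ v0 fun _ _ => 0 := ⟨0, 0, 0, fun f _ e => by simp⟩

lemma ap_sum {κ : Type} (s : Finset κ) {F : κ → (Finset (Bv (Fin 3) N R) → ℝ) → Bool → ℝ}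
    (h : ∀ k ∈ s, Ap σ v0 (F k)) : Ap σ v0 fun f e => ∑ k ∈ s, F k f e := by
  classical
  induction s using Finset.induction_on with
  | empty => exact ap_zero
  | insert a s ha ih =>
    simp only [Finset.sum_insert ha]
    exact (h a (Finset.mem_insert_self a s)).add (ih fun k hk => h k (Finset.mem_insert_of_mem hk))

lemma Ap.xor (h : Ap σ v0 F) (b : Bool) : Ap σ v0 fun f e => F f (xor e b) := by
  obtain ⟨a, a', c, h⟩ := h
  cases b
  · exact ⟨a, a', c, by simpa using h⟩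
  · exact ⟨a', a, c, fun f hf e => by simpa [add_comm] using h f hf (!e)⟩

lemma Ap.near (h : Ap σ v0 G) (C : ℝ) (h' : ∀ f, Adm f → ∀ e, |F f e - G f e| ≤ C * (cs σ).err f) :
    Ap σ v0 F := by
  obtain ⟨a, b, c, h⟩ := h
  refine ⟨a, b, c + C, fun f hf e => ?_⟩
  have := abs_le.1 (h f hf e)
  have := abs_le.1 (h' f hf e)
  rw [abs_le]
  constructor <;> linarith

lemma Ap.congr (h : Ap σ v0 G) (h' : ∀ f, Adm f → ∀ e, F f e = G f e) : Ap σ v0 F :=
  h.near 0 fun f hf e => by simp [h' f hf e]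

lemma Det.ap (hD : Det σ v0 Zs) (s : Finset N) (ι : N → Fin 3 → ℕ) (hι : ∀ v d, ι v d ≤ 2)
    (C : ℝ) (h : ∀ f, Adm f → ∀ e Z, Lk σ f e Z (C1 N R * (cs σ).err f) →
      |F f e - ∑ v ∈ s, Z v (ι v)| ≤ C * (cs σ).err f) : Ap σ v0 F := by
  obtain ⟨c, hD⟩ := hD
  refine ⟨∑ v ∈ s, Zs v (ι v), 0, C + s.card * c, fun f hf e => ?_⟩
  refine le_of_forall_pos_le_add fun ε hε => ?_
  obtain ⟨Z, h1, h2⟩ := hD f hf e (ε / (s.card + 1)) (by positivity)
  have a1 := abs_le.1 (h f hf e Z h1)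
  have a2 := (Finset.abs_sum_le_sum_abs _ _).trans
    (Finset.sum_le_card_nsmul s _ _ fun v _ => h2 v (ι v) (hι v))
  have a3 : (s.card : ℝ) * (ε / (s.card + 1)) ≤ ε := by
    rw [← mul_div_assoc, div_le_iff₀ (by positivity)]
    linarith
  rw [Finset.sum_sub_distrib, ← Finset.mul_sum, nsmul_eq_mul, abs_le] at a2
  rw [abs_le]
  constructor <;> linarith

lemma Det.x (hD : Det σ v0 Zs) (v : N) : Ap σ v0 fun f e => fx f e v :=
  hD.ap {v} (fun _ => 0) (by simp) 0 fun f _ e Z h => by simp [h.k0]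

lemma Det.lx (hD : Det σ v0 Zs) (d : Fin 3) (b : Bool) (v : N) :
    Ap σ v0 fun f e => fl f e d {lx R b v} :=
  ((hD.x v).xor b).congr fun f _ e => by simp [fl, fx, eB]

lemma Det.closed (hD : Det σ v0 Zs) (d : Fin 3) {T U : Finset (Lv N R)} (hU : U ⊆ lM N R)
    (h : ∀ φ Δ, LF σ d φ Δ → cnd φ T U ≤ Δ) : Ap σ v0 fun f e => fl f e d (T ∪ U) := by
  refine (ap_sum U (F := fun y f e => fl f e d {y}) ?_).near 1 fun f hf e => ?_
  · rintro (⟨b, v | r⟩ | v) hy
    · exact hD.lx d b v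
    · simpa using hU hy
    · simpa using hU hy
  · have H := lf_of (σ := σ) hf.1 ((cs_ok σ).err0_le hf.1) e d
    have a1 := h _ _ H
    have a2 := H.low hU (Finset.subset_union_right (s₁ := T))
    have a3 := H.po.le_sum U
    unfold cnd at a1
    rw [abs_le]
    constructor <;> linarith

lemma shf_le (r : R) (v : N) {i : Fin 3 → ℕ} (hi : ∀ d, i d ≤ 1) (d : Fin 3) :
    shf σ r v i d ≤ 2 := by
  have := hi d
  unfold shf
  split_ifs
  · by_cases h : d = σ.δ r <;> simp [h] at * <;> omega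
  · omega

lemma single_le (d d' : Fin 3) : (Pi.single d 1 : Fin 3 → ℕ) d' ≤ 1 := by
  by_cases h : d' = d <;> simp [h]

lemma Det.xxs (hD : Det σ v0 Zs) (d : Fin 3) (v : N) :
    Ap σ v0 fun f e => fl f e d {H61.lx R false v, H61.lx R true v, ls R v} := by
  have := hD.closed d (T := {ls R v}) (U := {H61.lx R false v, H61.lx R true v})
    (by rintro (⟨b, v | r⟩ | v) <;> simp) fun φ Δ H => H.fd (.inl (true, v))
  refine this.congr fun f _ e => congrArg _ ?_
  ext y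
  simp only [Finset.mem_insert, Finset.mem_singleton, Finset.mem_union]
  tauto

lemma Det.s (hD : Det σ v0 Zs) (d : Fin 3) (v : N) : Ap σ v0 fun f e => fl f e d {ls R v} := by
  have := hD.ap (F := fun f e => fl f e d {H61.lx R false v, H61.lx R true v, ls R v}
    - fl f e d {ls R v}) {v} (fun _ => Pi.single d 1)
    (fun _ d' => (single_le d d').trans one_le_two) 0 fun f _ e Z h => by simp [h.k1]
  exact ((hD.xxs d v).sub this).congr fun f _ e => by ring

lemma Det.k2 (hD : Det σ v0 Zs) (r : R) {E : Finset N} (hE : E ⊆ Eu σ r) :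
    Ap σ v0 fun f e => fl f e (σ.δ r) ({lr N false r} ∪ lss R E) := by
  have := hD.ap (F := fun f e => ∑ v ∈ σ.A r ∪ σ.B r, fx f e v + ∑ v ∈ E, fx f (xor e true) v
    - fl f e (σ.δ r) ({lr N false r} ∪ lss R E)) (σ.A r) (fun v => shf σ r v 0)
    (fun v => shf_le r v (by simp)) (C1 N R) fun f _ e Z h => by
      have := abs_le.1 (h.k2 r E hE)
      rw [abs_le, Bool.xor_true]
      constructor <;> linarith
  exact (((ap_sum _ fun v _ => hD.x v).add (ap_sum _ fun v _ => (hD.x v).xor true)).sub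
    this).congr fun f _ e => by ring

lemma Det.k3 (hD : Det σ v0 Zs) (r : R) {d : Fin 3} (hd : σ.pr r d = true) : Ap σ v0 fun f e =>
    fl f e d ({lr N false r, lr N true r} ∪ lss R (σ.A r ∪ σ.B r)) := by
  have := hD.ap (F := fun f e => ∑ v ∈ σ.A r ∪ σ.B r, (fx f e v + fx f (xor e true) v)
    - fl f e d ({lr N false r, lr N true r} ∪ lss R (σ.A r ∪ σ.B r))) (σ.A r)
    (fun v => shf σ r v (Pi.single d 1)) (fun v => shf_le r v (single_le d)) (C1 N R)
    fun f _ e Z h => by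
      have := abs_le.1 (h.k3 r d hd)
      rw [abs_le, Bool.xor_true]
      constructor <;> linarith
  exact ((ap_sum _ fun v _ => (hD.x v).add ((hD.x v).xor true)).sub this).congr fun f _ e => by
    ring

lemma Det.one (hD : Det σ v0 Zs) (d : Fin 3) (y : Lv N R) : Ap σ v0 fun f e => fl f e d {y} := by
  obtain ⟨b, v | r⟩ | v := y
  · exact hD.lx d b v
  · exact ((hD.k2 r (Finset.empty_subset _)).xor b).congr fun f _ e => by simp [fl, eB, lss]
  · exact hD.s d v

lemma ap_empty (d : Fin 3) : Ap σ v0 fun f e => fl f e d (∅ ∪ ∅) :=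
  ap_zero.congr fun f hf e => by simp [fl, hf.1.empty]

lemma Det.tf (hD : Det σ v0 Zs) (d : Fin 3) (j : Jf N R) :
    Ap σ v0 fun f e => fl f e d (tf σ d j ∪ uf σ d j) := by
  have hr : ∀ b r, Ap σ v0 fun f e => fl f e d ({lr N b r} ∪ lxs R b (σ.A r ∪ σ.B r)) :=
    fun b r => hD.closed d (by rintro (⟨b, v | r⟩ | v) <;> simp)
      fun φ Δ H => H.fd (.inr (.inl (b, none, r)))
  obtain ⟨_ | _, v⟩ | ⟨b, _ | _ | _, r⟩ | r := j
  · refine (hD.xxs d v).congr fun f _ e => congrArg _ ?_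
    ext (⟨b, v | r⟩ | v) <;> simp [H61.tf, uf] <;> grind
  · refine (hD.xxs d v).congr fun f _ e => congrArg _ ?_
    ext (⟨b, v | r⟩ | v) <;> simp [H61.tf, uf] <;> grind
  · exact hr b r
  · refine (hr b r).congr fun f _ e => congrArg _ ?_
    ext (⟨b, v | r⟩ | v) <;> simp [H61.tf, uf] <;> grind
  · refine (hr b r).congr fun f _ e => congrArg _ ?_
    ext (⟨b, v | r⟩ | v) <;> simp [H61.tf, uf] <;> grind
  · simp only [H61.tf, uf]
    split_ifs with h
    · refine (hD.k3 r h).congr fun f _ e => congrArg _ ?_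
      ext (⟨b, v | r⟩ | v) <;> simp <;> grind
    · exact ap_empty d

lemma Det.tc (hD : Det σ v0 Zs) (d : Fin 3) (j : Jc N R) :
    Ap σ v0 fun f e => fl f e d (tc σ d j ∪ uc σ d j) := by
  obtain ⟨r, v⟩ | r := j <;> simp only [H61.tc, uc] <;> split_ifs with h h'
  · obtain ⟨rfl, h⟩ := h
    refine (hD.k2 r (Finset.singleton_subset_iff.2 h)).congr fun f _ e => congrArg _ ?_
    rw [Finset.union_comm]
    simp [lss]
  · exact ap_empty d
  · subst h
    exact hD.k2 r (Finset.filter_subset_filter _ Finset.subset_union_left)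
  · refine (hD.k3 r h').near 1 fun f hf e => ?_
    have H := lf_of (σ := σ) hf.1 ((cs_ok σ).err0_le hf.1) e d
    have a1 := H.fd (.inr (.inr r))
    have a2 := H.po.mono ({lr N true r} ∪ (lss R (σ.A r) ∪ {lr N false r}))
      ({lr N false r, lr N true r} ∪ lss R (σ.A r ∪ σ.B r))
      (by rintro (⟨b, v | r⟩ | v) <;> simp <;> grind)
    have e1 : lss R (σ.B r) ∪ (lss R (σ.A r) ∪ {lr N false r, lr N true r})
        = {lr N false r, lr N true r} ∪ lss R (σ.A r ∪ σ.B r) := by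
      ext (⟨b, v | r⟩ | v) <;> simp <;> grind
    have e2 : lss R (σ.A r) ∪ {lr N false r, lr N true r}
        = {lr N true r} ∪ (lss R (σ.A r) ∪ {lr N false r}) := by
      ext (⟨b, v | r⟩ | v) <;> simp <;> grind
    simp only [H61.tf, uf, h', if_true, cnd] at a1
    rw [e1, e2] at a1
    have := H.nn
    rw [abs_le]
    constructor <;> linarith
  · exact ap_empty d

lemma Ap.tot (h : Ap σ v0 F) : ApT σ v0 fun f => ∑ e, F f e := by
  obtain ⟨a, b, c, h⟩ := h
  refine ⟨a + b, 2 * c, fun f hf => ?_⟩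
  have := abs_le.1 (h f hf true)
  have := abs_le.1 (h f hf false)
  simp only [Fintype.sum_bool, Bool.not_true, Bool.not_false] at *
  rw [abs_le]
  constructor <;> linarith

/-- The contribution of a center. -/
def gc {X : Type} (f : Finset X → ℝ) (S : Finset X) : ℝ := f S + ∑ y ∈ S, f {y}

lemma Df_cs {X Jf Jc : Type} [DecidableEq X] [Fintype X] [Fintype Jf] [Fintype Jc]
    (γ : Cs X Jf Jc) (f : Finset X → ℝ) : Df γ.T γ.U f
      = 2 * ∑ y, gc f ((if y ∈ γ.Mn then {y} else ∅) ∪ ∅) + 2 * ∑ j, gc f (γ.Tf j ∪ γ.Uf j)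
        + ∑ j, gc f (γ.Tc j ∪ γ.Uc j) + 6 * ∑ y, f {y} - f Finset.univ := by
  unfold Df
  rw [Fintype.sum_sum_type, Fintype.sum_sum_type, Fintype.sum_prod_type, Fintype.sum_prod_type,
    Fintype.sum_bool, Fintype.sum_bool]
  simp only [Cs.T, Cs.U, gc]
  ring

lemma ApT.add {F G : (Finset (Bv (Fin 3) N R) → ℝ) → ℝ} (h : ApT σ v0 F) (h' : ApT σ v0 G)
    (a b : ℝ) : ApT σ v0 fun f => a * F f + b * G f := by
  obtain ⟨γ, c, h⟩ := h
  obtain ⟨γ', c', h'⟩ := h'
  refine ⟨a * γ + b * γ', |a| * c + |b| * c', fun f hf => ?_⟩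
  have a1 := mul_le_mul_of_nonneg_left (h f hf) (abs_nonneg a)
  have a2 := mul_le_mul_of_nonneg_left (h' f hf) (abs_nonneg b)
  rw [← abs_mul] at a1 a2
  have := abs_le.1 a1
  have := abs_le.1 a2
  rw [abs_le]
  constructor <;> linarith

lemma ap_tot {κ : Type} [Fintype κ] {G : (Finset (Bv (Fin 3) N R) → ℝ) → Bool × κ → ℝ}
    (h : ∀ k, Ap σ v0 fun f e => G f (e, k)) : ApT σ v0 fun f => ∑ j, G f j := by
  simp only [Fintype.sum_prod_type]
  exact (ap_sum Finset.univ fun k _ => h k).tot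

lemma Det.gc (hD : Det σ v0 Zs) (d : Fin 3) (S T : Finset (Lv N R))
    (h : Ap σ v0 fun f e => fl f e d (S ∪ T)) :
    Ap σ v0 fun f e => gc f (S.image (eB e d) ∪ T.image (eB e d)) :=
  (h.add (ap_sum (S ∪ T) fun y _ => hD.one d y)).congr fun f _ e => by
    rw [H61.gc, ← Finset.image_union, sum_fl]; rfl

lemma Det.univ (hD : Det σ v0 Zs) : ApT σ v0 fun f => f Finset.univ := by
  obtain ⟨γ, C, h⟩ := (ap_sum Finset.univ fun v _ => hD.x v).tot
  refine ⟨γ, C + 1, fun f hf => ?_⟩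
  have a1 := abs_le.1 (h f hf)
  have a2 := (cs_ok σ).un f hf.1
  have a3 := hf.1.mono (cs σ).Mn Finset.univ (Finset.subset_univ _)
  have a4 := (cs_ok σ).err0_le hf.1
  have a5 := Cs.ind_nonneg (γ := cs σ) hf.1
  have a6 := Cs.fd_nonneg (γ := cs σ) hf.1
  have a7 : ∑ y ∈ (cs σ).Mn, f {y} = ∑ e, ∑ v, fx f e v := by
    simp only [cs]
    rw [Finset.sum_product]
    exact Finset.sum_congr rfl fun e _ => Finset.sum_image fun a _ b _ h => by simpa using h
  unfold Cs.err0 Cs.ind at a4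
  unfold Cs.ind at a5
  rw [abs_le]
  constructor <;> linarith

lemma Det.d1 (hD : Det σ v0 Zs) : ApT σ v0 fun f => ∑ y, f {y} :=
  ap_tot (G := fun f y => f {y}) (by
    rintro (l | ⟨d, v⟩)
    · exact (hD.one 0 (.inl (false, l))).congr fun f _ e => by simp [fl, eB]
    · exact (hD.one d (.inr v)).congr fun f _ e => by simp [fl, eB])

lemma Det.d2 (hD : Det σ v0 Zs) :
    ApT σ v0 fun f => ∑ y, H61.gc f ((if y ∈ (cs σ).Mn then {y} else ∅) ∪ ∅) :=
  ap_tot (G := fun f y => H61.gc f ((if y ∈ (cs σ).Mn then {y} else ∅) ∪ ∅)) (by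
    rintro ((v | r) | v)
    · exact ((hD.x v).add (hD.x v)).congr fun f _ e => by simp [cs, fx, H61.gc]
    · exact ap_zero.congr fun f hf e => by simp [cs, hf.1.empty, H61.gc]
    · exact ap_zero.congr fun f hf e => by simp [cs, hf.1.empty, H61.gc])

lemma Det.d3 (hD : Det σ v0 Zs) : ApT σ v0 fun f => ∑ j, H61.gc f ((cs σ).Tf j ∪ (cs σ).Uf j) :=
  ap_tot (G := fun f j => H61.gc f ((cs σ).Tf j ∪ (cs σ).Uf j))
    fun j => (hD.gc _ _ _ (hD.tf j.1 j.2)).congr fun f _ e => by simp only [cs]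

lemma Det.d4 (hD : Det σ v0 Zs) : ApT σ v0 fun f => ∑ j, H61.gc f ((cs σ).Tc j ∪ (cs σ).Uc j) :=
  ap_tot (G := fun f j => H61.gc f ((cs σ).Tc j ∪ (cs σ).Uc j))
    fun j => (hD.gc _ _ _ (hD.tc j.1 j.2)).congr fun f _ e => by simp only [cs]

theorem Det.df (hD : Det σ v0 Zs) : ApT σ v0 (Df (cs σ).T (cs σ).U) := by
  obtain ⟨γ, C, h⟩ := (((hD.d2.add hD.d3 2 2).add hD.d4 1 1).add hD.d1 1 6).add hD.univ 1 (-1)
  refine ⟨γ, C, fun f hf => le_trans (le_of_eq ?_) (h f hf)⟩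
  rw [Df_cs]
  simp only [one_mul, neg_mul, ← sub_eq_add_neg]

end ap

end Pool.Agent.Lib.MP_3b2820_co.H61
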