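import Pool.Agent.Lib.MP_3b2820_co.Main

/-!
From a stable system of constraints to the exponent of two graphs.
-/

set_option autoImplicit false
set_option linter.unusedSectionVars false
set_option linter.unnecessarySeqFocus false

open Finset

namespace Pool.Agent.Lib.MP_3b2820_co.H61

/-- A system of constraints. -/
structure Cs (X Jf Jc : Type) where
  /-- Main variables. -/
  Mn : Finset X
  /-- Targets of dependencies. -/
  Tf : Jf → Finset X
  /-- Sources of dependencies. -/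
  Uf : Jf → Finset X
  /-- Targets of capacities. -/
  Tc : Jc → Finset X
  /-- Sources of capacities. -/
  Uc : Jc → Finset X
  /-- Nominal values of capacities. -/
  Nm : Jc → Finset X
  /-- A constant. -/
  C0 : ℕ

/-- Denoised entropy functions. -/
def Adm {X : Type} [DecidableEq X] (f : Finset X → ℝ) : Prop :=
  Poly f ∧ ∃ (Ω α ζ : Type) (_ : Fintype Ω) (p : Ω → ℝ) (Y : X → Ω → α) (Z : Ω → ζ) (ν : X → ℝ),
    IsProb p ∧ f = fun S => cent p Y Z S - ∑ i ∈ S, ν i

lemma adm_rk {X Ω : Type} [DecidableEq X] [AddCommGroup Ω] [Finite Ω] (L : X → AddSubgroup Ω) :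
    Adm (rk L) := by
  classical
  have := Fintype.ofFinite Ω
  have hp : IsProb (unif Ω) := unif_prob
  let Y : X → Ω → Set Ω := fun y a => {b | b - a ∈ L y}
  have hY : ∀ y a b, Y y a = Y y b ↔ a - b ∈ L y := by
    intro y a b
    constructor
    · intro h
      have : a ∈ Y y a := by simp [Y]
      rw [h] at this
      exact this
    · intro h
      ext c
      simp only [Y, Set.mem_ofPred_eq]
      constructor
      · intro h1
        simpa using add_mem h1 h
      · intro h1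
        simpa using sub_mem h1 h
  have hn : (0 : ℝ) < Fintype.card Ω := by exact_mod_cast Fintype.card_pos
  have he : ∀ S, entR (unif Ω) (agr Y (fun _ => ()) S) = rk L S := by
    intro S
    have hm : ∀ a, mass (unif Ω) (agr Y (fun _ => ()) S) a
        = Nat.card (KS L S) / Fintype.card Ω := by
      intro a
      unfold mass unif
      rw [← Finset.sum_filter, Finset.sum_const, nsmul_eq_mul, mul_one_div]
      congr 2
      rw [← Fintype.card_subtype, ← Nat.card_eq_fintype_card]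
      exact Nat.card_congr (Equiv.subtypeEquiv (Equiv.subRight a) fun b => by
        simp [agr_iff, hY, mem_KS])
    have h0 : (0 : ℝ) < Nat.card (KS L S) := by exact_mod_cast Nat.card_pos
    unfold entR
    simp only [hm]
    rw [← Finset.sum_mul, hp.total, Real.log_div h0.ne' hn.ne', rk, lgi,
      Nat.card_eq_fintype_card (α := Ω)]
    ring
  have e : rk L = cent (unif Ω) Y (fun _ => ()) := by
    funext S
    rw [cent, he, he, rk_empty, sub_zero]
  exact ⟨e ▸ cent_poly hp _ _, Ω, Set Ω, Unit, this, unif Ω, Y, fun _ => (), fun _ => 0, hp,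
    by simp [e]⟩

namespace Cs
variable {X Jf Jc : Type} [DecidableEq X] [Fintype X] [Fintype Jf] [Fintype Jc] (γ : Cs X Jf Jc)

/-- Targets of all centers. -/
def T : (Bool × X) ⊕ (Bool × Jf) ⊕ Jc → Finset X
  | .inl y => if y.2 ∈ γ.Mn then {y.2} else ∅
  | .inr (.inl j) => γ.Tf j.2
  | .inr (.inr j) => γ.Tc j

/-- Sources of all centers. -/
def U : (Bool × X) ⊕ (Bool × Jf) ⊕ Jc → Finset X
  | .inl _ => ∅
  | .inr (.inl j) => γ.Uf j.2
  | .inr (.inr j) => γ.Uc j

/-- Dependence of the main variables. -/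
def ind (f : Finset X → ℝ) : ℝ := ∑ y ∈ γ.Mn, f {y} - f γ.Mn
/-- Violation of the dependencies. -/
def fd (f : Finset X → ℝ) : ℝ := ∑ j, cnd f (γ.Tf j) (γ.Uf j)
/-- Excess of a capacity. -/
def exc (f : Finset X → ℝ) (j : Jc) : ℝ := cnd f (γ.Tc j) (γ.Uc j) - ∑ y ∈ γ.Nm j, f {y}
/-- Basic error. -/
def err0 (f : Finset X → ℝ) : ℝ := γ.ind f + γ.fd f
/-- Total error. -/
def err (f : Finset X → ℝ) : ℝ := γ.err0 f + ∑ j, (γ.exc f j + γ.C0 * γ.err0 f)

/-- Structural assumptions. -/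
structure Ok : Prop where
  nm : ∀ j, γ.Nm j ⊆ γ.Mn
  un : ∀ f : Finset X → ℝ, Poly f → f Finset.univ ≤ f γ.Mn + γ.fd f
  ex : ∀ f : Finset X → ℝ, Poly f → ∀ j, -(γ.C0 * γ.err0 f) ≤ γ.exc f j

variable {γ} {f : Finset X → ℝ}

lemma ind_nonneg (hf : Poly f) : 0 ≤ γ.ind f := sub_nonneg.2 (hf.le_sum _)

lemma fd_nonneg (hf : Poly f) : 0 ≤ γ.fd f := Finset.sum_nonneg fun _ _ => hf.cnd_nonneg _ _

lemma fd_le (hf : Poly f) (j : Jf) : cnd f (γ.Tf j) (γ.Uf j) ≤ γ.err0 f := by
  have := Finset.single_le_sum (f := fun j => cnd f (γ.Tf j) (γ.Uf j))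
    (fun j _ => hf.cnd_nonneg _ _) (Finset.mem_univ j)
  have := ind_nonneg (γ := γ) hf
  unfold err0 fd
  linarith

lemma err0_nonneg (hf : Poly f) : 0 ≤ γ.err0 f := add_nonneg (ind_nonneg hf) (fd_nonneg hf)

lemma Ok.err0_le (h : γ.Ok) (hf : Poly f) : γ.err0 f ≤ γ.err f := by
  have : 0 ≤ ∑ j, (γ.exc f j + γ.C0 * γ.err0 f) :=
    Finset.sum_nonneg fun j _ => by have := h.ex f hf j; linarith
  unfold err
  linarith

lemma Ok.err_nonneg (h : γ.Ok) (hf : Poly f) : 0 ≤ γ.err f :=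
  (err0_nonneg hf).trans (h.err0_le hf)

lemma Ok.exc_le (h : γ.Ok) (hf : Poly f) (j : Jc) : γ.exc f j ≤ γ.err f := by
  have := Finset.single_le_sum (f := fun j => γ.exc f j + γ.C0 * γ.err0 f)
    (fun j _ => by have := h.ex f hf j; linarith) (Finset.mem_univ j)
  have h0 := err0_nonneg (γ := γ) hf
  have := mul_nonneg (Nat.cast_nonneg (α := ℝ) γ.C0) h0
  unfold err
  linarith

/-- Weights of the centers. -/
def wts (γ : Cs X Jf Jc) (Rw : Finset X) (K bF : ℕ) : (Bool × X) ⊕ (Bool × Jf) ⊕ Jc → ℕ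
  | .inl (true, _) => 1
  | .inl (false, y) => bF - K * (Finset.univ.filter fun j => y ∈ γ.Nm j).card
      - if y ∈ Rw then 1 else 0
  | .inr (.inl _) => bF
  | .inr (.inr _) => K

lemma Wf_eq (h : γ.Ok) (hf : Poly f) {Rw : Finset X} (hR : Rw ⊆ γ.Mn) {K bF : ℕ}
    (hb : K * Fintype.card Jc + 1 ≤ bF) : Wf γ.T γ.U (γ.wts Rw K bF) f
      = (bF + 1) * ∑ y ∈ γ.Mn, f {y} - ∑ y ∈ Rw, f {y} + 2 * bF * γ.fd f
        + K * ∑ j, γ.exc f j := by
  have e1 : ∀ y, ((γ.wts Rw K bF (.inl (false, y)) : ℕ) : ℝ)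
      = bF - K * (Finset.univ.filter fun j => y ∈ γ.Nm j).card - if y ∈ Rw then 1 else 0 := by
    intro y
    have h1 : K * (Finset.univ.filter fun j => y ∈ γ.Nm j).card ≤ K * Fintype.card Jc :=
      Nat.mul_le_mul_left _ (Finset.card_le_univ _)
    simp only [wts]
    rw [Nat.cast_sub (by split_ifs <;> omega), Nat.cast_sub (by omega)]
    simp
  have e2 : ∑ j, ∑ y ∈ γ.Nm j, f {y}
      = ∑ y ∈ γ.Mn, ((Finset.univ.filter fun j => y ∈ γ.Nm j).card : ℝ) * f {y} := by
    rw [Finset.sum_comm' (t' := γ.Mn) (s' := fun y => Finset.univ.filter fun j => y ∈ γ.Nm j)]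
    · simp
    · intro j y
      have := @h.nm j y
      simp
      tauto
  have e3 : ∑ y ∈ Rw, f {y} = ∑ y ∈ γ.Mn, (if y ∈ Rw then 1 else 0) * f {y} := by
    simp [Finset.sum_ite_mem, Finset.inter_eq_right.2 hR]
  have e4 : ∀ w : X → ℝ, ∑ y, w y * cnd f (if y ∈ γ.Mn then {y} else ∅) ∅
      = ∑ y ∈ γ.Mn, w y * f {y} := by
    intro w
    rw [← Finset.sum_subset (Finset.subset_univ γ.Mn)]
    · exact Finset.sum_congr rfl fun y hy => by rw [if_pos hy, hf.cnd_empty]
    · intro y _ hy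
      rw [if_neg hy, cnd_empty_left, mul_zero]
  unfold Wf
  rw [Fintype.sum_sum_type, Fintype.sum_sum_type, Fintype.sum_prod_type, Fintype.sum_prod_type,
    Fintype.sum_bool, Fintype.sum_bool]
  simp only [e1]
  simp only [T, U, wts, e4]
  simp only [exc, fd, Finset.sum_sub_distrib, e2, e3, sub_mul, ← Finset.mul_sum, mul_assoc,
    Nat.cast_one, one_mul]
  ring

lemma le_Df {J : Type} [Fintype J] (T U : J → Finset X) (hf : Poly f) (Rw : Finset X) :
    ∑ y ∈ Rw, f {y} ≤ Df T U f := by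
  have h1 : ∑ y ∈ Rw, f {y} ≤ ∑ y, f {y} :=
    Finset.sum_le_sum_of_subset_of_nonneg (Finset.subset_univ _) fun _ _ _ => hf.nonneg _
  have h2 := hf.le_sum Finset.univ
  have h3 : 0 ≤ ∑ j, (f (T j ∪ U j) + ∑ y ∈ T j ∪ U j, f {y}) :=
    Finset.sum_nonneg fun j _ => add_nonneg (hf.nonneg _) (Finset.sum_nonneg fun _ _ => hf.nonneg _)
  have h4 : 0 ≤ ∑ y, f {y} := Finset.sum_nonneg fun _ _ => hf.nonneg _
  unfold Df
  linarith

theorem isLeast (h : γ.Ok) (c : (Finset X → ℝ) → ℝ) {Rw : Finset X} (hR : Rw ⊆ γ.Mn)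
    {D q C : ℝ} (hq : 0 < q) (h1 : ∀ f, Adm f → |Df γ.T γ.U f - D * c f| ≤ C * γ.err f)
    (h2 : ∀ f, Adm f → |∑ y ∈ Rw, f {y} - q * c f| ≤ C * γ.err f)
    (hM : ∀ η > 0, ∀ C' : ℝ, ∃ (Ω : Type) (_ : AddCommGroup Ω) (_ : Finite Ω)
      (L : X → AddSubgroup Ω), (∀ ω, (∀ y, ω ∈ L y) → ω = 0) ∧ C' ≤ c (rk L) ∧
        γ.err (rk L) ≤ η * c (rk L)) :
    0 < D ∧ ∃ (k l m : ℕ) (G : SimpleGraph (Fin k)) (H : SimpleGraph (Fin l)),
      IsLeast {c : ℝ | 0 ≤ c ∧ ∀ W, IsGraphon W → homDensity G W ^ c ≤ homDensity H W}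
        (m + q / D) := by
  classical
  have hC : ∀ f, Adm f → C * γ.err f ≤ |C| * γ.err f := fun f hf =>
    mul_le_mul_of_nonneg_right (le_abs_self C) (h.err_nonneg hf.1)
  have hqD : q ≤ D := by
    refine le_of_forall_pos_le_add fun ε hε => ?_
    obtain ⟨Ω, _, _, L, -, a1, a2⟩ := hM (ε / (2 * |C| + 1)) (by positivity) 1
    have a3 := adm_rk L
    have a4 := abs_le.1 (h1 _ a3)
    have a5 := abs_le.1 (h2 _ a3)
    have a6 := le_Df γ.T γ.U a3.1 Rw
    have a7 := hC _ a3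
    have a8 := mul_le_mul_of_nonneg_left a2 (show 0 ≤ 2 * |C| + 1 by positivity)
    rw [← mul_assoc, mul_div_cancel₀ _ (by positivity)] at a8
    have a9 := h.err_nonneg a3.1
    have : q * c (rk L) ≤ (D + ε) * c (rk L) := by nlinarith
    exact le_of_mul_le_mul_right this (by linarith)
  have hD : 0 < D := hq.trans_le hqD
  obtain ⟨K, hK⟩ := exists_nat_ge (2 * |C|)
  obtain ⟨bF, hb⟩ : ∃ bF : ℕ, K * (1 + Fintype.card Jc * γ.C0) + K * Fintype.card Jc + K + 1
    = bF := ⟨_, rfl⟩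
  have hb1 : K * Fintype.card Jc + 1 ≤ bF := by omega
  have hθ : q / D ≤ 1 := (div_le_one hD).2 hqD
  have hθ0 : 0 < q / D := div_pos hq hD
  have herr : ∀ f, γ.err f = γ.err0 f * (1 + Fintype.card Jc * γ.C0) + ∑ j, γ.exc f j := by
    intro f
    simp only [err, Finset.sum_add_distrib, Finset.sum_const, nsmul_eq_mul, Finset.card_univ]
    ring
  refine ⟨hD, enc_isLeast (T := γ.T) (U := γ.U) (b := γ.wts Rw K bF) (b0 := bF + 1) ?_ (by omega)
    hθ0 hθ ?_ ?_⟩
  · rintro (⟨_ | _, y⟩ | j | j) <;> simp only [wts] <;> omega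
  · intro Ω α ζ _ p Y Z ν f hp hf hP
    have a : Adm f := ⟨hP, Ω, α, ζ, _, p, Y, Z, ν, hp, hf⟩
    have a4 := (abs_le.1 (h1 _ a)).1
    have a5 := (abs_le.1 (h2 _ a)).2
    have a6 := h.un f hP
    have a7 := hC _ a
    have a8 := h.err_nonneg hP
    have a9 := ind_nonneg (γ := γ) hP
    have a10 := fd_nonneg (γ := γ) hP
    have a11 := mul_le_mul_of_nonneg_left a4 hθ0.le
    have a12 : q / D * (D * c f) = q * c f := by field_simp
    have a13 : q / D * (C * γ.err f) ≤ |C| * γ.err f :=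
      (mul_le_mul_of_nonneg_left a7 hθ0.le).trans
        (mul_le_of_le_one_left (by positivity) hθ)
    have a14 := mul_le_mul_of_nonneg_right hK a8
    have a15 : (K : ℝ) * (1 + Fintype.card Jc * γ.C0) + 1 ≤ bF := by
      have : K * (1 + Fintype.card Jc * γ.C0) + 1 ≤ bF := by omega
      exact_mod_cast this
    have a16 := mul_le_mul_of_nonneg_right a15 a9
    have a17 := mul_le_mul_of_nonneg_right a15 a10
    have a18 := mul_le_mul_of_nonneg_left a6 (show (0 : ℝ) ≤ bF + 1 by positivity)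
    rw [Wf_eq h hP hR hb1]
    rw [herr] at a14
    rw [← herr] at a14
    have a19 := herr f
    have a20 : (K : ℝ) * γ.err f = K * (1 + Fintype.card Jc * γ.C0) * γ.ind f
        + K * (1 + Fintype.card Jc * γ.C0) * γ.fd f + K * ∑ j, γ.exc f j := by
      rw [herr, err0]
      ring
    have a21 : ∑ y ∈ γ.Mn, f {y} = γ.ind f + f γ.Mn := by simp [ind]
    rw [a21]
    push_cast
    nlinarith
  · intro θ' h0 hθ' C'
    have hg : 0 < q - θ' * D := by
      have := (lt_div_iff₀ hD).1 hθ'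
      linarith
    set κ : ℝ := 2 * |C| + 2 * (bF + 1) + K with hκ
    have hκ0 : 0 < κ := by positivity
    obtain ⟨Ω, i1, i2, L, a0, a1, a2⟩ := hM ((q - θ' * D) / (2 * κ)) (by positivity)
      (2 * (|C'| + 1) / (q - θ' * D))
    refine ⟨Ω, i1, i2, L, a0, ?_⟩
    have a := adm_rk L
    set f := rk L
    have hP := a.1
    have a4 := (abs_le.1 (h1 _ a)).2
    have a5 := (abs_le.1 (h2 _ a)).1
    have a6 := hP.mono γ.Mn Finset.univ (Finset.subset_univ _)
    have a7 := hC _ a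
    have a8 := h.err_nonneg hP
    have a9 := ind_nonneg (γ := γ) hP
    have a10 := fd_nonneg (γ := γ) hP
    have a11 := mul_le_mul_of_nonneg_left a4 h0
    have a13 : θ' * (C * γ.err f) ≤ |C| * γ.err f :=
      (mul_le_mul_of_nonneg_left a7 h0).trans
        (mul_le_of_le_one_left (by positivity) (hθ'.le.trans hθ))
    have a14 := mul_le_mul_of_nonneg_left a2 (show 0 ≤ 2 * κ by positivity)
    rw [← mul_assoc, mul_div_cancel₀ _ (by positivity)] at a14
    rw [div_le_iff₀ hg] at a1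
    have a15 := h.err0_le hP
    have a16 : ∑ j, γ.exc f j ≤ γ.err f := by
      have := mul_nonneg (err0_nonneg (γ := γ) hP)
        (show (0 : ℝ) ≤ 1 + Fintype.card Jc * γ.C0 by positivity)
      rw [herr]
      linarith
    have a17 := mul_le_mul_of_nonneg_left a16 (Nat.cast_nonneg (α := ℝ) K)
    have a18 := mul_le_mul_of_nonneg_left a6 (show (0 : ℝ) ≤ bF + 1 by positivity)
    have a19 := mul_le_mul_of_nonneg_left a15 (show (0 : ℝ) ≤ 2 * (bF + 1) by positivity)
    have a20 := le_abs_self C'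
    have a21 : ∑ y ∈ γ.Mn, f {y} = γ.ind f + f γ.Mn := by simp [ind]
    have a22 := mul_nonneg (show (0 : ℝ) ≤ bF + 1 by positivity) a9
    rw [Wf_eq h hP hR hb1, a21]
    unfold err0 at a19
    push_cast
    nlinarith

end Cs

end Pool.Agent.Lib.MP_3b2820_co.H61
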