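import Pool.Agent.Lib.MP_3b2820_h61.Star

/-!
The value of the syndromes of a relation on a subtree.
-/

set_option autoImplicit false
set_option linter.unusedSectionVars false
set_option linter.unnecessarySeqFocus false

open Finset

namespace Pool.Agent.Lib.MP_3b2820_co.H61

section gl
variable {D N R : Type} [DecidableEq D] [DecidableEq N] [DecidableEq R] [Fintype N] [Fintype R]

/-- A subtree with an extra leaf, adapted to a relation. -/
structure Sub (σ : Sy D N R) (pa : ℕ → ℕ) (dr : ℕ → D) (k : ℕ) (r : R) (S : Finset ℕ) (l : ℕ) :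
    Prop where
  le : ∀ p ∈ S, p ≤ k
  lk : l ≤ k
  nm : l ∉ S
  z : 0 ∈ S
  pl : pa l ∈ S
  dl : dr l = σ.δ r
  cl : ∀ j ∈ S, j ≠ 0 → pa j ∈ S ∧ pa j < j ∧ σ.pr r (dr j)
  nx : ∀ p ∈ S, (p ≠ 0 ∧ dr p ≠ σ.δ r) ∨ ∃ j ∈ insert l S, j ≠ 0 ∧ pa j = p ∧ dr j = σ.δ r

/-- The subtree of a node. -/
def ex (σ : Sy D N R) (r : R) (S : Finset ℕ) (l : ℕ) (v : N) : Finset ℕ :=
  if σ.up r v then insert l S else S

/-- The syndromes of a relation. -/
def Yr (σ : Sy D N R) (r : R) (S : Finset ℕ) (l : ℕ) (E : Finset N) : Finset (Gv N R) :=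
  Ps N S r ∪ Ss R S (σ.A r ∪ σ.B r) ∪ Ss R {l} E

/-- The main variables of a relation. -/
def Mr (σ : Sy D N R) (r : R) (S : Finset ℕ) (l : ℕ) (E : Finset N) : Finset (Gv N R) :=
  Xs R S (σ.A r ∪ σ.B r) ∪ Xs R {l} E

/-- The shifted nodes. -/
def Eu (σ : Sy D N R) (r : R) : Finset N := (σ.A r ∪ σ.B r).filter fun v => σ.up r v

variable {σ : Sy D N R} {pa : ℕ → ℕ} {dr : ℕ → D} {n : ℕ} {h : Finset (Gv N R) → ℝ} {Δ : ℝ}
  {k : ℕ} {r : R} {S : Finset ℕ} {l : ℕ}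

lemma mem_ex (v : N) (p : ℕ) : p ∈ ex σ r S l v ↔ p ∈ S ∨ (p = l ∧ σ.up r v = true) := by
  unfold ex
  split_ifs with h <;> simp [h, or_comm]

lemma mem_Eu (v : N) : v ∈ Eu σ r ↔ (v ∈ σ.A r ∨ v ∈ σ.B r) ∧ σ.up r v = true := by simp [Eu]

lemma Sub.l0 (H : Sub σ pa dr k r S l) : l ≠ 0 := fun e => H.nm (e ▸ H.z)

lemma Sub.card (H : Sub σ pa dr k r S l) (hΔ : 0 ≤ Δ) :
    (S.card : ℝ) * Δ ≤ (k + 1) * Cy N R * Δ := by
  have h1 : S.card ≤ k + 1 := by
    simpa using Finset.card_le_card (t := Finset.range (k + 1)) fun p hp =>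
      Finset.mem_range.2 (Nat.lt_succ_of_le (H.le p hp))
  have h2 : (S.card : ℝ) ≤ k + 1 := by exact_mod_cast h1
  have h3 := one_le_Cy (N := N) (R := R)
  have : (0 : ℝ) ≤ k := Nat.cast_nonneg _
  exact mul_le_mul_of_nonneg_right (by nlinarith) hΔ

lemma cardE (E : Finset N) (k : ℕ) (hΔ : 0 ≤ Δ) :
    (E.card : ℝ) * Δ ≤ (k + 1) * Cy N R * Δ := by
  have h2 := card_le_Cy (R := R) E
  have h3 := one_le_Cy (N := N) (R := R)
  have : (0 : ℝ) ≤ k := Nat.cast_nonneg _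
  exact mul_le_mul_of_nonneg_right (by nlinarith) hΔ

lemma Sub.sub (H : Sub σ pa dr k r S l) (E E' : Finset N) :
    Mr σ r S l E ∪ Yr σ r S l E' ⊆ upTo k := by
  have := H.le
  have := H.lk
  have := H.l0
  rintro ⟨p, (v | r') | v⟩ <;> simp [Mr, Yr, mem_upTo] <;> grind

lemma mw_MY (H : Sub σ pa dr k r S l) (E E' : Finset N) :
    mw h (Mr σ r S l E ∪ Yr σ r S l E') = ∑ v ∈ σ.A r ∪ σ.B r, ∑ p ∈ S, h {gx R p v}
      + ∑ v ∈ E, h {gx R l v} := by
  rw [mw_congr h (T' := Mr σ r S l E) (fun p v => by simp [Yr])]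
  have := mw_Xs {l} E h
  simp only [Finset.sum_singleton] at this
  rw [← mw_Xs, ← this]
  unfold mw Mr
  refine Finset.sum_union (Finset.disjoint_left.2 ?_)
  have := H.nm
  rintro ⟨p, (v | r') | v⟩ <;> simp <;> grind

lemma Gl.upper (G : Gl σ pa dr n h Δ) (hk : k ≤ n) (H : Sub σ pa dr k r S l) {E1 E2 : Finset N}
    (hE : ∀ v, (v ∈ σ.A r ∨ v ∈ σ.B r) ↔ v ∈ E1 ∨ v ∈ E2)
    (hf : ∀ p ≤ n, ∀ V, (∀ v ∈ E2, gx R p v ∈ V) → gr N p r ∈ V →
      h (V ∪ Xs R {p} E1) ≤ h V + Δ) :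
    h (Mr σ r S l (Eu σ r) ∪ Yr σ r S l (Eu σ r)) ≤ h (Yr σ r S l (Eu σ r))
      + ∑ v ∈ E2, Zf h v (ex σ r S l v) + 2 * ((k + 1) * Cy N R * Δ) := by
  set Y := Yr σ r S l (Eu σ r) with hY
  have a1 := add_family (h := h) E2 (fun v => Xs R (ex σ r S l v) {v})
    (fun v => Zf h v (ex σ r S l v)) (fun _ => 0) Y (by
      intro v hv W hW _ h3
      refine zstep G.sub (fun c hc => hW ?_) fun c hc => ?_
      · revert hc
        obtain ⟨p, (v | r') | v⟩ := c <;> simp [hY, Yr, mem_ex, mem_Eu] <;> grind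
      · have := h3 c hc
        revert this
        obtain ⟨p, (v | r') | v⟩ := c <;> simp [hY, Yr] <;> grind)
  set V1 := Y ∪ E2.biUnion fun v => Xs R (ex σ r S l v) {v} with hV1
  have a2 := add_family (h := h) S (fun p => Xs R {p} E1) (fun _ => Δ) (fun _ => 0) V1 (by
    intro p hp W hW _ _
    refine hf p ((H.le p hp).trans hk) W (fun v hv => hW ?_) (hW ?_)
    · simp [hV1, mem_ex, hv, hp]
    · simp [hV1, hY, Yr, hp])
  set V2 := V1 ∪ S.biUnion fun p => Xs R {p} E1 with hV2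
  have a3 := add_family (h := h) (E1.filter fun v => σ.up r v) (fun v => {gx R l v}) (fun _ => Δ)
    (fun _ => 0) V2 (by
      intro v hv W hW _ _
      have hv' := Finset.mem_filter.1 hv
      refine G.f3 l (H.lk.trans hk) H.l0 v W (hW ?_) (hW ?_)
      · simp [hV2, hv'.1, H.pl]
      · simp [hV2, hV1, hY, Yr, H.l0, mem_Eu, hE, hv'.1, hv'.2])
  have e : Mr σ r S l (Eu σ r) ∪ Y = V2 ∪ (E1.filter fun v => σ.up r v).biUnion
      fun v => {gx R l v} := by
    ext ⟨p, (v | r') | v⟩ <;> simp [hV2, hV1, hY, Yr, Mr, mem_ex, mem_Eu, hE] <;> grind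
  rw [Finset.sum_const, nsmul_eq_mul] at a2 a3
  have := H.card G.nn
  have := cardE (R := R) (E1.filter fun v => σ.up r v) k G.nn
  rw [e]
  linarith

lemma Gl.lower (G : Gl σ pa dr n h Δ) (hk : k ≤ n) (H : Sub σ pa dr k r S l) :
    h (Yr σ r S l (Eu σ r)) ≤ ∑ v ∈ σ.A r, h (Ss R (ex σ r S l v) {v})
      + ∑ v ∈ σ.B r, ∑ p ∈ S, h {gx R p v} + ∑ v ∈ (σ.B r).filter (fun v => σ.up r v), h {gx R l v}
      + 3 * ((k + 1) * Cy N R * Δ) := by
  have a1 := add_family (h := h) (σ.A r) (fun v => Ss R (ex σ r S l v) {v})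
    (fun v => h (Ss R (ex σ r S l v) {v})) (fun _ => 0) ∅ (by
      intro v hv W _ _ h3
      have := zstep G.sub (W := W) (T := Ss R (ex σ r S l v) {v}) (U := ∅)
        (Finset.empty_subset _) fun c hc => by
          have := h3 c hc
          revert this
          obtain ⟨p, (v | r') | v⟩ := c <;> simp <;> grind
      simpa [G.emp] using this)
  set V1 := ∅ ∪ (σ.A r).biUnion fun v => Ss R (ex σ r S l v) {v} with hV1
  have a2 := add_family (h := h) S (fun p => {gr N p r})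
    (fun p => ∑ v ∈ σ.B r, h {gx R p v} + Δ) id V1 (by
      intro p hp W hW h2 _
      rcases H.nx p hp with ⟨h0, h1⟩ | ⟨j, hj, h0, rfl, h1⟩
      · obtain ⟨b1, b2, b3⟩ := H.cl p hp h0
        refine G.cc p ((H.le p hp).trans hk) h0 r W h1 b3 (fun v hv => hW ?_)
          (h2 _ b1 b2 (Finset.mem_singleton_self _))
        simp [hV1, mem_ex, hv, hp, h0]
      · refine G.cb j ?_ h0 r W h1 fun v hv hu => hW ?_
        · rcases Finset.mem_insert.1 hj with rfl | hj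
          exacts [H.lk.trans hk, (H.le j hj).trans hk]
        · rcases Finset.mem_insert.1 hj with rfl | hj <;> simp [hV1, mem_ex, hv, hu, h0, hj])
  set V2 := V1 ∪ S.biUnion fun p => {gr N p r} with hV2
  have a3 := add_family (h := h) (S.erase 0) (fun j => Ss R {j} (σ.B r)) (fun _ => Δ)
    (fun _ => 0) V2 (by
      intro j hj W hW _ _
      obtain ⟨h0, hj⟩ := Finset.mem_erase.1 hj
      obtain ⟨b1, b2, b3⟩ := H.cl j hj h0
      refine G.fc j ((H.le j hj).trans hk) h0 r W b3 (fun v hv => hW ?_) (hW ?_) (hW ?_)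
      · simp [hV2, hV1, mem_ex, hv, hj, h0]
      · simp [hV2, b1]
      · simp [hV2, hj])
  set V3 := V2 ∪ (S.erase 0).biUnion fun j => Ss R {j} (σ.B r) with hV3
  have a4 := add_family (h := h) ((σ.B r).filter fun v => σ.up r v) (fun v => {gs R l v})
    (fun v => h {gx R l v} + Δ) (fun _ => 0) V3 (by
      intro v hv W hW _ _
      have hv' := Finset.mem_filter.1 hv
      refine G.ca l (H.lk.trans hk) H.l0 r v W H.dl (Finset.mem_union_right _ hv'.1) hv'.2 (hW ?_)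
      simp [hV3, hV2, H.pl])
  have e : Yr σ r S l (Eu σ r) = V3 ∪ ((σ.B r).filter fun v => σ.up r v).biUnion
      fun v => {gs R l v} := by
    have := H.l0
    ext ⟨p, (v | r') | v⟩ <;> simp [hV3, hV2, hV1, Yr, mem_ex, mem_Eu] <;> grind
  rw [Finset.sum_add_distrib, Finset.sum_const, nsmul_eq_mul] at a2 a4
  rw [Finset.sum_const, nsmul_eq_mul] at a3
  rw [Finset.sum_comm] at a2
  rw [G.emp] at a1
  have := H.card G.nn
  have := cardE (R := R) ((σ.B r).filter fun v => σ.up r v) k G.nn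
  have : ((S.erase 0).card : ℝ) * Δ ≤ S.card * Δ :=
    mul_le_mul_of_nonneg_right (by exact_mod_cast Finset.card_erase_le) G.nn
  rw [e]
  linarith

lemma Gl.lower2 (G : Gl σ pa dr n h Δ) (hk : k ≤ n) (H : Sub σ pa dr k r S l) :
    h (Yr σ r S l (Eu σ r)) ≤ ∑ v ∈ σ.A r ∪ σ.B r, ∑ p ∈ S, h {gx R p v}
      + ∑ v ∈ Eu σ r, h {gx R l v} - ∑ v ∈ σ.A r, Zf h v (ex σ r S l v)
      + (3 + Cy N R) * ((k + 1) * Cy N R * Δ) := by
  have a1 := G.lower hk H
  have a2 : ∀ v ∈ σ.A r, h (Ss R (ex σ r S l v) {v}) ≤ ∑ p ∈ S, h {gx R p v}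
      + (if σ.up r v then h {gx R l v} else 0) - Zf h v (ex σ r S l v)
      + (k + 1) * Cy N R * Δ := by
    intro v hv
    have := H.le
    have := H.lk
    have := H.l0
    have := H.cl
    have := H.pl
    have b := G.high hk (W := Xs R (ex σ r S l v) {v} ∪ Ss R (ex σ r S l v) {v})
      (by rintro ⟨p, (v | r') | v⟩ <;> simp [mem_upTo, mem_ex] <;> grind)
      (by simp) (by intro j w; simp [mem_ex]; grind)
    rw [mw_congr h (T' := Xs R (ex σ r S l v) {v}) (fun p v => by simp), mw_Xs,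
      Finset.sum_singleton] at b
    have c : ∑ p ∈ ex σ r S l v, h {gx R p v}
        = ∑ p ∈ S, h {gx R p v} + if σ.up r v then h {gx R l v} else 0 := by
      unfold ex
      split_ifs
      · rw [Finset.sum_insert H.nm, add_comm]
      · simp
    unfold Zf
    linarith
  have a3 := Finset.sum_le_sum a2
  rw [Finset.sum_add_distrib, Finset.sum_sub_distrib, Finset.sum_add_distrib, Finset.sum_const,
    nsmul_eq_mul, ← Finset.sum_filter] at a3
  have a4 : 0 ≤ (k + 1) * Cy N R * Δ := by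
    have := one_le_Cy (N := N) (R := R)
    have := G.nn
    positivity
  have a5 := mul_le_mul_of_nonneg_right (card_le_Cy (R := R) (σ.A r)) a4
  rw [Eu, Finset.filter_union, Finset.sum_union (σ.disj r),
    Finset.sum_union (Finset.disjoint_filter_filter (σ.disj r))] at *
  linarith

/-- The approximate relation. -/
theorem Gl.rel (G : Gl σ pa dr n h Δ) (hpa : ∀ j, pa j ≤ j) (hk : k ≤ n)
    (H : Sub σ pa dr k r S l) : ∑ v ∈ σ.A r, Zf h v (ex σ r S l v)
      ≤ ∑ v ∈ σ.B r, Zf h v (ex σ r S l v) + (7 + Cy N R) * ((k + 1) * Cy N R * Δ) := by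
  have a1 := G.lower2 hk H
  have a2 := G.upper hk H (E1 := σ.A r) (E2 := σ.B r) (fun _ => Iff.rfl)
    fun p hp V => G.fb p hp r V
  have a3 := G.low hpa hk (H.sub (Eu σ r) (Eu σ r))
  rw [mw_MY H] at a3
  linarith

/-- The value of the syndromes. -/
theorem Gl.val (G : Gl σ pa dr n h Δ) (hpa : ∀ j, pa j ≤ j) (hk : k ≤ n)
    (H : Sub σ pa dr k r S l) {E : Finset N} (hE : E ⊆ Eu σ r) :
    |h (Yr σ r S l E) - (∑ v ∈ σ.A r ∪ σ.B r, ∑ p ∈ S, h {gx R p v} + ∑ v ∈ E, h {gx R l v}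
      - ∑ v ∈ σ.A r, Zf h v (ex σ r S l v))| ≤ (7 + Cy N R) * ((k + 1) * Cy N R * Δ) := by
  have a1 := G.lower2 hk H
  have a2 := G.upper hk H (E1 := σ.B r) (E2 := σ.A r) (fun _ => or_comm)
    fun p hp V => G.f1 p hp r V
  have a3 := G.low hpa hk (H.sub (Eu σ r) (Eu σ r))
  rw [mw_MY H] at a3
  have hE' : ∀ v ∈ E, (v ∈ σ.A r ∨ v ∈ σ.B r) ∧ σ.up r v = true := fun v hv => (mem_Eu v).1 (hE hv)
  have l0 := H.l0
  have a4 := add_family (h := h) (Eu σ r \ E) (fun v => {gs R l v})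
    (fun v => h {gx R l v} + Δ) (fun _ => 0) (Yr σ r S l E) (by
      intro v hv W hW _ _
      have hv' := (mem_Eu v).1 (Finset.mem_sdiff.1 hv).1
      refine G.ca l (H.lk.trans hk) H.l0 r v W H.dl (Finset.mem_union.2 hv'.1) hv'.2 (hW ?_)
      simp [Yr, H.pl])
  have e4 : Yr σ r S l E ∪ (Eu σ r \ E).biUnion (fun v => {gs R l v}) = Yr σ r S l (Eu σ r) := by
    ext ⟨p, (v | r') | v⟩ <;> simp [Yr, mem_Eu] <;> grind
  have a5 := add_family (h := h) (Eu σ r \ E) (fun v => {gx R l v})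
    (fun _ => Δ) (fun _ => 0) (Mr σ r S l E ∪ Yr σ r S l (Eu σ r)) (by
      intro v hv W hW _ _
      have hv' := (mem_Eu v).1 (Finset.mem_sdiff.1 hv).1
      refine G.f3 l (H.lk.trans hk) H.l0 v W (hW ?_) (hW ?_)
      · simp [Mr, H.pl, hv'.1]
      · simp [Yr, l0, mem_Eu, hv'])
  have e5 : Mr σ r S l E ∪ Yr σ r S l (Eu σ r) ∪ (Eu σ r \ E).biUnion (fun v => {gx R l v})
      = Mr σ r S l (Eu σ r) ∪ Yr σ r S l (Eu σ r) := by
    ext ⟨p, (v | r') | v⟩ <;> simp [Yr, Mr, mem_Eu] <;> grind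
  have a6 := G.sub (Yr σ r S l (Eu σ r)) (Mr σ r S l E ∪ Yr σ r S l E)
  have e6 : Yr σ r S l (Eu σ r) ∪ (Mr σ r S l E ∪ Yr σ r S l E)
      = Mr σ r S l E ∪ Yr σ r S l (Eu σ r) := by
    ext ⟨p, (v | r') | v⟩ <;> simp [Yr, Mr, mem_Eu] <;> grind
  have e7 : Yr σ r S l (Eu σ r) ∩ (Mr σ r S l E ∪ Yr σ r S l E) = Yr σ r S l E := by
    ext ⟨p, (v | r') | v⟩ <;> simp [Yr, Mr, mem_Eu] <;> grind
  have a7 := G.high hk (H.sub E E) (by intro p r'; simp [Mr, Yr]; grind) (by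
    have := H.cl
    have := H.pl
    intro j w
    simp [Mr, Yr]
    grind)
  rw [mw_MY H] at a7
  rw [e6, e7] at a6
  rw [e4, Finset.sum_add_distrib, Finset.sum_const, nsmul_eq_mul] at a4
  rw [e5, Finset.sum_const, nsmul_eq_mul] at a5
  have a8 := Finset.sum_sdiff (f := fun v => h {gx R l v}) hE
  have a9 := cardE (R := R) (Eu σ r \ E) k G.nn
  have a10 : 0 ≤ (k + 1) * Cy N R * Δ := by
    have := one_le_Cy (N := N) (R := R)
    have := G.nn
    positivity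
  have a11 := mul_nonneg (zero_le_one.trans (one_le_Cy (N := N) (R := R))) a10
  rw [abs_le]
  constructor <;> linarith

end gl

end Pool.Agent.Lib.MP_3b2820_co.H61
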