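import Pool.Agent.Lib.MP_3b2820_h61.Abs
import Pool.Agent.Lib.MP_3b2820_h61.Star2

/-!
The constraints attached to a system of relations.
-/

set_option autoImplicit false
set_option linter.unusedSectionVars false
set_option linter.unnecessarySeqFocus false

open Finset

namespace Pool.Agent.Lib.MP_3b2820_co.H61

/-- Variables of one edge. -/
abbrev Lv (N R : Type) : Type := Lc (N ⊕ R) N
/-- Variables of the base system. -/
abbrev Bv (D N R : Type) : Type := Bool × ((N ⊕ R) ⊕ (D × N))
/-- Local dependencies. -/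
abbrev Jf (N R : Type) : Type := (Bool × N) ⊕ (Bool × Option Bool × R) ⊕ R
/-- Local capacities. -/
abbrev Jc (N R : Type) : Type := (R × N) ⊕ R

section defs
variable {D N R : Type} [DecidableEq D] [DecidableEq N] [DecidableEq R] [Fintype D] [Fintype N]
  [Fintype R]

/-- Local main variable. -/
abbrev lx (R : Type) (b : Bool) (v : N) : Lv N R := .inl (b, .inl v)
/-- Local relation syndrome. -/
abbrev lr (N : Type) (b : Bool) (r : R) : Lv N R := .inl (b, .inr r)
/-- Local step syndrome. -/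
abbrev ls (R : Type) (v : N) : Lv N R := .inr v
/-- Local main variables. -/
def lxs (R : Type) [DecidableEq R] (b : Bool) (E : Finset N) : Finset (Lv N R) := E.image (lx R b)
/-- Local step syndromes. -/
def lss (R : Type) [DecidableEq R] (E : Finset N) : Finset (Lv N R) := E.image (ls R)
/-- All local main variables. -/
def lM (N R : Type) [DecidableEq N] [DecidableEq R] [Fintype N] : Finset (Lv N R) :=
  lxs R false Finset.univ ∪ lxs R true Finset.univ

variable (b b' : Bool) (E : Finset N) (v : N) (r : R)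
@[simp] lemma x_lxs : Sum.inl (b', Sum.inl v) ∈ lxs R b E ↔ b' = b ∧ v ∈ E := by
  simp [lxs]; grind
@[simp] lemma r_lxs : Sum.inl (b', Sum.inr r) ∈ lxs R b E ↔ False := by simp [lxs]
@[simp] lemma s_lxs : Sum.inr v ∈ lxs R b E ↔ False := by simp [lxs]
@[simp] lemma x_lss (l : Bool × (N ⊕ R)) : Sum.inl l ∈ lss R E ↔ False := by simp [lss]
@[simp] lemma s_lss : Sum.inr v ∈ lss R E ↔ v ∈ E := by simp [lss]
@[simp] lemma x_lM : Sum.inl (b, Sum.inl v) ∈ lM N R ↔ True := by cases b <;> simp [lM]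
@[simp] lemma r_lM : Sum.inl (b, Sum.inr r) ∈ lM N R ↔ False := by simp [lM]
@[simp] lemma s_lM : Sum.inr v ∈ lM N R ↔ False := by simp [lM]

lemma sum_lxs (φ : Lv N R → ℝ) : ∑ y ∈ lxs R b E, φ y = ∑ v ∈ E, φ (lx R b v) :=
  Finset.sum_image fun a _ b _ h => by simpa using h

/-- The edge of direction `d` from level `e`. -/
def eB (e : Bool) (d : D) : Lv N R → Bv D N R
  | .inl l => (xor e l.1, .inl l.2)
  | .inr v => (e, .inr (d, v))

lemma eB_inj (e : Bool) (d : D) : Function.Injective (eB e d : Lv N R → _) := by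
  rintro (⟨b, l⟩ | v) (⟨b', l'⟩ | v') h <;> simp_all [eB]

variable (σ : Sy D N R) (d : D)

/-- Targets of local dependencies. -/
def tf : Jf N R → Finset (Lv N R)
  | .inl (false, v) => {lx R true v}
  | .inl (true, v) => {ls R v}
  | .inr (.inl (b, none, r)) => {lr N b r}
  | .inr (.inl (b, some false, r)) => lxs R b (σ.A r)
  | .inr (.inl (b, some true, r)) => lxs R b (σ.B r)
  | .inr (.inr r) => if σ.pr r d then lss R (σ.B r) else ∅

/-- Sources of local dependencies. -/
def uf : Jf N R → Finset (Lv N R)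
  | .inl (false, v) => {lx R false v, ls R v}
  | .inl (true, v) => {lx R false v, lx R true v}
  | .inr (.inl (b, none, r)) => lxs R b (σ.A r ∪ σ.B r)
  | .inr (.inl (b, some false, r)) => lxs R b (σ.B r) ∪ {lr N b r}
  | .inr (.inl (b, some true, r)) => lxs R b (σ.A r) ∪ {lr N b r}
  | .inr (.inr r) => if σ.pr r d then lss R (σ.A r) ∪ {lr N false r, lr N true r} else ∅

/-- Targets of local capacities. -/
def tc : Jc N R → Finset (Lv N R)
  | .inl (r, v) => if d = σ.δ r ∧ v ∈ Eu σ r then {ls R v} else ∅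
  | .inr r => if d = σ.δ r then {lr N false r} else if σ.pr r d then {lr N true r} else ∅

/-- Sources of local capacities. -/
def uc : Jc N R → Finset (Lv N R)
  | .inl (r, v) => if d = σ.δ r ∧ v ∈ Eu σ r then {lr N false r} else ∅
  | .inr r => if d = σ.δ r then lss R ((σ.A r).filter fun v => σ.up r v)
      else if σ.pr r d then lss R (σ.A r) ∪ {lr N false r} else ∅

/-- Nominal values of local capacities. -/
def nm : Jc N R → Finset (Lv N R)
  | .inl (r, v) => if d = σ.δ r ∧ v ∈ Eu σ r then {lx R true v} else ∅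
  | .inr r => if d = σ.δ r then lxs R false (σ.B r) else if σ.pr r d then lxs R true (σ.B r) else ∅

/-- The constraints of the system. -/
def cs : Cs (Bv D N R) (Bool × D × Jf N R) (Bool × D × Jc N R) where
  Mn := Finset.univ ×ˢ Finset.univ.image fun v => .inl (.inl v)
  Tf j := (tf σ j.2.1 j.2.2).image (eB j.1 j.2.1)
  Uf j := (uf σ j.2.1 j.2.2).image (eB j.1 j.2.1)
  Tc j := (tc σ j.2.1 j.2.2).image (eB j.1 j.2.1)
  Uc j := (uc σ j.2.1 j.2.2).image (eB j.1 j.2.1)
  Nm j := (nm σ j.2.1 j.2.2).image (eB j.1 j.2.1)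
  C0 := Fintype.card N + 3

/-- The set function on an edge. -/
def fl (f : Finset (Bv D N R) → ℝ) (e : Bool) (d : D) (A : Finset (Lv N R)) : ℝ :=
  f (A.image (eB e d))

/-- The value of a main variable. -/
def fx (f : Finset (Bv D N R) → ℝ) (e : Bool) (v : N) : ℝ := f {(e, .inl (.inl v))}

/-- Local dependencies hold approximately. -/
structure LF (φ : Finset (Lv N R) → ℝ) (Δ : ℝ) : Prop where
  po : Poly φ
  nn : 0 ≤ Δ
  fd : ∀ j, cnd φ (tf σ d j) (uf σ d j) ≤ Δ
  ind : ∑ y ∈ lM N R, φ {y} - Δ ≤ φ (lM N R)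

/-- Local capacities hold approximately. -/
def LC (φ : Finset (Lv N R) → ℝ) (Δ : ℝ) : Prop :=
  ∀ j, cnd φ (tc σ d j) (uc σ d j) ≤ ∑ y ∈ nm σ d j, φ {y} + Δ

variable {σ d} {φ : Finset (Lv N R) → ℝ} {Δ : ℝ} {f : Finset (Bv D N R) → ℝ}

lemma cnd_fl (e : Bool) (T U : Finset (Lv N R)) :
    cnd (fl f e d) T U = cnd f (T.image (eB e d)) (U.image (eB e d)) := by
  simp only [cnd, fl, Finset.image_union]

lemma sum_fl (e : Bool) (T : Finset (Lv N R)) :
    ∑ y ∈ T.image (eB e d), f {y} = ∑ y ∈ T, fl f e d {y} := by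
  rw [Finset.sum_image fun a _ b _ h => eB_inj e d h]
  simp [fl]

lemma lM_image (e : Bool) (d : D) : (lM N R).image (eB e d) = (cs σ).Mn := by
  ext ⟨b, (v | r) | v⟩
  · simp only [cs, Finset.mem_image]
    refine ⟨fun _ => by simp, fun _ => ⟨lx R (xor e b) v, by simp, by simp [eB]⟩⟩
  all_goals
    simp only [cs, Finset.mem_image]
    refine ⟨?_, by simp⟩
    rintro ⟨⟨b, v | r⟩ | v, h1, h2⟩ <;> simp [eB] at h1 h2

lemma lf_of (hf : Poly f) {Δ : ℝ} (hΔ : (cs σ).err0 f ≤ Δ) (e : Bool) (d : D) :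
    LF σ d (fl f e d) Δ := by
  refine ⟨hf.image _, (Cs.err0_nonneg hf).trans hΔ, fun j => ?_, ?_⟩
  · rw [cnd_fl]
    exact (Cs.fd_le (γ := cs σ) hf (e, d, j)).trans hΔ
  · rw [← sum_fl, fl, lM_image (σ := σ)]
    have := Cs.fd_nonneg (γ := cs σ) hf
    unfold Cs.err0 Cs.ind at hΔ
    linarith

lemma nm_sub (j : Jc N R) : nm σ d j ⊆ lM N R := by
  obtain ⟨r, v⟩ | r := j <;> simp only [nm] <;> split_ifs <;>
    rintro (⟨b, v | r⟩ | v) <;> simp

lemma LF.low (H : LF σ d φ Δ) {M S : Finset (Lv N R)} (h1 : M ⊆ lM N R) (h2 : M ⊆ S) :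
    ∑ y ∈ M, φ {y} - Δ ≤ φ S := by
  have a1 := H.po.le_add_cnd (A := lM N R) (lM N R \ M) S (by
    intro x hx
    have := @h2 x
    simp only [Finset.mem_union, Finset.mem_sdiff]
    tauto)
  have a2 := (H.po.cnd_le_val (lM N R \ M) S).trans (H.po.le_sum _)
  have a3 := Finset.sum_sdiff (f := fun y => φ {y}) h1
  have := H.ind
  linarith

lemma LF.ss (H : LF σ d φ Δ) (E : Finset N) {Y : Finset (Lv N R)}
    (h : ∀ v ∈ E, ∀ b, lx R b v ∈ Y) : cnd φ (lss R E) Y ≤ Fintype.card N * Δ := by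
  have a := H.po.cover E (fun v => {ls R v}) (fun v => {lx R false v, lx R true v}) (A := lss R E)
    (B := Y) (by rintro (l | v) <;> simp; tauto) (by
      intro v hv c hc
      simp only [Finset.mem_insert, Finset.mem_singleton] at hc
      rcases hc with rfl | rfl <;> exact h v hv _)
  have a2 := Finset.sum_le_card_nsmul E _ Δ fun v _ => H.fd (.inl (true, v))
  have a3 : (E.card : ℝ) ≤ Fintype.card N := by exact_mod_cast Finset.card_le_univ E
  have := mul_le_mul_of_nonneg_right a3 H.nn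
  simp only [tf, uf, nsmul_eq_mul] at a2
  linarith

lemma LF.rr (H : LF σ d φ Δ) (b : Bool) (r : R) {Y : Finset (Lv N R)}
    (h : ∀ v ∈ σ.A r ∪ σ.B r, lx R b v ∈ Y) : cnd φ {lr N b r} Y ≤ Δ := by
  refine le_trans (H.po.cnd_le Finset.subset_union_left ?_) (H.fd (.inr (.inl (b, none, r))))
  intro c hc
  obtain ⟨v, hv, rfl⟩ := Finset.mem_image.1 hc
  exact h v hv

lemma LF.exc (H : LF σ d φ Δ) (j : Jc N R) : ∑ y ∈ nm σ d j, φ {y} - (Fintype.card N + 3) * Δ
    ≤ cnd φ (tc σ d j) (uc σ d j) := by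
  have key : ∀ T U M : Finset (Lv N R), M ⊆ lM N R →
      cnd φ U (lM N R \ M) ≤ (Fintype.card N + 1) * Δ →
      cnd φ M (T ∪ (U ∪ (lM N R \ M))) ≤ Δ →
      ∑ y ∈ M, φ {y} - (Fintype.card N + 3) * Δ ≤ cnd φ T U := by
    intro T U M h1 h2 h3
    have a1 := H.po.cnd_le (A := T) (A' := T) (B := U ∪ (lM N R \ M)) (B' := U)
      Finset.subset_union_left Finset.subset_union_left
    have a2 := H.po.le_add_cnd (A := lM N R) M (T ∪ (U ∪ (lM N R \ M))) (by
      intro x hx
      simp only [Finset.mem_union, Finset.mem_sdiff]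
      tauto)
    have a3 := H.po.le_sum (lM N R \ M)
    have a4 := Finset.sum_sdiff (f := fun y => φ {y}) h1
    have := H.ind
    unfold cnd at *
    linarith
  have n0 := H.nn
  have n1 : 0 ≤ (Fintype.card N : ℝ) * Δ := by positivity
  have := nm_sub (σ := σ) (d := d) j
  obtain ⟨r, v⟩ | r := j <;> simp only [nm, tc, uc] at this ⊢ <;> split_ifs at this ⊢
  · refine key _ _ _ this ((H.rr false r fun w _ => by simp).trans (by linarith)) ?_
    refine le_trans (H.po.cnd_le Finset.subset_union_left ?_) (H.fd (.inl (false, v)))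
    rintro (⟨b, v | r⟩ | v) <;> simp [uf] <;> grind
  · simp only [cnd_empty_left, Finset.sum_empty]
    linarith
  · have hd := Finset.disjoint_left.1 (σ.disj r)
    refine key _ _ _ this ((H.ss _ fun w hw b => ?_).trans (by linarith)) ?_
    · simp at hw ⊢
      grind
    refine le_trans (H.po.cnd_le Finset.subset_union_left ?_)
      (H.fd (.inr (.inl (false, some true, r))))
    rintro (⟨b, v | r⟩ | v) <;> simp [uf] <;> grind
  · have hd := Finset.disjoint_left.1 (σ.disj r)
    refine key _ _ _ this ((H.po.cnd_union_le _ _ _).trans ?_) ?_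
    · have := H.ss (σ.A r) (Y := lM N R \ lxs R true (σ.B r)) fun w hw b => by
        simp
        grind
      have := H.rr false r (Y := lM N R \ lxs R true (σ.B r)) fun w _ => by simp
      linarith
    refine le_trans (H.po.cnd_le Finset.subset_union_left ?_)
      (H.fd (.inr (.inl (true, some true, r))))
    rintro (⟨b, v | r⟩ | v) <;> simp [uf] <;> grind
  · simp only [cnd_empty_left, Finset.sum_empty]
    linarith

lemma exc_eq (j : Bool × D × Jc N R) : (cs σ).exc f j
    = cnd (fl f j.1 j.2.1) (tc σ j.2.1 j.2.2) (uc σ j.2.1 j.2.2)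
      - ∑ y ∈ nm σ j.2.1 j.2.2, fl f j.1 j.2.1 {y} := by
  rw [cnd_fl, ← sum_fl]
  rfl

theorem cs_ok (σ : Sy D N R) : (cs σ).Ok := by
  refine ⟨fun j => ?_, fun f hf => ?_, fun f hf j => ?_⟩
  · rw [← lM_image (σ := σ) j.1 j.2.1]
    exact Finset.image_subset_image (nm_sub _)
  · let _ : DecidableEq (Bool × D × Jf N R) := Classical.decEq _
    let ψ : Bool × (R ⊕ D × N) → Bool × D × Jf N R := fun y => (y.1, Sum.elim
      (fun r => (σ.δ r, .inr (.inl (false, none, r)))) (fun v => (v.1, .inl (true, v.2))) y.2)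
    have a1 := hf.le_add_cnd (A := Finset.univ) Finset.univ (cs σ).Mn Finset.subset_union_left
    have a2 := hf.cover (Finset.univ.image ψ) (cs σ).Tf (cs σ).Uf (A := Finset.univ)
      (B := (cs σ).Mn) (by
        rintro ⟨e, (v | r) | v⟩ -
        · simp [cs]
        · exact Or.inr ⟨_, Finset.mem_image_of_mem ψ (Finset.mem_univ (e, .inl r)),
            by simp [cs, ψ, tf, eB]⟩
        · exact Or.inr ⟨_, Finset.mem_image_of_mem ψ (Finset.mem_univ (e, .inr v)),
            by simp [cs, ψ, tf, eB]⟩) (by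
        intro j hj
        obtain ⟨⟨e, y⟩, -, rfl⟩ := Finset.mem_image.1 hj
        rw [← lM_image (σ := σ) e (ψ (e, y)).2.1]
        refine Finset.image_subset_image ?_
        obtain r | v := y <;> rintro (⟨b, v | r⟩ | v) <;> simp [ψ, uf])
    have a3 := Finset.sum_le_sum_of_subset_of_nonneg (Finset.subset_univ (Finset.univ.image ψ))
      (f := fun j => cnd f ((cs σ).Tf j) ((cs σ).Uf j)) fun _ _ _ => hf.cnd_nonneg _ _
    unfold Cs.fd
    linarith
  · have := (lf_of (σ := σ) hf le_rfl j.1 j.2.1).exc j.2.2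
    rw [exc_eq]
    simp only [cs] at this ⊢
    push_cast
    linarith

lemma lc_of (hf : Poly f) (e : Bool) (d : D) : LC σ d (fl f e d) ((cs σ).err f) := by
  intro j
  have := (cs_ok σ).exc_le hf (e, d, j)
  rw [exc_eq] at this
  linarith

end defs

end Pool.Agent.Lib.MP_3b2820_co.H61
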