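import Pool.Agent.Lib.MP_3b2820_h61.Base

/-!
Counter machines as systems of relations: definitions and statements of the blocks.
-/

set_option autoImplicit false
set_option linter.unusedSectionVars false
set_option linter.unusedVariables false

open Finset

noncomputable section

namespace Pool.Agent.Lib.MP_3b2820_co.H61

section gen
variable {D N R : Type} [DecidableEq D] [DecidableEq N] [DecidableEq R]

/-- The shifted index of a node in a relation. -/
def shf (σ : Sy D N R) (r : R) (v : N) (i : D → ℕ) : D → ℕ :=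
  if σ.up r v then i + Pi.single (σ.δ r) 1 else i

/-- The relations hold approximately up to depth `n`. -/
def ZR (σ : Sy D N R) (Z : N → (D → ℕ) → ℝ) (n : ℕ) (ε : ℝ) : Prop :=
  ∀ (r : R) (i : D → ℕ) (k : ℕ), (∀ d, i d ≤ k) → k + 1 ≤ n → (∀ d, i d ≠ 0 → σ.pr r d = true) →
    ∑ a ∈ σ.A r, Z a (shf σ r a i) ≤ ∑ b ∈ σ.B r, Z b (shf σ r b i) + (k + 1) * ε

/-- A linear bound up to depth `n`. -/
def ZB (Z : N → (D → ℕ) → ℝ) (n : ℕ) (b : ℝ) : Prop :=
  ∀ (v : N) (i : D → ℕ) (k : ℕ), (∀ d, i d ≤ k) → k ≤ n → |Z v i| ≤ (k + 1) * b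

/-- A combinatorial model: points, shifts and matchings. -/
structure Mdl (σ : Sy D N R) (P : Type) where
  /-- The node of a point. -/
  nd : P → N
  /-- The shift in a direction. -/
  sh : D → P → P
  /-- Points that are not shifts. -/
  bot : D → P → Prop
  /-- The points of the model. -/
  F : Finset P
  /-- Points that may be unmatched. -/
  Bad : Finset P
  /-- The matching of a relation. -/
  Mt : R → P → P → Prop
  nd_sh : ∀ d p, nd (sh d p) = nd p
  sh_inj : ∀ d, Function.Injective (sh d)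
  cas : ∀ d p, bot d p ∨ ∃ p0, p = sh d p0
  nbot : ∀ d p, ¬bot d (sh d p)
  bx : ∀ d d' p, d ≠ d' → sh d p ∈ F → sh d' p ∈ F → sh d' (sh d p) ∈ F
  m0 : ∀ r p p', Mt r p p' → p ∈ F ∧ p' ∈ F ∧ nd p ∈ σ.A r ∧ nd p' ∈ σ.B r
  ur : ∀ r p p1 p2, Mt r p p1 → Mt r p p2 → p1 = p2
  ul : ∀ r p1 p2 p', Mt r p1 p' → Mt r p2 p' → p1 = p2
  m2 : ∀ r p p', Mt r p p' → (σ.up r (nd p) = true → sh (σ.δ r) p ∈ F) ∧
    (σ.up r (nd p') = true → sh (σ.δ r) p' ∈ F)
  da : ∀ r d p p1, σ.pr r d = true → Mt r (sh d p) p1 → ∃ p', p1 = sh d p' ∧ Mt r p p'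
  db : ∀ r d p1 p', σ.pr r d = true → Mt r p1 (sh d p') → ∃ p, p1 = sh d p ∧ Mt r p p'
  m4 : ∀ r p, p ∈ F → nd p ∈ σ.A r → (σ.up r (nd p) = true → sh (σ.δ r) p ∈ F) → p ∉ Bad →
    ∃ p', Mt r p p'

end gen

/-- A machine with three counters. -/
structure Mc (Q : Type) where
  /-- The instruction of a state: increment, or test and decrement. -/
  ins : Q → Bool
  /-- The counter of a state. -/
  dr : Q → Fin 3
  /-- The next state on each branch. -/
  nx : Q → Bool → Q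
  /-- The initial state. -/
  q0 : Q

/-- Nodes: the source, the two outputs of a state, the copies of the input of a state. -/
abbrev Nd (Q : Type) (M : ℕ) : Type := Unit ⊕ (Q × Bool) ⊕ (Q × Fin (M + 3))
/-- Two sided relations: source, instructions, merging, copies. -/
abbrev Rl (Q : Type) (M : ℕ) : Type := Fin 3 ⊕ (Q × Fin 3) ⊕ Q ⊕ (Q × Fin (M + 3))

/-- The number of points of a box beyond an index. -/
def box (s i : Fin 3 → ℕ) : ℝ := ∏ d, ((s d + 1 - i d : ℕ) : ℝ)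

section mc
variable {Q : Type} [DecidableEq Q] [Fintype Q]

/-- The source. -/
abbrev nc (Q : Type) (M : ℕ) : Nd Q M := .inl ()
/-- An output. -/
abbrev no (M : ℕ) (q : Q) (b : Bool) : Nd Q M := .inr (.inl (q, b))
/-- A copy of an input. -/
abbrev ni {M : ℕ} (q : Q) (k : Fin (M + 3)) : Nd Q M := .inr (.inr (q, k))

namespace Mc
variable (μ : Mc Q)

/-- The branch taken. -/
def br (c : Q × (Fin 3 → ℕ)) : Bool := μ.ins c.1 || decide (c.2 (μ.dr c.1) ≠ 0)
/-- One step. -/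
def step (c : Q × (Fin 3 → ℕ)) : Q × (Fin 3 → ℕ) := (μ.nx c.1 (μ.br c),
  if μ.ins c.1 then c.2 + Pi.single (μ.dr c.1) 1 else c.2 - Pi.single (μ.dr c.1) 1)
/-- The run from the initial state with empty counters. -/
def run (t : ℕ) : Q × (Fin 3 → ℕ) := μ.step^[t] (μ.q0, 0)

variable (M : ℕ)

/-- The node carries the particle at time `t`. -/
def act : Nd Q M → ℕ → Bool
  | .inl _, t => decide (t = 0)
  | .inr (.inl (q, b)), t => decide ((μ.run t).1 = q ∧ μ.br (μ.run t) = b)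
  | .inr (.inr (q, _)), t => decide ((μ.run t).1 = q)
/-- The size of the particle. -/
def sz : Nd Q M → ℕ → Fin 3 → ℕ
  | .inl _, _ => 0
  | .inr (.inl _), t => (μ.run (t + 1)).2
  | .inr (.inr _), t => (μ.run t).2
/-- The delay of the weight. -/
def lag : Nd Q M → ℕ
  | .inl _ => 0
  | .inr _ => 1
/-- The exact solution. -/
def Zs (v : Nd Q M) (i : Fin 3 → ℕ) : ℝ :=
  ∑' t, if μ.act M v t then box (μ.sz M v t) i / ((M : ℝ) + 3) ^ (t + lag M v) else 0

/-- Left sides. -/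
def A0 : Rl Q M → Finset (Nd Q M)
  | .inl _ => {nc Q M}
  | .inr (.inl (q, 0)) => {no M q true}
  | .inr (.inl (q, 1)) => if μ.ins q then {no M q true, ni q 1} else {no M q false, ni q 1, ni q 2}
  | .inr (.inl (q, 2)) => {no M q false}
  | .inr (.inr (.inl q)) => Finset.univ.image (ni q)
  | .inr (.inr (.inr (q, k))) => if k = 0 then ∅ else {ni q k}
/-- Right sides. -/
def B0 : Rl Q M → Finset (Nd Q M)
  | .inl _ => ∅
  | .inr (.inl (q, 0)) => {ni q 0}
  | .inr (.inl (q, 1)) => if μ.ins q then {ni q 0, ni q 2} else {ni q 0, no M q true}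
  | .inr (.inl (_, 2)) => ∅
  | .inr (.inr (.inl q)) =>
      (Finset.univ.filter fun x : Q × Bool => μ.nx x.1 x.2 = q).image (fun x => no M x.1 x.2)
        ∪ if q = μ.q0 then {nc Q M} else ∅
  | .inr (.inr (.inr (q, k))) => if k = 0 then ∅ else {ni q 0}
/-- Directions. -/
def δ0 : Rl Q M → Fin 3
  | .inl d => d
  | .inr (.inl (q, _)) => μ.dr q
  | .inr (.inr _) => 0
/-- Shifted nodes. -/
def up0 : Rl Q M → Nd Q M → Bool
  | .inl _, _ => true
  | .inr (.inl (q, 0)), v => if μ.ins q then decide (v = no M q true) else decide (v = ni q 0)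
  | .inr (.inl (q, 1)), v => if μ.ins q then decide (v = ni q 1)
      else decide (v = ni q 1 ∨ v = ni q 2 ∨ v = no M q true)
  | .inr (.inl (q, 2)), _ => !μ.ins q
  | .inr (.inr _), _ => false
/-- Directions of propagation. -/
def pr0 : Rl Q M → Fin 3 → Bool
  | .inr (.inl (q, 1)), d => decide (d ≠ μ.dr q)
  | _, _ => true

lemma disj0 (r : Rl Q M) : Disjoint (μ.A0 M r) (μ.B0 M r) := by
  have h1 : (1 : Fin (M + 3)) ≠ 0 := by simp
  have h2 : (2 : Fin (M + 3)) ≠ 0 := Fin.ne_of_val_ne (by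
    simp [Nat.mod_eq_of_lt (show 2 < M + 3 by omega)])
  have h3 : (1 : Fin (M + 3)) ≠ 2 := Fin.ne_of_val_ne (by
    simp [Nat.mod_eq_of_lt (show 2 < M + 3 by omega)])
  rw [Finset.disjoint_left]
  obtain d | ⟨q, j⟩ | q | ⟨q, k⟩ := r
  · simp [B0]
  · fin_cases j <;> simp only [A0, B0] <;> (try split_ifs) <;> simp [h1, h2, h3]
  · simp only [A0, B0]
    split_ifs <;> simp
  · simp only [A0, B0]
    split_ifs <;> simp_all

/-- The system of a machine: every relation in both directions. -/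
def sys : Sy (Fin 3) (Nd Q M) (Rl Q M × Bool) where
  A r := if r.2 then μ.B0 M r.1 else μ.A0 M r.1
  B r := if r.2 then μ.A0 M r.1 else μ.B0 M r.1
  δ r := μ.δ0 M r.1
  up r := μ.up0 M r.1
  pr r := μ.pr0 M r.1
  disj r := by
    split_ifs
    exacts [(μ.disj0 M r.1).symm, μ.disj0 M r.1]

end Mc
end mc

/-- Stability of the solution. -/
def St_ZST : Prop := ∀ (Q : Type) [DecidableEq Q] [Fintype Q] (μ : Mc Q) (M : ℕ),
  48 * Fintype.card Q + 64 ≤ M → ∃ C : ℝ, ∀ b η : ℝ, 0 ≤ b → 0 < η → ∃ n : ℕ, 3 ≤ n ∧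
    ∀ (Z : Nd Q M → (Fin 3 → ℕ) → ℝ) (ε : ℝ), 0 ≤ ε → ZR (μ.sys M) Z n ε → ZB Z n b →
      ∀ v i, (∀ d, i d ≤ 2) → |Z v i - Z (nc Q M) 0 * μ.Zs M v i| ≤ C * ε + η

/-- The linear model of a combinatorial model. -/
def St_MODA : Prop := ∀ (D N R P : Type) [DecidableEq D] [DecidableEq N] [DecidableEq R]
  [Fintype D] [Fintype N] [Fintype R] (σ : Sy D N R) (m : Mdl σ P),
    ∃ (Ω : Type) (_ : AddCommGroup Ω) (_ : Finite Ω) (L : Bv D N R → AddSubgroup Ω),
      (∀ ω, (∀ y, ω ∈ L y) → ω = 0) ∧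
      (∀ e v, fx (rk L) e v = (m.F.filter fun p => m.nd p = v).card * Real.log 2) ∧
      (cs σ).err (rk L) ≤ Fintype.card (Bool × D × Jc N R) * (m.Bad.card * Real.log 2)

/-- The combinatorial model of a truncated run. -/
def St_MODB : Prop := ∀ (Q : Type) [DecidableEq Q] [Fintype Q] (μ : Mc Q) (M T : ℕ), 1 ≤ T →
  ∃ (P : Type) (m : Mdl (μ.sys M) P), (m.F.filter fun p => m.nd p = nc Q M).card = (M + 3) ^ T ∧
    m.Bad.card ≤ (T + 1) ^ 3

/-- A machine with a Liouville value. -/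
def St_LIOU : Prop := ∃ (Q : Type) (_ : DecidableEq Q) (_ : Fintype Q) (μ : Mc Q) (V : Q),
  ∀ M : ℕ, 64 ≤ M → Liouville (μ.Zs M (ni V 0) 0) ∧ 0 < μ.Zs M (ni V 0) 0

end Pool.Agent.Lib.MP_3b2820_co.H61
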