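import Pool.Agent.Lib.MP_3b2820_h61.AP

/-!
Assembly: two exponents whose combination is a Liouville number.
-/

set_option autoImplicit false
set_option linter.unusedSectionVars false

open Finset

namespace Pool.Agent.Lib.MP_3b2820_co.H61

section fin
variable {N R : Type} [DecidableEq N] [DecidableEq R] [Fintype N] [Fintype R]
  {σ : Sy (Fin 3) N R} {v0 : N} {Zs : N → (Fin 3 → ℕ) → ℝ}

lemma det_of (hZ : ∃ C : ℝ, ∀ b η : ℝ, 0 ≤ b → 0 < η → ∃ n : ℕ, 3 ≤ n ∧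
    ∀ (Z : N → (Fin 3 → ℕ) → ℝ) (ε : ℝ), 0 ≤ ε → ZR σ Z n ε → ZB Z n b →
      ∀ v i, (∀ d, i d ≤ 2) → |Z v i - Z v0 0 * Zs v i| ≤ C * ε + η) : Det σ v0 Zs := by
  obtain ⟨C, hC⟩ := hZ
  refine ⟨C * C1 N R, fun f hf e η hη => ?_⟩
  obtain ⟨b, hb, h⟩ := star σ hf e
  obtain ⟨n, hn, h2⟩ := hC b η hb hη
  obtain ⟨Z, z1, z2, z3⟩ := h n hn
  have h0 : 0 ≤ C1 N R * (cs σ).err f := by
    refine mul_nonneg ?_ ((cs_ok _).err_nonneg hf.1)
    unfold C1 Cy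
    positivity
  refine ⟨Z, z3, fun v i hi => ?_⟩
  rw [← z3.k0, mul_assoc]
  exact h2 Z _ h0 z1 z2 v i hi

lemma models (hA : St_MODA) {M : ℕ} (hB : ∀ T : ℕ, 1 ≤ T → ∃ (P : Type) (m : Mdl σ P),
    (m.F.filter fun p => m.nd p = v0).card = (M + 3) ^ T ∧ m.Bad.card ≤ (T + 1) ^ 3)
    (η : ℝ) (hη : 0 < η) (C' : ℝ) :
    ∃ (Ω : Type) (_ : AddCommGroup Ω) (_ : Finite Ω)
      (L : Bv (Fin 3) N R → AddSubgroup Ω), (∀ ω, (∀ y, ω ∈ L y) → ω = 0) ∧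
        C' ≤ fx (rk L) true v0 + fx (rk L) false v0 ∧ (cs σ).err (rk L)
          ≤ η * (fx (rk L) true v0 + fx (rk L) false v0) := by
  obtain ⟨K, hK'⟩ : ∃ K : ℝ, (Fintype.card (Bool × Fin 3 × Jc N R) : ℝ) = K := ⟨_, rfl⟩
  have hK : 0 ≤ K := hK' ▸ Nat.cast_nonneg _
  have hr : (1 : ℝ) < M + 3 := by
    have := Nat.cast_nonneg (α := ℝ) M
    linarith
  have t1 := (tendsto_pow_const_div_const_pow_of_one_lt 3 hr).eventually
    (gt_mem_nhds (show 0 < η / (8 * K + 1) by positivity))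
  have t2 := (tendsto_pow_atTop_atTop_of_one_lt hr).eventually_ge_atTop |C'|
  obtain ⟨T, ⟨h1, h2⟩, h3⟩ := ((t1.and t2).and (Filter.eventually_ge_atTop 1)).exists
  obtain ⟨P, m, m1, m2⟩ := hB T h3
  obtain ⟨Ω, i1, i2, L, l1, l2, l3⟩ := hA _ _ _ P σ m
  have l4 := l2 true v0
  have l5 := l2 false v0
  rw [m1] at l4 l5
  rw [hK'] at l3
  push_cast at l4 l5
  have g1 := Real.log_two_gt_d9
  have g2 : (0 : ℝ) < (M + 3) ^ T := by positivity
  have g0 := le_abs_self C'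
  refine ⟨Ω, i1, i2, L, l1, by nlinarith, l3.trans ?_⟩
  have g3 : (m.Bad.card : ℝ) ≤ (T + 1) ^ 3 := by exact_mod_cast m2
  have g4 : (1 : ℝ) ≤ T := by exact_mod_cast h3
  have g5 : ((T : ℝ) + 1) ^ 3 ≤ (2 * T) ^ 3 := by gcongr; linarith
  rw [div_lt_div_iff₀ g2 (by positivity)] at h1
  have g6 : K * m.Bad.card ≤ η * (M + 3) ^ T := by
    have := mul_le_mul_of_nonneg_left (g3.trans g5) hK
    have : (0 : ℝ) ≤ T ^ 3 := by positivity
    nlinarith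
  have g7 := mul_le_mul_of_nonneg_right g6 (show 0 ≤ Real.log 2 by linarith)
  have g8 : 0 ≤ η * (M + 3) ^ T * Real.log 2 := by positivity
  rw [l4, l5]
  nlinarith

lemma Det.pair (hD : Det σ v0 Zs) (v : N) :
    ∃ C : ℝ, ∀ f, Adm f → |∑ y ∈ {(true, .inl (.inl v)), (false, .inl (.inl v))}, f {y}
      - Zs v 0 * (fx f true v0 + fx f false v0)| ≤ C * (cs σ).err f := by
  obtain ⟨C, h⟩ := hD
  refine ⟨2 * C, fun f hf => le_of_forall_pos_le_add fun ε hε => ?_⟩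
  obtain ⟨Z, z1, z2⟩ := h f hf true (ε / 2) (by positivity)
  obtain ⟨Z', z3, z4⟩ := h f hf false (ε / 2) (by positivity)
  have a1 := abs_le.1 (z2 v 0 (by simp))
  have a2 := abs_le.1 (z4 v 0 (by simp))
  rw [z1.k0] at a1
  rw [z3.k0] at a2
  rw [Finset.sum_pair (by simp), abs_le]
  unfold fx at *
  constructor <;> linarith

theorem Det.main (hD : Det σ v0 Zs) (hA : St_MODA) {M : ℕ}
    (hB : ∀ T : ℕ, 1 ≤ T → ∃ (P : Type) (m : Mdl σ P),
      (m.F.filter fun p => m.nd p = v0).card = (M + 3) ^ T ∧ m.Bad.card ≤ (T + 1) ^ 3)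
    {v : N} (l1 : Liouville (Zs v 0)) (l2 : 0 < Zs v 0) :
    ∃ (k l : ℕ) (G : SimpleGraph (Fin k)) (H : SimpleGraph (Fin l)) (ρ : ℝ),
      IsLeast {c : ℝ | 0 ≤ c ∧ ∀ W, IsGraphon W → homDensity G W ^ c ≤ homDensity H W} ρ ∧
      Transcendental ℚ ρ := by
  obtain ⟨D, C, h1⟩ := hD.df
  obtain ⟨C', h2⟩ := hD.pair v
  have ok := cs_ok σ
  have hm : ∀ f, Adm f → ∀ a : ℝ, a ≤ max (max C C') 0 →
      a * (cs σ).err f ≤ max (max C C') 0 * (cs σ).err f := fun f hf a ha =>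
    mul_le_mul_of_nonneg_right ha (ok.err_nonneg hf.1)
  have h3 := fun f hf => (h1 f hf).trans (hm f hf C (by simp))
  have hs : ∀ v : N, {(true, .inl (.inl v)), (false, .inl (.inl v))} ⊆ (cs σ).Mn := by
    intro v y hy
    simp only [Finset.mem_insert, Finset.mem_singleton] at hy
    rcases hy with rfl | rfl <;> simp [cs]
  obtain ⟨hD0, k, l, m, G, H, r1⟩ := Cs.isLeast ok _ (hs v) l2 h3
    (fun f hf => (h2 f hf).trans (hm f hf C' (by simp))) (models hA hB)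
  obtain ⟨-, k', l', m', G', H', r2⟩ := Cs.isLeast ok _ (hs v0) one_pos h3
    (fun f hf => by
      refine le_trans (le_of_eq ?_) (hm f hf 0 (le_max_right _ _))
      rw [Finset.sum_pair (by simp)]
      simp [fx]) (models hA hB)
  by_contra hn
  have a1 : IsAlgebraic ℚ (m + Zs v 0 / D) := by
    by_contra h
    exact hn ⟨k, l, G, H, _, r1, h⟩
  have a2 : IsAlgebraic ℚ (m' + 1 / D) := by
    by_contra h
    exact hn ⟨k', l', G', H', _, r2, h⟩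
  have a3 := (a1.sub (isAlgebraic_natCast m)).mul (a2.sub (isAlgebraic_natCast m')).inv
  have e : (m + Zs v 0 / D - m) * (m' + 1 / D - m')⁻¹ = Zs v 0 := by
    rw [add_sub_cancel_left, add_sub_cancel_left]
    field_simp
  rw [e] at a3
  exact l1.transcendental ((IsFractionRing.isAlgebraic_iff ℤ ℚ ℝ).2 a3)

end fin

theorem main_of (hZ : St_ZST) (hA : St_MODA) (hB : St_MODB) (hL : St_LIOU) :
    ∃ (k l : ℕ) (G : SimpleGraph (Fin k)) (H : SimpleGraph (Fin l)) (ρ : ℝ),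
      IsLeast {c : ℝ | 0 ≤ c ∧ ∀ W, IsGraphon W → homDensity G W ^ c ≤ homDensity H W} ρ ∧
      Transcendental ℚ ρ := by
  obtain ⟨Q, _, _, μ, V, hL⟩ := hL
  obtain ⟨M, hM⟩ : ∃ M, 48 * Fintype.card Q + 64 ≤ M := ⟨_, le_rfl⟩
  obtain ⟨l1, l2⟩ := hL M (by omega)
  exact (det_of (hZ Q μ M hM)).main hA (hB Q μ M) l1 l2

end Pool.Agent.Lib.MP_3b2820_co.H61
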