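import Pool.Agent.Lib.MP_3b2820_h61.Blue

/-!
A counter machine whose visits to one state are so sparse that the value is a Liouville number.
-/

set_option autoImplicit false

open Finset

noncomputable section

namespace Pool.Agent.Lib.MP_3b2820_co.H61

namespace LIOU

/-- Sparse series are Liouville numbers. -/
theorem liou (a : ℕ → ℕ) (B : ℕ) (hB : 64 ≤ B) (ha : ∀ t, a t ≤ 8 ^ t)
    (hg : ∀ n, ∃ t1 t2, 2 * n * (t1 + 1) ≤ t2 ∧ t1 < t2 ∧ (∀ t, t1 < t → t < t2 → a t = 0) ∧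
      0 < a t2) :
    Liouville (∑' t, (a t : ℝ) / (B : ℝ) ^ (t + 1)) ∧ 0 < ∑' t, (a t : ℝ) / (B : ℝ) ^ (t + 1) := by
  have hB' : (64 : ℝ) ≤ B := by exact_mod_cast hB
  have hB0 : (0 : ℝ) < B := by linarith
  set f : ℕ → ℝ := fun t => (a t : ℝ) / (B : ℝ) ^ (t + 1) with hf
  have f0 : ∀ t, 0 ≤ f t := fun t => by positivity
  have q0 : (0 : ℝ) ≤ 8 / B := by positivity
  have q1 : (8 : ℝ) / B ≤ 1 / 8 := by rw [div_le_div_iff₀ hB0 (by norm_num)]; linarith
  have fb : ∀ t, f t ≤ (8 / B : ℝ) ^ t / 64 := fun t => by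
    have h1 : (a t : ℝ) ≤ 8 ^ t := by exact_mod_cast ha t
    have h2 : (0 : ℝ) < (B : ℝ) ^ t := by positivity
    calc f t = (a t : ℝ) / (B : ℝ) ^ t / B := by rw [hf]; simp only []; rw [pow_succ, div_div]
      _ ≤ (8 : ℝ) ^ t / (B : ℝ) ^ t / 64 := by gcongr
      _ = _ := by rw [div_pow]
  have g8 : Summable fun t : ℕ => (1 / 8 : ℝ) ^ t :=
    summable_geometric_of_lt_one (by norm_num) (by norm_num)
  have fb' : ∀ k t, f (t + k) ≤ (8 / B : ℝ) ^ k / 64 * (1 / 8 : ℝ) ^ t := fun k t => by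
    refine (fb _).trans ?_
    have : (8 / B : ℝ) ^ t ≤ (1 / 8) ^ t := pow_le_pow_left₀ q0 q1 t
    rw [pow_add, mul_comm, mul_div_right_comm]
    gcongr
  have sm : ∀ k, Summable fun t => f (t + k) := fun k =>
    Summable.of_nonneg_of_le (fun t => f0 _) (fb' k) (g8.mul_left _)
  have sf : Summable f := by simpa using sm 0
  have fpos : ∀ t, 0 < a t → 0 < f t := fun t ht => by
    have : (0 : ℝ) < a t := by exact_mod_cast ht
    exact div_pos this (by positivity)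
  refine ⟨fun n => ?_, ?_⟩
  · obtain ⟨t1, t2, h1, h2, h3, h4⟩ := hg n
    have e1 : ∑' t, f t = ∑ t ∈ range t2, f t + ∑' t, f (t + t2) := (sf.sum_add_tsum_nat_add t2).symm
    have e2 : ∑ t ∈ range t2, f t = ∑ t ∈ range (t1 + 1), f t := by
      refine (sum_subset (range_mono h2) fun t ht ht' => ?_).symm
      rw [mem_range] at ht ht'
      rw [hf]; simp only []; rw [h3 t (by omega) ht]; simp
    have e3 : ∑ t ∈ range (t1 + 1), f t =
        ((∑ t ∈ range (t1 + 1), (a t : ℤ) * (B : ℤ) ^ (t1 - t) : ℤ) : ℝ) /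
          (((B : ℤ) ^ (t1 + 1) : ℤ) : ℝ) := by
      push_cast
      rw [sum_div]
      refine sum_congr rfl fun t ht => ?_
      rw [mem_range] at ht
      have : t1 + 1 = (t + 1) + (t1 - t) := by omega
      rw [this, pow_add (B : ℝ) (t + 1), mul_div_mul_right _ _ (by positivity)]
    have p0 : 0 < ∑' t, f (t + t2) :=
      (sm t2).tsum_pos (fun t => f0 _) 0 (by rw [zero_add]; exact fpos _ h4)
    have p1 : ∑' t, f (t + t2) ≤ (8 / B : ℝ) ^ t2 / 64 * (8 / 7) := by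
      refine ((sm t2).tsum_le_tsum (fb' t2) (g8.mul_left _)).trans ?_
      rw [tsum_mul_left, tsum_geometric_of_lt_one (by norm_num) (by norm_num)]
      norm_num
    have p2 : (8 / B : ℝ) ^ t2 ≤ 1 / ((B : ℝ) ^ (t1 + 1)) ^ n := by
      have q2 : (8 / B : ℝ) ^ 2 ≤ 1 / B := by
        rw [div_pow, div_le_div_iff₀ (by positivity) hB0]; nlinarith
      calc (8 / B : ℝ) ^ t2 ≤ (8 / B : ℝ) ^ (2 * n * (t1 + 1)) :=
            pow_le_pow_of_le_one q0 (by linarith) h1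
        _ = ((8 / B : ℝ) ^ 2) ^ ((t1 + 1) * n) := by rw [← pow_mul]; congr 1; ring
        _ ≤ (1 / B : ℝ) ^ ((t1 + 1) * n) := pow_le_pow_left₀ (by positivity) q2 _
        _ = _ := by rw [one_div_pow, pow_mul]
    have p3 : (0 : ℝ) < (8 / B : ℝ) ^ t2 := by positivity
    refine ⟨∑ t ∈ range (t1 + 1), (a t : ℤ) * (B : ℤ) ^ (t1 - t), (B : ℤ) ^ (t1 + 1), ?_, ?_, ?_⟩
    · exact one_lt_pow₀ (by exact_mod_cast (by omega : 1 < B)) (by omega)
    · rw [← e3, e1, e2]; linarith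
    · rw [← e3, e1, e2, add_sub_cancel_left, abs_of_pos p0]
      push_cast
      linarith
  · obtain ⟨_, t2, _, _, _, h4⟩ := hg 0
    exact sf.tsum_pos f0 t2 (fpos _ h4)

/-- The machine: from the input `v` on the second counter it computes `2 ^ v`. -/
def mc : Mc (Fin 9) where
  ins := ![true, false, false, true, true, false, true, false, true]
  dr := ![0, 1, 0, 2, 2, 2, 0, 0, 1]
  nx q b := if b then ![1, 2, 3, 4, 2, 6, 5, 8, 7] q else ![1, 7, 5, 4, 2, 1, 5, 0, 7] q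
  q0 := 0

abbrev Cf : Type := Fin 9 × (Fin 3 → ℕ)

theorem inc0 (x y z : ℕ) : ![x, y, z] + Pi.single (0 : Fin 3) 1 = ![x + 1, y, z] := by
  ext i; fin_cases i <;> simp
theorem inc1 (x y z : ℕ) : ![x, y, z] + Pi.single (1 : Fin 3) 1 = ![x, y + 1, z] := by
  ext i; fin_cases i <;> simp
theorem inc2 (x y z : ℕ) : ![x, y, z] + Pi.single (2 : Fin 3) 1 = ![x, y, z + 1] := by
  ext i; fin_cases i <;> simp
theorem dec0 (x y z : ℕ) : ![x, y, z] - Pi.single (0 : Fin 3) 1 = ![x - 1, y, z] := by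
  ext i; fin_cases i <;> simp
theorem dec1 (x y z : ℕ) : ![x, y, z] - Pi.single (1 : Fin 3) 1 = ![x, y - 1, z] := by
  ext i; fin_cases i <;> simp
theorem dec2 (x y z : ℕ) : ![x, y, z] - Pi.single (2 : Fin 3) 1 = ![x, y, z - 1] := by
  ext i; fin_cases i <;> simp

variable (x y z : ℕ)

theorem s0 : mc.step (0, ![x, y, z]) = (1, ![x + 1, y, z]) := Prod.ext rfl (inc0 x y z)
theorem s1 : mc.step (1, ![x, y + 1, z]) = (2, ![x, y, z]) := Prod.ext rfl (dec1 x (y + 1) z)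
theorem s1z : mc.step (1, ![x, 0, z]) = (7, ![x, 0, z]) := Prod.ext rfl (dec1 x 0 z)
theorem s2 : mc.step (2, ![x + 1, y, z]) = (3, ![x, y, z]) := Prod.ext rfl (dec0 (x + 1) y z)
theorem s2z : mc.step (2, ![0, y, z]) = (5, ![0, y, z]) := Prod.ext rfl (dec0 0 y z)
theorem s3 : mc.step (3, ![x, y, z]) = (4, ![x, y, z + 1]) := Prod.ext rfl (inc2 x y z)
theorem s4 : mc.step (4, ![x, y, z]) = (2, ![x, y, z + 1]) := Prod.ext rfl (inc2 x y z)
theorem s5 : mc.step (5, ![x, y, z + 1]) = (6, ![x, y, z]) := Prod.ext rfl (dec2 x y (z + 1))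
theorem s5z : mc.step (5, ![x, y, 0]) = (1, ![x, y, 0]) := Prod.ext rfl (dec2 x y 0)
theorem s6 : mc.step (6, ![x, y, z]) = (5, ![x + 1, y, z]) := Prod.ext rfl (inc0 x y z)
theorem s7 : mc.step (7, ![x + 1, y, z]) = (8, ![x, y, z]) := Prod.ext rfl (dec0 (x + 1) y z)
theorem s7z : mc.step (7, ![0, y, z]) = (0, ![0, y, z]) := Prod.ext rfl (dec0 0 y z)
theorem s8 : mc.step (8, ![x, y, z]) = (7, ![x, y + 1, z]) := Prod.ext rfl (inc1 x y z)

/-- `c'` is reached after `k` steps, avoiding the state `0` before. -/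
def Rch (c c' : Cf) (k : ℕ) : Prop := mc.step^[k] c = c' ∧ ∀ j < k, (mc.step^[j] c).1 ≠ 0

theorem Rch.trans {c c' c'' : Cf} {k k' : ℕ} (h : Rch c c' k) (h' : Rch c' c'' k') :
    Rch c c'' (k' + k) := by
  refine ⟨by rw [Function.iterate_add_apply, h.1, h'.1], fun j hj => ?_⟩
  by_cases hk : j < k
  · exact h.2 j hk
  · obtain ⟨i, rfl⟩ : ∃ i, j = i + k := ⟨j - k, by omega⟩
    rw [Function.iterate_add_apply, h.1]
    exact h'.2 i (by omega)

theorem one {c c' : Cf} (h : mc.step c = c') (h0 : c.1 ≠ 0) : Rch c c' 1 :=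
  ⟨h, fun j hj => by obtain rfl : j = 0 := by omega
                     exact h0⟩

theorem Rch.cast {c c' c'' : Cf} {k k' : ℕ} (h : Rch c c' k) (e : c' = c'') (e' : k = k') :
    Rch c c'' k' := e ▸ e' ▸ h

theorem rD (y : ℕ) : ∀ x z, Rch (2, ![x, y, z]) (5, ![0, y, z + 2 * x]) (3 * x + 1)
  | 0, z => one (s2z y z) (by dsimp only; decide)
  | x + 1, z => ((((one (s2 x y z) (by dsimp only; decide)).trans
      (one (s3 x y z) (by dsimp only; decide))).trans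
      (one (s4 x y (z + 1)) (by dsimp only; decide))).trans (rD y x (z + 1 + 1))).cast
      (by rw [show z + 1 + 1 + 2 * x = z + 2 * (x + 1) by ring]) (by ring)

theorem rR (y : ℕ) : ∀ z x, Rch (5, ![x, y, z]) (1, ![x + z, y, 0]) (2 * z + 1)
  | 0, x => one (s5z x y) (by dsimp only; decide)
  | z + 1, x => (((one (s5 x y z) (by dsimp only; decide)).trans
      (one (s6 x y z) (by dsimp only; decide))).trans (rR y z (x + 1))).cast
      (by rw [show x + 1 + z = x + (z + 1) by ring]) (by ring)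

theorem rM (z : ℕ) : ∀ x y, Rch (7, ![x, y, z]) (0, ![0, y + x, z]) (2 * x + 1)
  | 0, y => one (s7z y z) (by dsimp only; decide)
  | x + 1, y => (((one (s7 x y z) (by dsimp only; decide)).trans
      (one (s8 x y z) (by dsimp only; decide))).trans (rM z x (y + 1))).cast
      (by rw [show y + 1 + x = y + (x + 1) by ring]) (by ring)

theorem rL : ∀ y x, 1 ≤ x → ∃ k, Rch (1, ![x, y, 0]) (7, ![x * 2 ^ y, 0, 0]) k ∧
    k + 10 * x ≤ 10 * (x * 2 ^ y) + 1
  | 0, x, _ => ⟨1, (one (s1z x 0) (by dsimp only; decide)).cast (by simp) rfl, by simp; omega⟩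
  | y + 1, x, hx => by
    obtain ⟨k, h, hk⟩ := rL y (2 * x) (by omega)
    have e : 2 * x * 2 ^ y = x * 2 ^ (y + 1) := by ring
    rw [e] at h hk
    have h1 := (one (s1 x y 0) (by dsimp only; decide)).trans (rD y x 0)
    have h2 := h1.trans (rR y (0 + 2 * x) 0)
    rw [zero_add, zero_add] at h2
    exact ⟨_, h2.trans h, by omega⟩

theorem rV (v : ℕ) : ∃ k, Rch (1, ![1, v, 0]) (0, ![0, 2 ^ v, 0]) k ∧ k + 1 ≤ 12 * 2 ^ v := by
  obtain ⟨k, h, hk⟩ := rL v 1 le_rfl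
  rw [one_mul] at h hk
  have h2 := h.trans (rM 0 (2 ^ v) 0)
  rw [zero_add] at h2
  exact ⟨_, h2, by omega⟩

theorem run_succ (t : ℕ) : mc.run (t + 1) = mc.step (mc.run t) :=
  Function.iterate_succ_apply' _ _ _

theorem run_add (t k : ℕ) : mc.run (k + t) = mc.step^[k] (mc.run t) :=
  Function.iterate_add_apply _ _ _ _

theorem cnt_le : ∀ t d, (mc.run t).2 d ≤ t
  | 0, _ => le_rfl
  | t + 1, d => by
    have h := cnt_le t d
    have h1 : (Pi.single (mc.dr (mc.run t).1) 1 : Fin 3 → ℕ) d ≤ 1 := by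
      rw [Pi.single_apply]; split_ifs <;> omega
    rw [run_succ, Mc.step]
    dsimp only
    split_ifs
    · rw [Pi.add_apply]; omega
    · rw [Pi.sub_apply]; omega

theorem next {t v : ℕ} (h : mc.run t = (0, ![0, v, 0])) : ∃ t', t < t' ∧ t' ≤ t + 12 * 2 ^ v ∧
    mc.run t' = (0, ![0, 2 ^ v, 0]) ∧ ∀ s, t < s → s < t' → (mc.run s).1 ≠ 0 := by
  obtain ⟨k, hk, hk'⟩ := rV v
  have h1 : mc.run (t + 1) = (1, ![1, v, 0]) := by rw [run_succ, h, s0]
  refine ⟨k + (t + 1), by omega, by omega, by rw [run_add, h1, hk.1], fun s hs hs' => ?_⟩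
  obtain ⟨j, rfl⟩ : ∃ j, s = j + (t + 1) := ⟨s - (t + 1), by omega⟩
  rw [run_add, h1]
  exact hk.2 j (by omega)

theorem two_le : ∀ v : ℕ, 2 * v ≤ 2 ^ v
  | 0 => by norm_num
  | v + 1 => by have := Nat.lt_two_pow_self (n := v); rw [pow_succ]; omega

theorem visit : ∀ n, ∃ t v, mc.run t = (0, ![0, v, 0]) ∧ n ≤ v ∧ t ≤ 24 * v
  | 0 => ⟨0, 0, Prod.ext rfl (by ext i; fin_cases i <;> rfl), le_rfl, le_rfl⟩
  | n + 1 => by
    obtain ⟨t, v, h, hn, ht⟩ := visit n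
    obtain ⟨t', _, h2, h3, _⟩ := next h
    have := Nat.lt_two_pow_self (n := v)
    have := two_le v
    exact ⟨t', 2 ^ v, h3, by omega, by omega⟩

theorem sq_le (v : ℕ) : (v + 4) ^ 2 ≤ 2 ^ (v + 4) := by
  induction v with
  | zero => norm_num
  | succ v ih => rw [show v + 1 + 4 = v + 4 + 1 by ring, pow_succ 2]; nlinarith [Nat.zero_le v]

/-- The coefficients. -/
def cf (t : ℕ) : ℕ := if (mc.run t).1 = 0 then ∏ d, ((mc.run t).2 d + 1) else 0

theorem cf_le (t : ℕ) : cf t ≤ 8 ^ t := by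
  unfold cf
  split_ifs
  · calc ∏ d, ((mc.run t).2 d + 1) ≤ ∏ _d : Fin 3, 2 ^ t := prod_le_prod' fun d _ => by
          have := cnt_le t d
          have := Nat.lt_two_pow_self (n := t)
          omega
      _ = 8 ^ t := by rw [prod_const, card_univ, Fintype.card_fin, ← pow_mul, mul_comm, pow_mul]; rfl
  · exact Nat.zero_le _

theorem gap (n : ℕ) : ∃ t1 t2, 2 * n * (t1 + 1) ≤ t2 ∧ t1 < t2 ∧
    (∀ t, t1 < t → t < t2 → cf t = 0) ∧ 0 < cf t2 := by
  obtain ⟨t, v, h, hn, ht⟩ := visit (50 * n + 4)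
  obtain ⟨t', h1, _, h3, h4⟩ := next h
  refine ⟨t, t', ?_, h1, fun s hs hs' => if_neg (h4 s hs hs'), ?_⟩
  · have h5 : 2 ^ v ≤ t' := by have := cnt_le t' 1; rwa [h3] at this
    obtain ⟨w, rfl⟩ : ∃ w, v = w + 4 := ⟨v - 4, by omega⟩
    have h6 := sq_le w
    have h7 : 2 * n * (t + 1) ≤ 2 * n * (25 * (w + 4)) := Nat.mul_le_mul_left _ (by omega)
    have h8 : 50 * n * (w + 4) ≤ (w + 4) * (w + 4) := Nat.mul_le_mul_right _ (by omega)
    nlinarith
  · unfold cf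
    rw [if_pos (by rw [h3])]
    exact prod_pos fun _ _ => Nat.succ_pos _

theorem zs_eq (M : ℕ) : mc.Zs M (ni 0 0) 0 = ∑' t, (cf t : ℝ) / ((M + 3 : ℕ) : ℝ) ^ (t + 1) := by
  refine tsum_congr fun t => ?_
  by_cases h : (mc.run t).1 = 0 <;> simp [Mc.act, Mc.sz, Mc.lag, cf, box, h]

end LIOU

theorem stLIOU : St_LIOU :=
  ⟨Fin 9, inferInstance, inferInstance, LIOU.mc, 0, fun M hM => by
    rw [LIOU.zs_eq]
    exact LIOU.liou LIOU.cf (M + 3) (by omega) LIOU.cf_le LIOU.gap⟩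

end Pool.Agent.Lib.MP_3b2820_co.H61
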