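import Pool.Agent.Lib.MP_3b2820_h61.Blue

/-!
The linear model of a combinatorial model.
-/

set_option autoImplicit false
set_option linter.unusedSectionVars false
set_option linter.unusedVariables false

open Finset

noncomputable section

namespace Pool.Agent.Lib.MP_3b2820_co.H61

namespace MODA

/-- Solutions of a family of equations. -/
def sl {Ω κ : Type} [AddCommGroup Ω] (Q : κ → Prop) (φ ψ : κ → (Ω →+ ZMod 2)) : AddSubgroup Ω :=
  ⨅ i, ⨅ _ : Q i, (φ i - ψ i).ker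

lemma mem_sl {Ω κ : Type} [AddCommGroup Ω] (Q : κ → Prop) (φ ψ : κ → (Ω →+ ZMod 2)) (ω : Ω) :
    ω ∈ sl Q φ ψ ↔ ∀ i, Q i → φ i ω = ψ i ω := by
  simp [sl, AddSubgroup.mem_iInf, sub_eq_zero]

lemma cost_set {Ω κ : Type} [AddCommGroup Ω] [Finite Ω] (s : Finset κ)
    (φ ψ : κ → (Ω →+ ZMod 2)) : Cost (fun ω => ∀ i ∈ s, φ i ω = ψ i ω) (s.card * Real.log 2) :=
  (cost_forall s (c := fun _ => Real.log 2) fun i _ =>
    ⟨(φ i - ψ i).ker, fun ω h => by simpa [sub_eq_zero] using h, lgi_ker _⟩).imp (fun _ h => h)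
    (by simp)

variable {D N R P : Type} [DecidableEq D] [DecidableEq N] [DecidableEq R] [Fintype D] [Fintype N]
  [Fintype R] {σ : Sy D N R} (m : Mdl σ P)

/-- The group of the model. -/
abbrev Om : Type := Bool × m.F → ZMod 2

open Classical in
/-- Coordinates, extended by zero. -/
def co (e : Bool) (p : P) : Om m →+ ZMod 2 :=
  if h : p ∈ m.F then Pi.evalAddMonoidHom (fun _ => ZMod 2) (e, ⟨p, h⟩) else 0

open Classical in
/-- The coordinate of a chosen point. -/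
def ch (e : Bool) (Q : P → Prop) : Om m →+ ZMod 2 := if h : ∃ p, Q p then co m e h.choose else 0

/-- The subgroups of the model. -/
def LL : Bv D N R → AddSubgroup (Om m)
  | (e, .inl (.inl v)) => sl (fun p => m.nd p = v) (co m e) 0
  | (e, .inr x) => sl (fun p => m.nd p = x.2) (fun p => co m (!e) (m.sh x.1 p)) (co m e) ⊓
      sl (fun p => m.nd p = x.2 ∧ m.bot x.1 p) (co m (!e)) 0
  | (e, .inl (.inr r)) => sl (fun x : P × P => m.Mt r x.1 x.2) (fun x => co m e x.1)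
        (fun x => co m e x.2) ⊓ sl (fun p => m.nd p ∈ σ.A r ∧ ∀ p', ¬m.Mt r p p') (co m e) 0 ⊓
      sl (fun p' => m.nd p' ∈ σ.B r ∧ ∀ p, ¬m.Mt r p p') (co m e) 0

/-- The dimension at a node. -/
def nz (v : N) : ℝ := (m.F.filter fun p => m.nd p = v).card * Real.log 2

/-- Main variables vanish. -/
def PX (e : Bool) (v : N) (ω : Om m) : Prop := ∀ p, m.nd p = v → co m e p ω = 0

/-- Step syndromes vanish. -/
def PS (e : Bool) (d : D) (v : N) (ω : Om m) : Prop :=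
  (∀ p, m.nd p = v → co m (!e) (m.sh d p) ω = co m e p ω) ∧
    ∀ p, m.nd p = v → m.bot d p → co m (!e) p ω = 0

/-- Relation syndromes vanish. -/
def PR (e : Bool) (r : R) (ω : Om m) : Prop :=
  (∀ p p', m.Mt r p p' → co m e p ω = co m e p' ω) ∧
    (∀ p, m.nd p ∈ σ.A r → (∀ p', ¬m.Mt r p p') → co m e p ω = 0) ∧
    ∀ p', m.nd p' ∈ σ.B r → (∀ p, ¬m.Mt r p p') → co m e p' ω = 0

variable {m} {e : Bool} {d : D} {v : N} {r : R} {ω : Om m}

lemma mem_x (b : Bool) : ω ∈ LL m (eB e d (.inl (b, .inl v))) ↔ PX m (xor e b) v ω := by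
  simp [LL, eB, mem_sl, PX]

lemma mem_s : ω ∈ LL m (eB e d (.inr v)) ↔ PS m e d v ω := by
  simp [LL, eB, mem_sl, PS]

lemma mem_r (b : Bool) : ω ∈ LL m (eB e d (.inl (b, .inr r))) ↔ PR m (xor e b) r ω := by
  simp [LL, eB, mem_sl, PR, and_assoc]

lemma co_out {p : P} (h : p ∉ m.F) : co m e p ω = 0 := by simp [co, h]

lemma ch_none {Q : P → Prop} (h : ∀ p, ¬Q p) : ch m e Q ω = 0 := by
  rw [ch, dif_neg (not_exists.2 h)]; rfl

lemma ch_some {Q : P → Prop} {p : P} (h : Q p) (hu : ∀ q, Q q → q = p) :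
    ch m e Q ω = co m e p ω := by
  rw [ch, dif_pos ⟨p, h⟩, hu _ (Exists.choose_spec (⟨p, h⟩ : ∃ p, Q p))]

lemma x_of_s (h : PX m e v ω) (hs : PS m e d v ω) : PX m (!e) v ω := fun p hp => by
  obtain hb | ⟨q, rfl⟩ := m.cas d p
  · exact hs.2 p hp hb
  · rw [m.nd_sh] at hp
    rw [hs.1 q hp, h q hp]

lemma s_of_x (h : PX m e v ω) (h' : PX m (!e) v ω) : PS m e d v ω :=
  ⟨fun p hp => by rw [h p hp, h' _ ((m.nd_sh d p).trans hp)], fun p hp _ => h' p hp⟩

lemma r_of_x (hA : ∀ v ∈ σ.A r, PX m e v ω) (hB : ∀ v ∈ σ.B r, PX m e v ω) : PR m e r ω :=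
  ⟨fun p p' h => by rw [hA _ (m.m0 r p p' h).2.2.1 p rfl, hB _ (m.m0 r p p' h).2.2.2 p' rfl],
    fun p hp _ => hA _ hp p rfl, fun p hp _ => hB _ hp p rfl⟩

lemma a_of_b (hB : ∀ v ∈ σ.B r, PX m e v ω) (h : PR m e r ω) (hv : v ∈ σ.A r) : PX m e v ω := by
  rintro p rfl
  by_cases h1 : ∃ p', m.Mt r p p'
  · obtain ⟨p', h1⟩ := h1
    rw [h.1 p p' h1, hB _ (m.m0 r p p' h1).2.2.2 p' rfl]
  · exact h.2.1 p hv (not_exists.1 h1)

lemma b_of_a (hA : ∀ v ∈ σ.A r, PX m e v ω) (h : PR m e r ω) (hv : v ∈ σ.B r) : PX m e v ω := by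
  rintro p' rfl
  by_cases h1 : ∃ p, m.Mt r p p'
  · obtain ⟨p, h1⟩ := h1
    rw [← h.1 p p' h1, hA _ (m.m0 r p p' h1).2.2.1 p rfl]
  · exact h.2.2 p' hv (not_exists.1 h1)

lemma s_comm (hp : σ.pr r d = true) (hA : ∀ v ∈ σ.A r, PS m e d v ω) (h : PR m e r ω)
    (h' : PR m (!e) r ω) (hv : v ∈ σ.B r) : PS m e d v ω := by
  constructor
  · rintro p' rfl
    by_cases h1 : ∃ p1, m.Mt r p1 (m.sh d p')
    · obtain ⟨p1, h1⟩ := h1
      obtain ⟨p, rfl, h2⟩ := m.db r d p1 p' hp h1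
      rw [← h'.1 _ _ h1, (hA _ (m.m0 r p p' h2).2.2.1).1 p rfl, h.1 p p' h2]
    · rw [h'.2.2 _ (by rwa [m.nd_sh]) (not_exists.1 h1)]
      by_cases h2 : ∃ p, m.Mt r p p'
      · obtain ⟨p, h2⟩ := h2
        have h3 := (m.m0 r p p' h2).2.2.1
        rw [← h.1 p p' h2, ← (hA _ h3).1 p rfl, h'.2.1 _ (by rwa [m.nd_sh]) fun p1 h4 => ?_]
        obtain ⟨q, rfl, h5⟩ := m.da r d p p1 hp h4
        exact h1 ⟨_, m.ur r p _ _ h5 h2 ▸ h4⟩
      · exact (h.2.2 p' hv (not_exists.1 h2)).symm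
  · rintro p' rfl hb
    by_cases h1 : ∃ p1, m.Mt r p1 p'
    · obtain ⟨p1, h1⟩ := h1
      rw [← h'.1 _ _ h1]
      obtain h2 | ⟨p, rfl⟩ := m.cas d p1
      · exact (hA _ (m.m0 r _ _ h1).2.2.1).2 p1 rfl h2
      · obtain ⟨q, rfl, -⟩ := m.da r d p p' hp h1
        exact absurd hb (m.nbot d q)
    · exact h'.2.2 p' hv (not_exists.1 h1)

lemma s_of_r (hv : v ∈ Eu σ r) (h : PR m e r ω) (h1 : ∀ p ∈ m.F.filter fun p => m.nd p = v,
    co m (!e) p ω = ch m e (fun q => p = m.sh (σ.δ r) q) ω) : PS m e (σ.δ r) v ω := by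
  obtain ⟨h2, h3⟩ := Finset.mem_filter.1 hv
  constructor
  · rintro p rfl
    by_cases h4 : m.sh (σ.δ r) p ∈ m.F
    · rw [h1 _ (Finset.mem_filter.2 ⟨h4, m.nd_sh _ p⟩),
        ch_some (Q := fun q => m.sh (σ.δ r) p = m.sh (σ.δ r) q) rfl fun q hq =>
          (m.sh_inj _ hq).symm]
    · rw [co_out h4]
      rcases Finset.mem_union.1 h2 with h5 | h5
      · exact (h.2.1 p h5 fun p' h6 => h4 ((m.m2 r _ _ h6).1 h3)).symm
      · exact (h.2.2 p h5 fun p' h6 => h4 ((m.m2 r _ _ h6).2 h3)).symm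
  · intro p hp hb
    by_cases h4 : p ∈ m.F
    · rw [h1 _ (Finset.mem_filter.2 ⟨h4, hp⟩), ch_none fun q hq => m.nbot _ q (hq ▸ hb)]
    · exact co_out h4

lemma cost_r (e : Bool) (r : R) : Cost (fun ω => (∀ p, p ∈ m.F → m.nd p ∈ σ.A r →
    σ.up r (m.nd p) = true → m.sh (σ.δ r) p ∉ m.F → co m e p ω = 0) → PR m e r ω)
      (∑ v ∈ σ.B r, nz m v + m.Bad.card * Real.log 2) := by
  refine ((cost_forall (σ.B r) fun v _ => cost_set (m.F.filter fun p => m.nd p = v) (co m e)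
    fun p' => ch m e fun p => m.Mt r p p').and (cost_set m.Bad (co m e) 0)).imp
    (fun ω ⟨h1, h2⟩ h3 => ⟨fun p p' h => ?_, fun p hp h => ?_, fun p' hp h => ?_⟩) le_rfl
  · obtain ⟨-, h4, -, h5⟩ := m.m0 r p p' h
    rw [h1 _ h5 p' (Finset.mem_filter.2 ⟨h4, rfl⟩),
      ch_some (Q := fun p => m.Mt r p p') h fun q hq => m.ul r _ _ _ hq h]
  · by_cases h4 : p ∈ m.F
    · by_cases h5 : p ∈ m.Bad
      · exact h2 p h5
      · by_cases h6 : σ.up r (m.nd p) = true → m.sh (σ.δ r) p ∈ m.F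
        · obtain ⟨p', h7⟩ := m.m4 r p h4 hp h6 h5
          exact absurd h7 (h p')
        · exact h3 p h4 hp (Classical.not_imp.1 h6).1 (Classical.not_imp.1 h6).2
    · exact co_out h4
  · by_cases h4 : p' ∈ m.F
    · rw [h1 _ hp p' (Finset.mem_filter.2 ⟨h4, rfl⟩), ch_none h]
    · exact co_out h4

lemma cnd_loc {Q : Om m → Prop} {c : ℝ} (h : Cost Q c) {T U : Finset (Lv N R)}
    (hS : ∀ ω, (∀ y ∈ U, ω ∈ LL m (eB e d y)) → Q ω → ∀ y ∈ T, ω ∈ LL m (eB e d y)) :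
    cnd (fl (rk (LL m)) e d) T U ≤ c := by
  rw [cnd_fl]
  exact h.cnd_le fun ω h1 h2 => Finset.forall_mem_image.2
    (hS ω (Finset.forall_mem_image.1 h1) h2)

lemma all_x {b : Bool} {E : Finset N} :
    (∀ y ∈ lxs R b E, ω ∈ LL m (eB e d y)) ↔ ∀ v ∈ E, PX m (xor e b) v ω := by
  simp [lxs, mem_x]

lemma all_s {E : Finset N} :
    (∀ y ∈ lss R E, ω ∈ LL m (eB e d y)) ↔ ∀ v ∈ E, PS m e d v ω := by
  simp [lss, mem_s]

lemma fd_le (e : Bool) (d : D) (j : Jf N R) :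
    cnd (fl (rk (LL m)) e d) (tf σ d j) (uf σ d j) ≤ 0 := by
  refine cnd_loc cost_true fun ω h _ => ?_
  obtain ⟨_ | _, v⟩ | ⟨b, _ | _ | _, r⟩ | r := j <;> simp only [tf, uf] at h ⊢
  · simp only [Finset.forall_mem_insert, Finset.mem_singleton, forall_eq, mem_x, mem_s,
      Bool.xor_false, Bool.xor_true] at h ⊢
    exact x_of_s h.1 h.2
  · simp only [Finset.forall_mem_insert, Finset.mem_singleton, forall_eq, mem_x, mem_s,
      Bool.xor_false, Bool.xor_true] at h ⊢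
    exact s_of_x h.1 h.2
  · simp only [all_x, Finset.mem_singleton, forall_eq, mem_r, Finset.forall_mem_union] at h ⊢
    exact r_of_x h.1 h.2
  · simp only [all_x, Finset.mem_singleton, forall_eq, mem_r, Finset.forall_mem_union] at h ⊢
    exact fun v hv => a_of_b h.1 h.2 hv
  · simp only [all_x, Finset.mem_singleton, forall_eq, mem_r, Finset.forall_mem_union] at h ⊢
    exact fun v hv => b_of_a h.1 h.2 hv
  · split_ifs at h ⊢ with hp
    · simp only [all_s, Finset.forall_mem_union, Finset.forall_mem_insert, Finset.mem_singleton,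
        forall_eq, mem_r, Bool.xor_false, Bool.xor_true] at h ⊢
      exact fun v hv => s_comm hp h.1 h.2.1 h.2.2 hv
    · simp

lemma sep (h : ∀ y ∈ (cs σ).Mn, ω ∈ LL m y) : ω = 0 := by
  funext ⟨e, p, hp⟩
  have := h (e, .inl (.inl (m.nd p))) (by simp [cs])
  simpa [co, hp] using (mem_sl _ _ _ _).1 this p rfl

lemma sum_Mn (φ : Bv D N R → ℝ) :
    ∑ y ∈ (cs σ).Mn, φ y = ∑ x : Bool × N, φ (x.1, .inl (.inl x.2)) := by
  rw [cs, Finset.sum_product, Fintype.sum_prod_type]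
  exact Finset.sum_congr rfl fun e _ => Finset.sum_image fun a _ b _ h => by simpa using h

lemma rk_Mn : rk (LL m) (cs σ).Mn = ∑ x : Bool × N, nz m x.2 := by
  have : KS (LL m) (cs σ).Mn = ⊥ := eq_bot_iff.2 fun ω hω => sep (mem_KS.1 hω)
  have h := Finset.card_eq_sum_card_fiberwise (s := m.F) (t := Finset.univ) (f := m.nd)
    fun _ _ => Finset.mem_univ _
  simp only [rk, lgi, this, AddSubgroup.card_bot, Nat.cast_one, Real.log_one, sub_zero]
  rw [Nat.card_fun, Nat.card_zmod, Nat.card_eq_fintype_card, Fintype.card_prod, Fintype.card_coe, h]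
  simp [nz, Fintype.sum_prod_type, ← Finset.sum_mul, mul_assoc]

lemma fx_eq (e : Bool) (v : N) : fx (rk (LL m)) e v = nz m v := by
  have h1 : ∀ x ∈ (Finset.univ : Finset (Bool × N)), fx (rk (LL m)) x.1 x.2 ≤ nz m x.2 :=
    fun x _ => (cost_set _ (co m x.1) 0).rk_le fun ω h y hy => by
      rw [Finset.mem_singleton.1 hy]
      refine (mem_sl _ _ _ _).2 fun p hp => ?_
      by_cases h2 : p ∈ m.F
      · exact h p (Finset.mem_filter.2 ⟨h2, hp⟩)
      · exact co_out h2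
  have h2 := (adm_rk (LL m)).1.le_sum (cs σ).Mn
  rw [rk_Mn, sum_Mn] at h2
  exact (Finset.sum_eq_sum_iff_of_le h1).1 (le_antisymm (Finset.sum_le_sum h1) h2) (e, v)
    (Finset.mem_univ _)

lemma fl_x (b : Bool) : fl (rk (LL m)) e d {lx R b v} = nz m v := by
  rw [fl, Finset.image_singleton]
  exact fx_eq _ v

lemma exc_le (e : Bool) (d : D) (j : Jc N R) : cnd (fl (rk (LL m)) e d) (tc σ d j) (uc σ d j) ≤
    ∑ y ∈ nm σ d j, fl (rk (LL m)) e d {y} + m.Bad.card * Real.log 2 := by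
  have h0 : 0 ≤ (m.Bad.card : ℝ) * Real.log 2 := by positivity
  obtain ⟨r, v⟩ | r := j <;> simp only [tc, uc, nm] <;> split_ifs with h
  · obtain ⟨rfl, h⟩ := h
    rw [Finset.sum_singleton, fl_x]
    refine le_trans (cnd_loc (cost_set (m.F.filter fun p => m.nd p = v) (co m (!e))
      fun p => ch m e fun q => p = m.sh (σ.δ r) q) fun ω h1 h2 => ?_) (le_add_of_nonneg_right h0)
    simp only [Finset.mem_singleton, forall_eq, mem_r, mem_s, Bool.xor_false] at h1 ⊢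
    exact s_of_r h h1 h2
  · simpa [cnd_empty_left] using h0
  · subst h
    simp only [sum_lxs, fl_x]
    refine cnd_loc (cost_r e r) fun ω h1 h2 => ?_
    simp only [Finset.mem_singleton, forall_eq, mem_r, all_s, Bool.xor_false] at h1 ⊢
    refine h2 fun p _ h3 h4 h5 => ?_
    rw [← (h1 _ (Finset.mem_filter.2 ⟨h3, h4⟩)).1 p rfl, co_out h5]
  · simp only [sum_lxs, fl_x]
    refine cnd_loc (cost_r (!e) r) fun ω h1 h2 => ?_
    simp only [Finset.mem_singleton, forall_eq, mem_r, all_s, Bool.xor_false, Bool.xor_true,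
      Finset.forall_mem_union] at h1 ⊢
    refine h2 fun p h6 h3 h4 h5 => ?_
    obtain hb | ⟨q, rfl⟩ := m.cas d p
    · exact (h1.1 _ h3).2 p rfl hb
    · rw [m.nd_sh] at h3 h4
      rw [(h1.1 _ h3).1 q rfl]
      exact h1.2.2.1 q h3 fun p' h7 => h5 (m.bx d _ q h h6 ((m.m2 r _ _ h7).1 h4))
  · simpa [cnd_empty_left] using h0

end MODA

open MODA in
theorem stMODA : St_MODA := by
  intro D N R P _ _ _ _ _ _ σ m
  refine ⟨Om m, inferInstance, inferInstance, LL m, fun ω h => sep fun y _ => h y, fx_eq, ?_⟩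
  have h1 : (cs σ).err0 (rk (LL m)) ≤ 0 := by
    have h2 : (cs σ).fd (rk (LL m)) ≤ 0 := Finset.sum_nonpos fun j _ =>
      (cnd_fl j.1 _ _).symm.trans_le (fd_le j.1 j.2.1 j.2.2)
    have h3 : (cs σ).ind (rk (LL m)) = 0 := by
      rw [Cs.ind, rk_Mn, sum_Mn, sub_eq_zero]
      exact Finset.sum_congr rfl fun x _ => fx_eq x.1 x.2
    rw [Cs.err0, h3, zero_add]
    exact h2
  have h4 := Finset.sum_le_card_nsmul Finset.univ
    (fun j => (cs σ).exc (rk (LL m)) j + (cs σ).C0 * (cs σ).err0 (rk (LL m)))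
    (m.Bad.card * Real.log 2) fun j _ => by
      have := exc_le (m := m) j.1 j.2.1 j.2.2
      have := mul_nonpos_of_nonneg_of_nonpos (Nat.cast_nonneg (α := ℝ) (cs σ).C0) h1
      rw [exc_eq]
      linarith
  rw [nsmul_eq_mul, Finset.card_univ] at h4
  unfold Cs.err
  linarith

end Pool.Agent.Lib.MP_3b2820_co.H61
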