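import Pool.Agent.Lib.MP_3b2820_h61.Blue

/-!
The combinatorial model of a truncated run of a counter machine.
-/

set_option autoImplicit false
set_option linter.unusedSectionVars false
set_option linter.unusedVariables false

open Finset

noncomputable section

namespace Pool.Agent.Lib.MP_3b2820_co.H61

namespace MODB

/-- Unit vectors. -/
abbrev e (d : Fin 3) : Fin 3 → ℕ := Pi.single d 1

lemma e_ap (d j : Fin 3) : e d j = if j = d then 1 else 0 := by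
  simp [e, Pi.single_apply]

lemma v1 {u s : Fin 3 → ℕ} {d : Fin 3} : u + e d ≤ s + e d ↔ u ≤ s := by
  constructor <;> intro h j <;> have := h j <;> simp only [Pi.add_apply] at this ⊢ <;> omega

lemma v2 {u s : Fin 3 → ℕ} {d : Fin 3} : u + e d ≤ s ↔ s d ≠ 0 ∧ u ≤ s - e d := by
  constructor
  · intro h
    refine ⟨?_, fun j => ?_⟩
    · have := h d
      simp only [Pi.add_apply, e_ap, if_true] at this
      omega
    · have := h j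
      simp only [Pi.add_apply, Pi.sub_apply] at this ⊢
      omega
  · rintro ⟨h0, h⟩ j
    have := h j
    simp only [Pi.add_apply, Pi.sub_apply, e_ap] at this ⊢
    split_ifs at this ⊢ with hj
    · subst hj; omega
    · omega

lemma v3 {u s : Fin 3 → ℕ} {d : Fin 3} (h0 : u d = 0) : u ≤ s + e d ↔ u ≤ s := by
  constructor <;> intro h j <;> have := h j <;> simp only [Pi.add_apply, e_ap] at this ⊢
  · split_ifs at this with hj
    · subst hj; omega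
    · omega
  · omega

lemma v4 (u : Fin 3 → ℕ) (d : Fin 3) : u d = 0 ∨ ∃ w, u = w + e d := by
  by_cases h : u d = 0
  · exact Or.inl h
  · refine Or.inr ⟨u - e d, funext fun j => ?_⟩
    simp only [Pi.add_apply, Pi.sub_apply, e_ap]
    split_ifs with hj
    · subst hj; omega
    · omega

lemma v5 {u s : Fin 3 → ℕ} {d : Fin 3} (h : u + e d ≤ s) : u ≤ s := fun j => by
  have := h j
  simp only [Pi.add_apply] at this
  show u j ≤ s j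
  omega

lemma v6 {u s : Fin 3 → ℕ} {d d' : Fin 3} (hd : d ≠ d') (h : u + e d ≤ s) (h' : u + e d' ≤ s) :
    u + e d + e d' ≤ s := fun j => by
  have h1 := h j
  have h2 := h' j
  simp only [Pi.add_apply, e_ap] at h1 h2 ⊢
  split_ifs at h1 h2 ⊢ with a b
  · exact absurd (a.symm.trans b) hd
  all_goals omega

lemma v7 {u w : Fin 3 → ℕ} {d d' : Fin 3} (hd : d' ≠ d) (h : u + e d' = w + e d) :
    ∃ z, w = z + e d' ∧ u = z + e d := by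
  refine ⟨w - e d', funext fun j => ?_, funext fun j => ?_⟩ <;> have := congrFun h j <;>
    simp only [Pi.add_apply, Pi.sub_apply, e_ap] at this ⊢ <;> split_ifs at this ⊢ with a b
  all_goals first | omega | exact absurd (a.symm.trans b) hd | exact absurd (b.symm.trans a) hd

lemma v8 {u : Fin 3 → ℕ} {d d' : Fin 3} (hd : d' ≠ d) : (u + e d') d = u d := by
  simp [e_ap, hd.symm]

lemma v9 {u : Fin 3 → ℕ} {d : Fin 3} : (u + e d) d ≠ 0 := by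
  simp

lemma v10 {u s : Fin 3 → ℕ} {d d' : Fin 3} (h : u + e d' + e d ≤ s) : u + e d ≤ s := by
  rw [add_right_comm] at h
  exact v5 h

lemma v11 {u s : Fin 3 → ℕ} {d : Fin 3} (h : s d = 0) : u ≤ s - e d ↔ u ≤ s := by
  constructor <;> intro h1 j <;> have := h1 j <;> simp only [Pi.sub_apply, e_ap] at this ⊢
  · omega
  · split_ifs with hj
    · subst hj; omega
    · omega

lemma v12 {u s : Fin 3 → ℕ} {d : Fin 3} (h0 : u d = 0) (h : u ≤ s) (hs : s d ≠ 0) :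
    u + e d ≤ s := fun j => by
  have := h j
  simp only [Pi.add_apply, e_ap] at this ⊢
  split_ifs with hj
  · subst hj; omega
  · omega

/-- Points. -/
@[ext] structure Pt (Q : Type) (M : ℕ) where
  /-- node -/
  v : Nd Q M
  /-- time -/
  t : ℕ
  /-- index -/
  x : ℕ
  /-- position -/
  u : Fin 3 → ℕ

variable {Q : Type} [DecidableEq Q] [Fintype Q] (μ : Mc Q) (M T : ℕ)

lemma f1 : (1 : Fin (M + 3)) ≠ 0 := by simp
lemma f2 : (2 : Fin (M + 3)) ≠ 0 := Fin.ne_of_val_ne (by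
    simp [Nat.mod_eq_of_lt (show 2 < M + 3 by omega)])
lemma f3 : (1 : Fin (M + 3)) ≠ 2 := Fin.ne_of_val_ne (by
    simp [Nat.mod_eq_of_lt (show 2 < M + 3 by omega)])

/-- The shift. -/
def sh (d : Fin 3) (p : Pt Q M) : Pt Q M := ⟨p.v, p.t, p.x, p.u + e d⟩

/-- The points of the model. -/
def InF (p : Pt Q M) : Prop := μ.act M p.v p.t = true ∧ p.t < T ∧
  p.x < (M + 3) ^ (T - p.t - Mc.lag M p.v) ∧ p.u ≤ μ.sz M p.v p.t

lemma finF : {p | InF μ M T p}.Finite := by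
  refine Set.Finite.subset (Set.finite_iUnion (ι := Nd Q M × Fin T) fun vt =>
    ((Set.finite_Iio ((M + 3) ^ (T - vt.2 - Mc.lag M vt.1))).prod
      (Set.finite_Iic (μ.sz M vt.1 vt.2))).image
        fun xu => (⟨vt.1, vt.2, xu.1, xu.2⟩ : Pt Q M)) ?_
  rintro ⟨v, t, x, u⟩ ⟨h1, h2, h3, h4⟩
  exact Set.mem_iUnion.2 ⟨(v, ⟨t, h2⟩), (x, u), ⟨h3, h4⟩, rfl⟩

lemma InF.of_sh {d : Fin 3} {p : Pt Q M} (h : InF μ M T (sh M d p)) : InF μ M T p :=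
  ⟨h.1, h.2.1, h.2.2.1, v5 h.2.2.2⟩

lemma InF.of_sh2 {d d' : Fin 3} {p : Pt Q M} (h : InF μ M T (sh M d (sh M d' p))) :
    InF μ M T (sh M d p) := ⟨h.1, h.2.1, h.2.2.1, v10 h.2.2.2⟩

lemma run_succ (t : ℕ) : μ.run (t + 1) = μ.step (μ.run t) := by
  simp only [Mc.run, Function.iterate_succ_apply']

lemma run_le (t : ℕ) (d : Fin 3) : (μ.run t).2 d ≤ t := by
  induction t with
  | zero => simp [Mc.run]
  | succ t ih =>
    rw [run_succ]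
    simp only [Mc.step]
    split_ifs
    · simp only [Pi.add_apply, e_ap]
      split_ifs <;> omega
    · simp only [Pi.sub_apply]
      omega

/-- The exceptional points. -/
def Bad : Finset (Pt Q M) := by
  classical
  exact (Fintype.piFinset fun _ : Fin 3 => range (T + 1)).image fun u =>
    ⟨no M (μ.run (T - 1)).1 (μ.br (μ.run (T - 1))), T - 1, 0, u⟩

lemma card_Bad : (Bad μ M T).card ≤ (T + 1) ^ 3 := by
  classical
  unfold Bad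
  refine card_image_le.trans ?_
  simp [Fintype.card_piFinset]

lemma mem_Bad {q : Q} {b : Bool} {t x : ℕ} {u : Fin 3 → ℕ} (h : InF μ M T ⟨no M q b, t, x, u⟩)
    (ht : T ≤ t + 1) : (⟨no M q b, t, x, u⟩ : Pt Q M) ∈ Bad μ M T := by
  classical
  obtain ⟨h1, h2, h3, h4⟩ := h
  simp only [Mc.act, decide_eq_true_eq, Mc.lag, Mc.sz] at h1 h2 h3 h4
  have e1 : t = T - 1 := by omega
  have e2 : T - t - 1 = 0 := by omega
  rw [e2, pow_zero] at h3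
  unfold Bad
  refine mem_image.2 ⟨u, Fintype.mem_piFinset.2 fun d => mem_range.2 ?_, ?_⟩
  · have := run_le μ (t + 1) d
    have : u d ≤ (μ.run (t + 1)).2 d := h4 d
    omega
  · rw [← e1, h1.1, h1.2]
    congr 1
    omega

/-- The shape of the matching of the second relation of an instruction. -/
def C2 (q : Q) (v : Nd Q M) (u : Fin 3 → ℕ) (v' : Nd Q M) (u' : Fin 3 → ℕ) : Prop :=
  if μ.ins q then
    (v = no M q true ∧ v' = ni q 0 ∧ u = u' + e (μ.dr q)) ∨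
    (v = no M q true ∧ v' = ni q 2 ∧ u = u' ∧ u (μ.dr q) = 0) ∨
    (v = ni q 1 ∧ v' = ni q 2 ∧ u' = u + e (μ.dr q))
  else
    (v = ni q 1 ∧ v' = ni q 0 ∧ u' = u + e (μ.dr q)) ∨
    (v = ni q 2 ∧ v' = ni q 0 ∧ u = u' ∧ u (μ.dr q) = 0) ∨
    (v = ni q 2 ∧ v' = no M q true ∧ u = u' + e (μ.dr q)) ∨
    (v = no M q false ∧ v' = ni q 0 ∧ u = u' ∧ u (μ.dr q) = 0)

/-- The shape of the matchings. -/
def C : Rl Q M → Pt Q M → Pt Q M → Prop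
  | .inl _, _, _ => False
  | .inr (.inl (q, j)), p, p' => p.t = p'.t ∧ p.x = p'.x ∧
      ((j = 0 ∧ p.u = p'.u) ∨ (j = 1 ∧ C2 μ M q p.v p.u p'.v p'.u))
  | .inr (.inr (.inl q)), p, p' => p.u = p'.u ∧ p.t = p'.t + Mc.lag M p'.v ∧
      ∃ k : Fin (M + 3), p.v = ni q k ∧ p'.x = p.x * (M + 3) + k
  | .inr (.inr (.inr _)), p, p' => p.t = p'.t ∧ p.x = p'.x ∧ p.u = p'.u

/-- The domain of a relation. -/
def Dm (r : Rl Q M) (p : Pt Q M) : Prop :=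
  InF μ M T p ∧ (μ.up0 M r p.v = true → InF μ M T (sh M (μ.δ0 M r) p))

lemma Dm.of_sh {r : Rl Q M} {d : Fin 3} {p : Pt Q M} (h : Dm μ M T r (sh M d p)) :
    Dm μ M T r p := ⟨h.1.of_sh, fun h' => (h.2 h').of_sh2⟩

/-- The matchings. -/
def Mt0 (r : Rl Q M) (p p' : Pt Q M) : Prop :=
  Dm μ M T r p ∧ Dm μ M T r p' ∧ p.v ∈ μ.A0 M r ∧ p'.v ∈ μ.B0 M r ∧ C μ M r p p'

lemma C2_da {q : Q} {d : Fin 3} (hd : d ≠ μ.dr q) {v v' : Nd Q M} {u w : Fin 3 → ℕ}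
    (h : C2 μ M q v (u + e d) v' w) : ∃ z, w = z + e d ∧ C2 μ M q v u v' z := by
  unfold C2 at h ⊢
  split_ifs at h ⊢
  · rcases h with ⟨a, b, c⟩ | ⟨a, b, c, c'⟩ | ⟨a, b, c⟩
    · obtain ⟨z, h1, h2⟩ := v7 hd c
      exact ⟨z, h1, Or.inl ⟨a, b, h2⟩⟩
    · exact ⟨u, c.symm, Or.inr (Or.inl ⟨a, b, rfl, (v8 hd).symm.trans c'⟩)⟩
    · exact ⟨u + e (μ.dr q), c.trans (add_right_comm _ _ _), Or.inr (Or.inr ⟨a, b, rfl⟩)⟩
  · rcases h with ⟨a, b, c⟩ | ⟨a, b, c, c'⟩ | ⟨a, b, c⟩ | ⟨a, b, c, c'⟩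
    · exact ⟨u + e (μ.dr q), c.trans (add_right_comm _ _ _), Or.inl ⟨a, b, rfl⟩⟩
    · exact ⟨u, c.symm, Or.inr (Or.inl ⟨a, b, rfl, (v8 hd).symm.trans c'⟩)⟩
    · obtain ⟨z, h1, h2⟩ := v7 hd c
      exact ⟨z, h1, Or.inr (Or.inr (Or.inl ⟨a, b, h2⟩))⟩
    · exact ⟨u, c.symm, Or.inr (Or.inr (Or.inr ⟨a, b, rfl, (v8 hd).symm.trans c'⟩))⟩

lemma C2_db {q : Q} {d : Fin 3} (hd : d ≠ μ.dr q) {v v' : Nd Q M} {u w : Fin 3 → ℕ}
    (h : C2 μ M q v w v' (u + e d)) : ∃ z, w = z + e d ∧ C2 μ M q v z v' u := by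
  unfold C2 at h ⊢
  split_ifs at h ⊢
  · rcases h with ⟨a, b, c⟩ | ⟨a, b, c, c'⟩ | ⟨a, b, c⟩
    · exact ⟨u + e (μ.dr q), c.trans (add_right_comm _ _ _), Or.inl ⟨a, b, rfl⟩⟩
    · exact ⟨u, c, Or.inr (Or.inl ⟨a, b, rfl, (v8 hd).symm.trans (c ▸ c')⟩)⟩
    · obtain ⟨z, h1, h2⟩ := v7 hd c
      exact ⟨z, h1, Or.inr (Or.inr ⟨a, b, h2⟩)⟩
  · rcases h with ⟨a, b, c⟩ | ⟨a, b, c, c'⟩ | ⟨a, b, c⟩ | ⟨a, b, c, c'⟩
    · obtain ⟨z, h1, h2⟩ := v7 hd c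
      exact ⟨z, h1, Or.inl ⟨a, b, h2⟩⟩
    · exact ⟨u, c, Or.inr (Or.inl ⟨a, b, rfl, (v8 hd).symm.trans (c ▸ c')⟩)⟩
    · exact ⟨u + e (μ.dr q), c.trans (add_right_comm _ _ _), Or.inr (Or.inr (Or.inl ⟨a, b, rfl⟩))⟩
    · exact ⟨u, c, Or.inr (Or.inr (Or.inr ⟨a, b, rfl, (v8 hd).symm.trans (c ▸ c')⟩))⟩

lemma C_da {r : Rl Q M} {d : Fin 3} (hd : μ.pr0 M r d = true) {p p1 : Pt Q M}
    (h : C μ M r (sh M d p) p1) : ∃ p', p1 = sh M d p' ∧ C μ M r p p' := by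
  obtain ⟨v1, t1, x1, u1⟩ := p1
  obtain d0 | ⟨q, j⟩ | q | ⟨q, k⟩ := r
  · exact h.elim
  · obtain ⟨h1, h2, ⟨rfl, h3⟩ | ⟨rfl, h3⟩⟩ := h
    · exact ⟨⟨v1, t1, x1, p.u⟩, Pt.ext rfl rfl rfl h3.symm, h1, h2, Or.inl ⟨rfl, rfl⟩⟩
    · obtain ⟨z, h4, h5⟩ := C2_da μ M (by simpa [Mc.pr0] using hd) h3
      exact ⟨⟨v1, t1, x1, z⟩, Pt.ext rfl rfl rfl h4, h1, h2, Or.inr ⟨rfl, h5⟩⟩
  · obtain ⟨h1, h2, h3⟩ := h
    exact ⟨⟨v1, t1, x1, p.u⟩, Pt.ext rfl rfl rfl h1.symm, rfl, h2, h3⟩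
  · obtain ⟨h1, h2, h3⟩ := h
    exact ⟨⟨v1, t1, x1, p.u⟩, Pt.ext rfl rfl rfl h3.symm, h1, h2, rfl⟩

lemma C_db {r : Rl Q M} {d : Fin 3} (hd : μ.pr0 M r d = true) {p' p1 : Pt Q M}
    (h : C μ M r p1 (sh M d p')) : ∃ p, p1 = sh M d p ∧ C μ M r p p' := by
  obtain ⟨v1, t1, x1, u1⟩ := p1
  obtain d0 | ⟨q, j⟩ | q | ⟨q, k⟩ := r
  · exact h.elim
  · obtain ⟨h1, h2, ⟨rfl, h3⟩ | ⟨rfl, h3⟩⟩ := h
    · exact ⟨⟨v1, t1, x1, p'.u⟩, Pt.ext rfl rfl rfl h3, h1, h2, Or.inl ⟨rfl, rfl⟩⟩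
    · obtain ⟨z, h4, h5⟩ := C2_db μ M (by simpa [Mc.pr0] using hd) h3
      exact ⟨⟨v1, t1, x1, z⟩, Pt.ext rfl rfl rfl h4, h1, h2, Or.inr ⟨rfl, h5⟩⟩
  · obtain ⟨h1, h2, h3⟩ := h
    exact ⟨⟨v1, t1, x1, p'.u⟩, Pt.ext rfl rfl rfl h1, rfl, h2, h3⟩
  · obtain ⟨h1, h2, h3⟩ := h
    exact ⟨⟨v1, t1, x1, p'.u⟩, Pt.ext rfl rfl rfl h3, h1, h2, rfl⟩

lemma da0 {r : Rl Q M} {d : Fin 3} (hd : μ.pr0 M r d = true) {p p1 : Pt Q M}
    (h : Mt0 μ M T r (sh M d p) p1) : ∃ p', p1 = sh M d p' ∧ Mt0 μ M T r p p' := by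
  obtain ⟨h1, h2, h3, h4, h5⟩ := h
  obtain ⟨p', rfl, h6⟩ := C_da μ M hd h5
  exact ⟨p', rfl, h1.of_sh, h2.of_sh, h3, h4, h6⟩

lemma db0 {r : Rl Q M} {d : Fin 3} (hd : μ.pr0 M r d = true) {p' p1 : Pt Q M}
    (h : Mt0 μ M T r p1 (sh M d p')) : ∃ p, p1 = sh M d p ∧ Mt0 μ M T r p p' := by
  obtain ⟨h1, h2, h3, h4, h5⟩ := h
  obtain ⟨p, rfl, h6⟩ := C_db μ M hd h5
  exact ⟨p, rfl, h1.of_sh, h2.of_sh, h3, h4, h6⟩

lemma n1 (q q' : Q) (b : Bool) (k : Fin (M + 3)) : no M q b ≠ ni q' k := by simp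
lemma n2 (q : Q) : (ni q 1 : Nd Q M) ≠ ni q 2 := by simp [f3]
lemma n3 (q : Q) : (ni q 0 : Nd Q M) ≠ ni q 2 := by simp [(f2 M).symm]
lemma n4 (q : Q) : (ni q 0 : Nd Q M) ≠ ni q 1 := by simp

lemma C2_ur {q : Q} {v v1 v2 : Nd Q M} {u u1 u2 : Fin 3 → ℕ}
    (h1 : C2 μ M q v u v1 u1) (h2 : C2 μ M q v u v2 u2) : v1 = v2 ∧ u1 = u2 := by
  unfold C2 at h1 h2
  split_ifs at h1 h2
  · rcases h1 with ⟨a, b, c⟩ | ⟨a, b, c, c'⟩ | ⟨a, b, c⟩ <;>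
      rcases h2 with ⟨a2, b2, c2⟩ | ⟨a2, b2, c2, c2'⟩ | ⟨a2, b2, c2⟩
    · exact ⟨b.trans b2.symm, add_right_cancel (c.symm.trans c2)⟩
    · exact absurd (c ▸ c2') v9
    · exact absurd (a.symm.trans a2) (n1 M _ _ _ _)
    · exact absurd (c2 ▸ c') v9
    · exact ⟨b.trans b2.symm, c.symm.trans c2⟩
    · exact absurd (a.symm.trans a2) (n1 M _ _ _ _)
    · exact absurd (a2.symm.trans a) (n1 M _ _ _ _)
    · exact absurd (a2.symm.trans a) (n1 M _ _ _ _)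
    · exact ⟨b.trans b2.symm, c.trans c2.symm⟩
  · rcases h1 with ⟨a, b, c⟩ | ⟨a, b, c, c'⟩ | ⟨a, b, c⟩ | ⟨a, b, c, c'⟩ <;>
      rcases h2 with ⟨a2, b2, c2⟩ | ⟨a2, b2, c2, c2'⟩ | ⟨a2, b2, c2⟩ | ⟨a2, b2, c2, c2'⟩
    · exact ⟨b.trans b2.symm, c.trans c2.symm⟩
    · exact absurd (a.symm.trans a2) (n2 M _)
    · exact absurd (a.symm.trans a2) (n2 M _)
    · exact absurd (a2.symm.trans a) (n1 M _ _ _ _)
    · exact absurd (a2.symm.trans a) (n2 M _)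
    · exact ⟨b.trans b2.symm, c.symm.trans c2⟩
    · exact absurd (c2 ▸ c') v9
    · exact absurd (a2.symm.trans a) (n1 M _ _ _ _)
    · exact absurd (a2.symm.trans a) (n2 M _)
    · exact absurd (c ▸ c2') v9
    · exact ⟨b.trans b2.symm, add_right_cancel (c.symm.trans c2)⟩
    · exact absurd (a2.symm.trans a) (n1 M _ _ _ _)
    · exact absurd (a.symm.trans a2) (n1 M _ _ _ _)
    · exact absurd (a.symm.trans a2) (n1 M _ _ _ _)
    · exact absurd (a.symm.trans a2) (n1 M _ _ _ _)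
    · exact ⟨b.trans b2.symm, c.symm.trans c2⟩

lemma C2_ul {q : Q} {v v1 v2 : Nd Q M} {u u1 u2 : Fin 3 → ℕ}
    (h1 : C2 μ M q v1 u1 v u) (h2 : C2 μ M q v2 u2 v u)
    (hx : ¬(μ.ins q = false ∧ v1 = ni q 2 ∧ v2 = no M q false))
    (hy : ¬(μ.ins q = false ∧ v2 = ni q 2 ∧ v1 = no M q false)) : v1 = v2 ∧ u1 = u2 := by
  unfold C2 at h1 h2
  split_ifs at h1 h2 with hq
  · rcases h1 with ⟨a, b, c⟩ | ⟨a, b, c, c'⟩ | ⟨a, b, c⟩ <;>
      rcases h2 with ⟨a2, b2, c2⟩ | ⟨a2, b2, c2, c2'⟩ | ⟨a2, b2, c2⟩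
    · exact ⟨a.trans a2.symm, c.trans c2.symm⟩
    · exact absurd (b.symm.trans b2) (n3 M _)
    · exact absurd (b.symm.trans b2) (n3 M _)
    · exact absurd (b2.symm.trans b) (n3 M _)
    · exact ⟨a.trans a2.symm, c.trans c2.symm⟩
    · exact absurd ((c.trans c2) ▸ c') v9
    · exact absurd (b2.symm.trans b) (n3 M _)
    · exact absurd ((c2.trans c) ▸ c2') v9
    · exact ⟨a.trans a2.symm, add_right_cancel (c.symm.trans c2)⟩
  · have hq' : μ.ins q = false := by simpa using hq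
    rcases h1 with ⟨a, b, c⟩ | ⟨a, b, c, c'⟩ | ⟨a, b, c⟩ | ⟨a, b, c, c'⟩ <;>
      rcases h2 with ⟨a2, b2, c2⟩ | ⟨a2, b2, c2, c2'⟩ | ⟨a2, b2, c2⟩ | ⟨a2, b2, c2, c2'⟩
    · exact ⟨a.trans a2.symm, add_right_cancel (c.symm.trans c2)⟩
    · exact absurd ((c2.trans c) ▸ c2') v9
    · exact absurd (b2.symm.trans b) (n1 M _ _ _ _)
    · exact absurd ((c2.trans c) ▸ c2') v9
    · exact absurd ((c.trans c2) ▸ c') v9
    · exact ⟨a.trans a2.symm, c.trans c2.symm⟩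
    · exact absurd (b2.symm.trans b) (n1 M _ _ _ _)
    · exact absurd ⟨hq', a, a2⟩ hx
    · exact absurd (b.symm.trans b2) (n1 M _ _ _ _)
    · exact absurd (b.symm.trans b2) (n1 M _ _ _ _)
    · exact ⟨a.trans a2.symm, c.trans c2.symm⟩
    · exact absurd (b.symm.trans b2) (n1 M _ _ _ _)
    · exact absurd ((c.trans c2) ▸ c') v9
    · exact absurd ⟨hq', a2, a⟩ hy
    · exact absurd (b2.symm.trans b) (n1 M _ _ _ _)
    · exact ⟨a.trans a2.symm, c.trans c2.symm⟩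

lemma mem_B_merge {q : Q} {v : Nd Q M} : v ∈ μ.B0 M (.inr (.inr (.inl q))) ↔
    (∃ q' b, μ.nx q' b = q ∧ v = no M q' b) ∨ (q = μ.q0 ∧ v = nc Q M) := by
  simp only [Mc.B0, mem_union, mem_image, mem_filter, mem_univ, true_and, Prod.exists]
  refine or_congr ?_ ?_
  · exact ⟨fun ⟨a, b, h1, h2⟩ => ⟨a, b, h1, h2.symm⟩, fun ⟨a, b, h1, h2⟩ => ⟨a, b, h1, h2.symm⟩⟩
  · split_ifs with h <;> simp [h]

lemma ur0 {r : Rl Q M} {p p1 p2 : Pt Q M} (h1 : Mt0 μ M T r p p1) (h2 : Mt0 μ M T r p p2) :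
    p1 = p2 := by
  obtain ⟨-, a2, -, a4, a5⟩ := h1
  obtain ⟨-, b2, -, b4, b5⟩ := h2
  obtain d0 | ⟨q, j⟩ | q | ⟨q, k⟩ := r
  · exact a5.elim
  · obtain ⟨a6, a7, ⟨rfl, a8⟩ | ⟨rfl, a8⟩⟩ := a5 <;> obtain ⟨b6, b7, ⟨h, b8⟩ | ⟨h, b8⟩⟩ := b5
    · simp only [Mc.B0, mem_singleton] at a4 b4
      exact Pt.ext (a4.trans b4.symm) (a6.symm.trans b6) (a7.symm.trans b7) (a8.symm.trans b8)
    · exact absurd h (by decide)
    · exact absurd h (by decide)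
    · obtain ⟨h3, h4⟩ := C2_ur μ M a8 b8
      exact Pt.ext h3 (a6.symm.trans b6) (a7.symm.trans b7) h4
  · obtain ⟨a6, a7, k, a8, a9⟩ := a5
    obtain ⟨b6, b7, k', b8, b9⟩ := b5
    have hk : k = k' := by simpa using a8.symm.trans b8
    subst hk
    obtain ⟨v1, t1, x1, u1⟩ := p1
    obtain ⟨v2, t2, x2, u2⟩ := p2
    have a10 := a2.1.1
    have b10 := b2.1.1
    dsimp only at *
    rcases (mem_B_merge μ M).1 a4 with ⟨q1, c1, -, rfl⟩ | ⟨-, rfl⟩ <;>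
      rcases (mem_B_merge μ M).1 b4 with ⟨q2, c2, -, rfl⟩ | ⟨-, rfl⟩ <;>
      simp only [Mc.act, Mc.lag, decide_eq_true_eq] at a7 b7 a10 b10
    · have ht : t1 = t2 := by omega
      subst ht
      refine Pt.ext ?_ rfl (a9.trans b9.symm) (a6.symm.trans b6)
      show no M q1 c1 = no M q2 c2
      rw [← a10.1, ← a10.2, ← b10.1, ← b10.2]
    · omega
    · omega
    · exact Pt.ext rfl (a10.trans b10.symm) (a9.trans b9.symm) (a6.symm.trans b6)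
  · obtain ⟨a6, a7, a8⟩ := a5
    obtain ⟨b6, b7, b8⟩ := b5
    simp only [Mc.B0] at a4 b4
    split_ifs at a4 b4
    · simp at a4
    · simp only [mem_singleton] at a4 b4
      exact Pt.ext (a4.trans b4.symm) (a6.symm.trans b6) (a7.symm.trans b7) (a8.symm.trans b8)

lemma excl {q : Q} {p1 p2 : Pt Q M} (h1 : Dm μ M T (.inr (.inl (q, 1))) p1)
    (h2 : Dm μ M T (.inr (.inl (q, 1))) p2) (ht : p1.t = p2.t) :
    ¬(μ.ins q = false ∧ p1.v = ni q 2 ∧ p2.v = no M q false) := by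
  rintro ⟨hq, a, b⟩
  have h3 := (h1.2 (by simp [Mc.up0, hq, a])).2.2.2
  have h4 := h2.1.1
  simp only [sh, a, Mc.sz, Mc.δ0] at h3
  simp only [b, Mc.act, decide_eq_true_eq, Mc.br, ← ht] at h4
  obtain ⟨h5, h6⟩ := h4
  rw [h5, hq] at h6
  exact (v2.1 h3).1 (by simpa using h6)

lemma ul0 {r : Rl Q M} {p p1 p2 : Pt Q M} (h1 : Mt0 μ M T r p1 p) (h2 : Mt0 μ M T r p2 p) :
    p1 = p2 := by
  obtain ⟨a1, -, a4, -, a5⟩ := h1
  obtain ⟨b1, -, b4, -, b5⟩ := h2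
  obtain d0 | ⟨q, j⟩ | q | ⟨q, k⟩ := r
  · exact a5.elim
  · obtain ⟨a6, a7, ⟨rfl, a8⟩ | ⟨rfl, a8⟩⟩ := a5 <;> obtain ⟨b6, b7, ⟨h, b8⟩ | ⟨h, b8⟩⟩ := b5
    · simp only [Mc.A0, mem_singleton] at a4 b4
      exact Pt.ext (a4.trans b4.symm) (a6.trans b6.symm) (a7.trans b7.symm) (a8.trans b8.symm)
    · exact absurd h (by decide)
    · exact absurd h (by decide)
    · obtain ⟨h3, h4⟩ := C2_ul μ M a8 b8 (excl μ M T a1 b1 (a6.trans b6.symm))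
        (excl μ M T b1 a1 (b6.trans a6.symm))
      exact Pt.ext h3 (a6.trans b6.symm) (a7.trans b7.symm) h4
  · obtain ⟨a6, a7, k, a8, a9⟩ := a5
    obtain ⟨b6, b7, k', b8, b9⟩ := b5
    have h := a9.symm.trans b9
    have hk : k = k' := by
      have := congrArg (· % (M + 3)) h
      simp only [Nat.mul_add_mod_self_right, Nat.mod_eq_of_lt k.2, Nat.mod_eq_of_lt k'.2] at this
      exact Fin.ext this
    subst hk
    exact Pt.ext (a8.trans b8.symm) (a7.trans b7.symm)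
      (Nat.eq_of_mul_eq_mul_right (by omega) (add_right_cancel h)) (a6.trans b6.symm)
  · obtain ⟨a6, a7, a8⟩ := a5
    obtain ⟨b6, b7, b8⟩ := b5
    simp only [Mc.A0] at a4 b4
    split_ifs at a4 b4
    · simp at a4
    · simp only [mem_singleton] at a4 b4
      exact Pt.ext (a4.trans b4.symm) (a6.trans b6.symm) (a7.trans b7.symm) (a8.trans b8.symm)

lemma inF_ni {q : Q} {k : Fin (M + 3)} {t x : ℕ} {u : Fin 3 → ℕ} :
    InF μ M T ⟨ni q k, t, x, u⟩ ↔ (μ.run t).1 = q ∧ t < T ∧ x < (M + 3) ^ (T - t - 1) ∧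
      u ≤ (μ.run t).2 := by
  simp only [InF, Mc.act, Mc.lag, Mc.sz, decide_eq_true_eq]

lemma inF_no {q : Q} {b : Bool} {t x : ℕ} {u : Fin 3 → ℕ} :
    InF μ M T ⟨no M q b, t, x, u⟩ ↔ ((μ.run t).1 = q ∧ μ.br (μ.run t) = b) ∧ t < T ∧
      x < (M + 3) ^ (T - t - 1) ∧ u ≤ (μ.run (t + 1)).2 := by
  simp only [InF, Mc.act, Mc.lag, Mc.sz, decide_eq_true_eq]

lemma inF_inc {q : Q} (hq : μ.ins q = true) {b : Bool} {t x : ℕ} {u : Fin 3 → ℕ} :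
    InF μ M T ⟨no M q b, t, x, u⟩ ↔ (μ.run t).1 = q ∧ b = true ∧ t < T ∧
      x < (M + 3) ^ (T - t - 1) ∧ u ≤ (μ.run t).2 + e (μ.dr q) := by
  rw [inF_no, run_succ]
  constructor
  · rintro ⟨⟨h1, h2⟩, h3, h4, h5⟩
    simp only [Mc.step, Mc.br, h1, hq, if_true, Bool.true_or] at h2 h5
    exact ⟨h1, h2.symm, h3, h4, h5⟩
  · rintro ⟨h1, h2, h3, h4, h5⟩
    simp only [Mc.step, Mc.br, h1, hq, if_true, Bool.true_or]
    exact ⟨⟨trivial, h2.symm⟩, h3, h4, h5⟩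

lemma inF_dec {q : Q} (hq : μ.ins q = false) {b : Bool} {t x : ℕ} {u : Fin 3 → ℕ} :
    InF μ M T ⟨no M q b, t, x, u⟩ ↔ (μ.run t).1 = q ∧ (b = true ↔ (μ.run t).2 (μ.dr q) ≠ 0) ∧
      t < T ∧ x < (M + 3) ^ (T - t - 1) ∧ u ≤ (μ.run t).2 - e (μ.dr q) := by
  rw [inF_no, run_succ]
  constructor
  · rintro ⟨⟨h1, h2⟩, h3, h4, h5⟩
    simp only [Mc.step, Mc.br, h1, hq, Bool.false_or, Bool.false_eq_true, if_false] at h2 h5
    exact ⟨h1, by rw [← h2]; simp, h3, h4, h5⟩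
  · rintro ⟨h1, h2, h3, h4, h5⟩
    simp only [Mc.step, Mc.br, h1, hq, Bool.false_or, Bool.false_eq_true, if_false]
    refine ⟨⟨trivial, ?_⟩, h3, h4, h5⟩
    cases b <;> simpa using h2

lemma inF_nc {t x : ℕ} {u : Fin 3 → ℕ} :
    InF μ M T ⟨nc Q M, t, x, u⟩ ↔ t = 0 ∧ t < T ∧ x < (M + 3) ^ (T - t) ∧ u ≤ 0 := by
  simp only [InF, Mc.act, Mc.lag, Mc.sz, decide_eq_true_eq, Nat.sub_zero]

lemma dm_up {r : Rl Q M} {v : Nd Q M} {t x : ℕ} {u : Fin 3 → ℕ}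
    (h : InF μ M T ⟨v, t, x, u + e (μ.δ0 M r)⟩) : Dm μ M T r ⟨v, t, x, u⟩ :=
  ⟨InF.of_sh μ M T (p := ⟨v, t, x, u⟩) h, fun _ => h⟩

lemma dm_no {r : Rl Q M} {p : Pt Q M} (h : InF μ M T p) (h' : μ.up0 M r p.v = false) :
    Dm μ M T r p := ⟨h, fun h1 => by simp [h'] at h1⟩

lemma pw {t x : ℕ} {k : ℕ} (hk : k < M + 3) (ht : t < T) (hx : x < (M + 3) ^ (T - t - 1)) :
    x * (M + 3) + k < (M + 3) ^ (T - t) := by
  obtain ⟨n, hn⟩ : ∃ n, T - t = n + 1 := ⟨T - t - 1, by omega⟩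
  rw [hn] at hx ⊢
  rw [Nat.add_sub_cancel] at hx
  rw [pow_succ]
  nlinarith

lemma pw' {t x : ℕ} (ht : t < T) (hx : x < (M + 3) ^ (T - t)) :
    x / (M + 3) < (M + 3) ^ (T - t - 1) := by
  obtain ⟨n, hn⟩ : ∃ n, T - t = n + 1 := ⟨T - t - 1, by omega⟩
  rw [hn] at hx ⊢
  rw [Nat.add_sub_cancel]
  exact Nat.div_lt_of_lt_mul (by rwa [pow_succ, mul_comm] at hx)

lemma m4A {r : Rl Q M} {p : Pt Q M} (h1 : Dm μ M T r p) (h2 : p.v ∈ μ.A0 M r) :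
    ∃ p', Mt0 μ M T r p p' := by
  obtain ⟨v, t, x, u⟩ := p
  have hF := h1.1
  have hU := h1.2
  have g1 := f1 M
  have g2 := f2 M
  have g3 := f3 M
  obtain d0 | ⟨q, j⟩ | q | ⟨q, k⟩ := r
  · have h3 : v = nc Q M := by simpa [Mc.A0] using h2
    subst h3
    have h4 := (inF_nc μ M T).1 (hU rfl)
    exact absurd rfl (v2.1 h4.2.2.2).1
  · obtain rfl | rfl | rfl : j = 0 ∨ j = 1 ∨ j = 2 := by omega
    · have h3 : v = no M q true := by simpa [Mc.A0] using h2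
      subst h3
      refine ⟨⟨ni q 0, t, x, u⟩, h1, ?_, h2, by simp [Mc.B0], rfl, rfl, Or.inl ⟨rfl, rfl⟩⟩
      cases hq : μ.ins q
      · obtain ⟨a, b, c, d, f⟩ := (inF_dec μ M T hq).1 hF
        exact dm_up μ M T ((inF_ni μ M T).2 ⟨a, c, d, v2.2 ⟨b.1 rfl, f⟩⟩)
      · obtain ⟨a, b, c, d, f⟩ := (inF_inc μ M T hq).1 (hU (by simp [Mc.up0, hq]))
        exact dm_no μ M T ((inF_ni μ M T).2 ⟨a, c, d, v1.1 f⟩) (by simp [Mc.up0, hq])
    · cases hq : μ.ins q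
      · have h3 : v = no M q false ∨ v = ni q 1 ∨ v = ni q 2 := by simpa [Mc.A0, hq] using h2
        rcases h3 with rfl | rfl | rfl
        · obtain ⟨a, b, c, d, f⟩ := (inF_dec μ M T hq).1 hF
          have b' : (μ.run t).2 (μ.dr q) = 0 := by simpa using b
          have f' := (v11 b').1 f
          have u0 : u (μ.dr q) = 0 := Nat.eq_zero_of_le_zero (b' ▸ f' (μ.dr q))
          exact ⟨⟨ni q 0, t, x, u⟩, h1, dm_no μ M T ((inF_ni μ M T).2 ⟨a, c, d, f'⟩)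
            (by simp [Mc.up0, hq, g1.symm, g2.symm]), h2, by simp [Mc.B0, hq], rfl, rfl,
            Or.inr ⟨rfl, by simp [C2, hq, u0]⟩⟩
        · obtain ⟨a, c, d, f⟩ := (inF_ni μ M T).1 (hU (by simp [Mc.up0, hq]))
          exact ⟨⟨ni q 0, t, x, u + e (μ.dr q)⟩, h1, dm_no μ M T ((inF_ni μ M T).2 ⟨a, c, d, f⟩)
            (by simp [Mc.up0, hq, g1.symm, g2.symm]), h2, by simp [Mc.B0, hq], rfl, rfl,
            Or.inr ⟨rfl, by simp [C2, hq]⟩⟩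
        · obtain ⟨a, c, d, f⟩ := (inF_ni μ M T).1 (hU (by simp [Mc.up0, hq]))
          rcases v4 u (μ.dr q) with u0 | ⟨w, rfl⟩
          · exact ⟨⟨ni q 0, t, x, u⟩, h1, dm_no μ M T ((inF_ni μ M T).2 ⟨a, c, d, v5 f⟩)
              (by simp [Mc.up0, hq, g1.symm, g2.symm]), h2, by simp [Mc.B0, hq], rfl, rfl,
              Or.inr ⟨rfl, by simp [C2, hq, u0]⟩⟩
          · exact ⟨⟨no M q true, t, x, w⟩, h1, dm_up μ M T ((inF_dec μ M T hq).2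
              ⟨a, iff_of_true rfl (v2.1 f).1, c, d, (v2.1 f).2⟩), h2, by simp [Mc.B0, hq], rfl, rfl,
              Or.inr ⟨rfl, by simp [C2, hq]⟩⟩
      · have h3 : v = no M q true ∨ v = ni q 1 := by simpa [Mc.A0, hq] using h2
        rcases h3 with rfl | rfl
        · obtain ⟨a, b, c, d, f⟩ := (inF_inc μ M T hq).1 hF
          rcases v4 u (μ.dr q) with u0 | ⟨w, rfl⟩
          · exact ⟨⟨ni q 2, t, x, u⟩, h1, dm_no μ M T ((inF_ni μ M T).2 ⟨a, c, d, (v3 u0).1 f⟩)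
              (by simp [Mc.up0, hq, g3.symm]), h2, by simp [Mc.B0, hq], rfl, rfl,
              Or.inr ⟨rfl, by simp [C2, hq, u0]⟩⟩
          · exact ⟨⟨ni q 0, t, x, w⟩, h1, dm_no μ M T ((inF_ni μ M T).2 ⟨a, c, d, v1.1 f⟩)
              (by simp [Mc.up0, hq, g1.symm]), h2, by simp [Mc.B0, hq], rfl, rfl,
              Or.inr ⟨rfl, by simp [C2, hq]⟩⟩
        · obtain ⟨a, c, d, f⟩ := (inF_ni μ M T).1 (hU (by simp [Mc.up0, hq]))
          exact ⟨⟨ni q 2, t, x, u + e (μ.dr q)⟩, h1, dm_no μ M T ((inF_ni μ M T).2 ⟨a, c, d, f⟩)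
            (by simp [Mc.up0, hq, g3.symm]), h2, by simp [Mc.B0, hq], rfl, rfl,
            Or.inr ⟨rfl, by simp [C2, hq]⟩⟩
    · have h3 : v = no M q false := by simpa [Mc.A0] using h2
      subst h3
      cases hq : μ.ins q
      · obtain ⟨a, b, c, d, f⟩ := (inF_dec μ M T hq).1 (hU (by simp [Mc.up0, hq]))
        have b' : (μ.run t).2 (μ.dr q) = 0 := by simpa using b
        exact absurd b' (v2.1 ((v11 b').1 f)).1
      · exact absurd ((inF_inc μ M T hq).1 hF).2.1 (by simp)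
  · obtain ⟨k, hk⟩ : ∃ k, ni q k = v := by simpa [Mc.A0] using h2
    subst hk
    obtain ⟨a, c, d, f⟩ := (inF_ni μ M T).1 hF
    cases t with
    | zero =>
      exact ⟨⟨nc Q M, 0, x * (M + 3) + k, u⟩, h1, dm_no μ M T ((inF_nc μ M T).2
        ⟨rfl, c, pw M T k.2 c d, f⟩) rfl, h2, (mem_B_merge μ M).2 (Or.inr ⟨a.symm, rfl⟩),
        rfl, rfl, k, rfl, rfl⟩
    | succ s =>
      refine ⟨⟨no M (μ.run s).1 (μ.br (μ.run s)), s, x * (M + 3) + k, u⟩, h1,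
        dm_no μ M T ((inF_no μ M T).2 ⟨⟨rfl, rfl⟩, by omega, pw M T k.2 c d, f⟩) rfl, h2,
        (mem_B_merge μ M).2 (Or.inl ⟨_, _, ?_, rfl⟩), rfl, rfl, k, rfl, rfl⟩
      rw [← a, run_succ]
      rfl
  · simp only [Mc.A0] at h2
    split_ifs at h2 with hk
    · simp at h2
    · have h3 : v = ni q k := by simpa using h2
      subst h3
      exact ⟨⟨ni q 0, t, x, u⟩, h1, dm_no μ M T ((inF_ni μ M T).2 ((inF_ni μ M T).1 hF)) rfl,
        by simp [Mc.A0, hk], by simp [Mc.B0, hk], rfl, rfl, rfl⟩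

lemma m4B {r : Rl Q M} {p : Pt Q M} (h1 : Dm μ M T r p) (h2 : p.v ∈ μ.B0 M r)
    (hB : p ∉ Bad μ M T) : ∃ p', Mt0 μ M T r p' p := by
  obtain ⟨v, t, x, u⟩ := p
  have hF := h1.1
  have hU := h1.2
  have g1 := f1 M
  have g2 := f2 M
  have g3 := f3 M
  obtain d0 | ⟨q, j⟩ | q | ⟨q, k⟩ := r
  · simp [Mc.B0] at h2
  · obtain rfl | rfl | rfl : j = 0 ∨ j = 1 ∨ j = 2 := by omega
    · have h3 : v = ni q 0 := by simpa [Mc.B0] using h2
      subst h3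
      refine ⟨⟨no M q true, t, x, u⟩, ?_, h1, by simp [Mc.A0], h2, rfl, rfl, Or.inl ⟨rfl, rfl⟩⟩
      cases hq : μ.ins q
      · obtain ⟨a, c, d, f⟩ := (inF_ni μ M T).1 (hU (by simp [Mc.up0, hq]))
        exact dm_no μ M T ((inF_dec μ M T hq).2 ⟨a, iff_of_true rfl (v2.1 f).1, c, d, (v2.1 f).2⟩)
          (by simp [Mc.up0, hq])
      · obtain ⟨a, c, d, f⟩ := (inF_ni μ M T).1 hF
        exact dm_up μ M T ((inF_inc μ M T hq).2 ⟨a, rfl, c, d, v1.2 f⟩)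
    · cases hq : μ.ins q
      · have h3 : v = ni q 0 ∨ v = no M q true := by simpa [Mc.B0, hq] using h2
        rcases h3 with rfl | rfl
        · obtain ⟨a, c, d, f⟩ := (inF_ni μ M T).1 hF
          rcases v4 u (μ.dr q) with u0 | ⟨w, rfl⟩
          · by_cases hs : (μ.run t).2 (μ.dr q) = 0
            · exact ⟨⟨no M q false, t, x, u⟩, dm_no μ M T ((inF_dec μ M T hq).2
                ⟨a, by simpa using hs, c, d, (v11 hs).2 f⟩) (by simp [Mc.up0, hq]), h1,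
                by simp [Mc.A0, hq], h2, rfl, rfl, Or.inr ⟨rfl, by simp [C2, hq, u0]⟩⟩
            · exact ⟨⟨ni q 2, t, x, u⟩, dm_up μ M T ((inF_ni μ M T).2 ⟨a, c, d, v12 u0 f hs⟩), h1,
                by simp [Mc.A0, hq], h2, rfl, rfl, Or.inr ⟨rfl, by simp [C2, hq, u0]⟩⟩
          · exact ⟨⟨ni q 1, t, x, w⟩, dm_up μ M T ((inF_ni μ M T).2 ⟨a, c, d, f⟩), h1,
              by simp [Mc.A0, hq], h2, rfl, rfl, Or.inr ⟨rfl, by simp [C2, hq]⟩⟩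
        · obtain ⟨a, b, c, d, f⟩ := (inF_dec μ M T hq).1 (hU (by simp [Mc.up0, hq]))
          exact ⟨⟨ni q 2, t, x, u + e (μ.dr q)⟩, dm_up μ M T ((inF_ni μ M T).2
            ⟨a, c, d, v2.2 ⟨b.1 rfl, f⟩⟩), h1, by simp [Mc.A0, hq], h2, rfl, rfl,
            Or.inr ⟨rfl, by simp [C2, hq]⟩⟩
      · have h3 : v = ni q 0 ∨ v = ni q 2 := by simpa [Mc.B0, hq] using h2
        rcases h3 with rfl | rfl
        · obtain ⟨a, c, d, f⟩ := (inF_ni μ M T).1 hF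
          exact ⟨⟨no M q true, t, x, u + e (μ.dr q)⟩, dm_no μ M T ((inF_inc μ M T hq).2
            ⟨a, rfl, c, d, v1.2 f⟩) (by simp [Mc.up0, hq]), h1, by simp [Mc.A0, hq], h2, rfl, rfl,
            Or.inr ⟨rfl, by simp [C2, hq]⟩⟩
        · obtain ⟨a, c, d, f⟩ := (inF_ni μ M T).1 hF
          rcases v4 u (μ.dr q) with u0 | ⟨w, rfl⟩
          · exact ⟨⟨no M q true, t, x, u⟩, dm_no μ M T ((inF_inc μ M T hq).2
              ⟨a, rfl, c, d, (v3 u0).2 f⟩) (by simp [Mc.up0, hq]), h1, by simp [Mc.A0, hq], h2,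
              rfl, rfl, Or.inr ⟨rfl, by simp [C2, hq, u0]⟩⟩
          · exact ⟨⟨ni q 1, t, x, w⟩, dm_up μ M T ((inF_ni μ M T).2 ⟨a, c, d, f⟩), h1,
              by simp [Mc.A0, hq], h2, rfl, rfl, Or.inr ⟨rfl, by simp [C2, hq]⟩⟩
    · simp [Mc.B0] at h2
  · have hx : x = x / (M + 3) * (M + 3) + x % (M + 3) := (Nat.div_add_mod' x (M + 3)).symm
    have hk : x % (M + 3) < M + 3 := Nat.mod_lt _ (by omega)
    rcases (mem_B_merge μ M).1 h2 with ⟨q', b, hn, h3⟩ | ⟨hn, h3⟩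
    · dsimp only at h3
      subst h3
      have ht : t + 1 < T := by
        by_contra hc
        exact hB (mem_Bad μ M T hF (by omega))
      obtain ⟨⟨a, a'⟩, c, d, f⟩ := (inF_no μ M T).1 hF
      refine ⟨⟨ni q ⟨_, hk⟩, t + 1, x / (M + 3), u⟩, dm_no μ M T ((inF_ni μ M T).2
        ⟨?_, ht, pw' M T ht d, f⟩) rfl, h1, by simp [Mc.A0], h2, rfl, rfl, ⟨_, hk⟩, rfl, hx⟩
      rw [run_succ, ← hn, ← a, ← a']
      rfl
    · dsimp only at h3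
      subst h3
      obtain ⟨rfl, c, d, f⟩ := (inF_nc μ M T).1 hF
      exact ⟨⟨ni q ⟨_, hk⟩, 0, x / (M + 3), u⟩, dm_no μ M T ((inF_ni μ M T).2
        ⟨hn.symm, c, pw' M T c d, f⟩) rfl, h1, by simp [Mc.A0], h2, rfl, rfl, ⟨_, hk⟩, rfl, hx⟩
  · simp only [Mc.B0] at h2
    split_ifs at h2 with hk
    · simp at h2
    · have h3 : v = ni q 0 := by simpa using h2
      subst h3
      exact ⟨⟨ni q k, t, x, u⟩, dm_no μ M T ((inF_ni μ M T).2 ((inF_ni μ M T).1 hF)) rfl, h1,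
        by simp [Mc.A0, hk], by simp [Mc.B0, hk], rfl, rfl, rfl⟩

/-- The finite set of points. -/
def F : Finset (Pt Q M) := (finF μ M T).toFinset

lemma mem_F {p : Pt Q M} : p ∈ F μ M T ↔ InF μ M T p := by
  simp [F]

/-- The model. -/
def mdl : Mdl (μ.sys M) (Pt Q M) where
  nd p := p.v
  sh := sh M
  bot d p := p.u d = 0
  F := F μ M T
  Bad := Bad μ M T
  Mt r p p' := if r.2 then Mt0 μ M T r.1 p' p else Mt0 μ M T r.1 p p'
  nd_sh _ _ := rfl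
  sh_inj d p p' h := by
    have h1 := congrArg Pt.v h
    have h2 := congrArg Pt.t h
    have h3 := congrArg Pt.x h
    have h4 := congrArg Pt.u h
    exact Pt.ext h1 h2 h3 (add_right_cancel h4)
  cas d p := (v4 p.u d).imp id fun ⟨w, hw⟩ => ⟨⟨p.v, p.t, p.x, w⟩, Pt.ext rfl rfl rfl hw⟩
  nbot d p := v9
  bx d d' p hd h h' := by
    rw [mem_F] at h h' ⊢
    exact ⟨h.1, h.2.1, h.2.2.1, v6 hd h.2.2.2 h'.2.2.2⟩
  m0 := by
    rintro ⟨r, _ | _⟩ p p' h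
    · exact ⟨(mem_F μ M T).2 h.1.1, (mem_F μ M T).2 h.2.1.1, h.2.2.1, h.2.2.2.1⟩
    · exact ⟨(mem_F μ M T).2 h.2.1.1, (mem_F μ M T).2 h.1.1, h.2.2.2.1, h.2.2.1⟩
  ur := by
    rintro ⟨r, _ | _⟩ p p1 p2 h1 h2
    · exact ur0 μ M T h1 h2
    · exact ul0 μ M T h1 h2
  ul := by
    rintro ⟨r, _ | _⟩ p1 p2 p h1 h2
    · exact ul0 μ M T h1 h2
    · exact ur0 μ M T h1 h2
  m2 := by
    rintro ⟨r, _ | _⟩ p p' h
    · exact ⟨fun a => (mem_F μ M T).2 (h.1.2 a), fun a => (mem_F μ M T).2 (h.2.1.2 a)⟩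
    · exact ⟨fun a => (mem_F μ M T).2 (h.2.1.2 a), fun a => (mem_F μ M T).2 (h.1.2 a)⟩
  da := by
    rintro ⟨r, _ | _⟩ d p p1 hd h
    · exact da0 μ M T hd h
    · exact db0 μ M T hd h
  db := by
    rintro ⟨r, _ | _⟩ d p1 p hd h
    · exact db0 μ M T hd h
    · exact da0 μ M T hd h
  m4 := by
    rintro ⟨r, _ | _⟩ p h1 h2 h3 h4
    · exact m4A μ M T ⟨(mem_F μ M T).1 h1, fun a => (mem_F μ M T).1 (h3 a)⟩ h2
    · exact m4B μ M T ⟨(mem_F μ M T).1 h1, fun a => (mem_F μ M T).1 (h3 a)⟩ h2 h4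

lemma card_nc (hT : 1 ≤ T) :
    ((F μ M T).filter fun p => p.v = nc Q M).card = (M + 3) ^ T := by
  rw [← card_range ((M + 3) ^ T)]
  symm
  refine card_bij (fun x _ => (⟨nc Q M, 0, x, 0⟩ : Pt Q M)) (fun x hx => ?_)
    (fun x _ y _ h => congrArg Pt.x h) fun p hp => ?_
  · exact mem_filter.2 ⟨(mem_F μ M T).2 ((inF_nc μ M T).2 ⟨rfl, hT, mem_range.1 hx, le_rfl⟩), rfl⟩
  · obtain ⟨v, t, x, u⟩ := p
    obtain ⟨h1, h2⟩ := mem_filter.1 hp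
    dsimp only at h2
    subst h2
    obtain ⟨rfl, c, d, f⟩ := (inF_nc μ M T).1 ((mem_F μ M T).1 h1)
    exact ⟨x, mem_range.2 d, Pt.ext rfl rfl rfl (le_antisymm zero_le f)⟩

end MODB

theorem stMODB : St_MODB := fun Q _ _ μ M T hT =>
  ⟨MODB.Pt Q M, MODB.mdl μ M T, MODB.card_nc μ M T hT, MODB.card_Bad μ M T⟩

end Pool.Agent.Lib.MP_3b2820_co.H61
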