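import Pool.Agent.Lib.MP_3b2820_h61.Blue

/-!
The tree properties from the local ones, and the star with three arms.
-/

set_option autoImplicit false
set_option linter.unusedSectionVars false
set_option linter.unnecessarySeqFocus false

open Finset

namespace Pool.Agent.Lib.MP_3b2820_co.H61

section gl
variable {D N R : Type} [DecidableEq D] [DecidableEq N] [DecidableEq R] [Fintype D] [Fintype N]
  [Fintype R] {σ : Sy D N R} {pa : ℕ → ℕ} {dr : ℕ → D} {n : ℕ} {h : Finset (Gv N R) → ℝ} {Δ : ℝ}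

lemma step_loc {ι κ : Type} [DecidableEq ι] [DecidableEq κ] {h : Finset ι → ℝ}
    (sub : ∀ A B, h (A ∪ B) + h (A ∩ B) ≤ h A + h B) (g : κ → ι)
    (hφ : Poly fun A : Finset κ => h (A.image g)) (T U : Finset κ) {V : Finset ι}
    (hU : ∀ y ∈ U, g y ∈ V) :
    h (V ∪ T.image g) ≤ h V + cnd (fun A : Finset κ => h (A.image g)) T U := by
  have a1 := sub V ((T ∪ U).image g)
  have e1 : V ∪ (T ∪ U).image g = V ∪ T.image g := by
    ext x
    simp only [Finset.mem_union, Finset.mem_image]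
    grind
  have e2 : V ∩ (T ∪ U).image g = ((T ∪ U).filter fun y => g y ∈ V).image g := by
    ext x
    simp only [Finset.mem_inter, Finset.mem_image, Finset.mem_filter]
    grind
  have a2 := hφ.mono U ((T ∪ U).filter fun y => g y ∈ V) fun y hy =>
    Finset.mem_filter.2 ⟨Finset.mem_union_right _ hy, hU y hy⟩
  rw [e1, e2] at a1
  unfold cnd
  linarith

lemma im_lxs (p j : ℕ) (b : Bool) (E : Finset N) :
    (lxs R b E).image (eG p j) = Xs R {if b then j else p} E := by
  cases b <;> ext ⟨q, (v | r) | v⟩ <;> simp [lxs, eG, Finset.image_image] <;> grind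

lemma im_lss (p : ℕ) {j : ℕ} (hj : j ≠ 0) (E : Finset N) :
    (lss R E).image (eG p j) = Ss R {j} E := by
  ext ⟨q, (v | r) | v⟩ <;> simp [lss, eG, Finset.image_image] <;> grind

lemma eG_l (p j : ℕ) (b : Bool) (l : N ⊕ R) :
    (eG p j (.inl (b, l)) : Gv N R) = (if b then j else p, .inl l) := by
  cases b <;> rfl

theorem gl_of_loc (hn : 1 ≤ n) (hpa : ∀ k, pa (k + 1) ≤ k) (emp : h ∅ = 0)
    (sub : ∀ A B, h (A ∪ B) + h (A ∩ B) ≤ h A + h B)
    (hF : ∀ k < n, LF σ (dr (k + 1)) (fun A => h (A.image (eG (pa (k + 1)) (k + 1)))) Δ)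
    (hC : ∀ k < n, LC σ (dr (k + 1)) (fun A => h (A.image (eG (pa (k + 1)) (k + 1)))) Δ)
    (hm : ∀ k < n, h (upTo (k + 1)) + h (lev N (pa (k + 1)))
      = h (upTo k) + h (cop (pa (k + 1)) (k + 1))) : Gl σ pa dr n h Δ := by
  have hF' : ∀ j ≤ n, j ≠ 0 → LF σ (dr j) (fun A => h (A.image (eG (pa j) j))) Δ := by
    rintro (_ | k) hj h0
    exacts [absurd rfl h0, hF k hj]
  have st : ∀ j ≤ n, j ≠ 0 → ∀ (i : Jf N R) (V : Finset (Gv N R)),
      (∀ y ∈ uf σ (dr j) i, eG (pa j) j y ∈ V) →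
      h (V ∪ (tf σ (dr j) i).image (eG (pa j) j)) ≤ h V + Δ := fun j hj h0 i V hV => by
    have := step_loc sub _ (hF' j hj h0).po (tf σ (dr j) i) _ hV
    have := (hF' j hj h0).fd i
    linarith
  have sc : ∀ j ≤ n, j ≠ 0 → ∀ (i : Jc N R) (V : Finset (Gv N R)),
      (∀ y ∈ uc σ (dr j) i, eG (pa j) j y ∈ V) → h (V ∪ (tc σ (dr j) i).image (eG (pa j) j))
        ≤ h V + (∑ y ∈ nm σ (dr j) i, h {eG (pa j) j y} + Δ) := by
    rintro (_ | k) hj h0 i V hV
    · exact absurd rfl h0
    have := step_loc sub _ (hF' _ hj h0).po (tc σ (dr (k + 1)) i) _ hV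
    have := hC k hj i
    simp only [Finset.image_singleton] at this
    linarith
  have lv : ∀ p ≤ n, ∃ j b, j ≤ n ∧ j ≠ 0 ∧ (if b = true then j else pa j) = p := by
    rintro (_ | k) hp
    · exact ⟨1, false, hn, one_ne_zero, by simpa using hpa 0⟩
    · exact ⟨k + 1, true, hp, by omega, by simp⟩
  have nn : 0 ≤ Δ := (hF 0 hn).nn
  refine ⟨nn, emp, sub, fun p hp v V => ?_, fun j hj h0 v V h1 h2 => ?_,
    fun j hj h0 v V h1 h2 => ?_, fun p hp r V h1 => ?_, fun p hp r V h1 h2 => ?_,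
    fun p hp r V h1 h2 => ?_, fun j hj h0 r V h1 h2 h3 h4 => ?_,
    fun j hj h0 r v V h1 h2 h3 h4 => ?_, fun j hj h0 r V h1 h2 => ?_,
    fun j hj h0 r V h1 h2 h3 h4 => ?_, fun k hk => ?_⟩
  · obtain ⟨j, b, hj, h0, rfl⟩ := lv p hp
    simpa [cnd, emp, eG_l] using step_loc sub _ (hF' j hj h0).po {lx R b v} ∅ (V := V) (by simp)
  · simpa [tf, eG] using st j hj h0 (.inl (false, v)) V (by simp [uf, eG, h1, h2])
  · simpa [tf, eG] using st j hj h0 (.inl (true, v)) V (by simp [uf, eG, h1, h2])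
  · obtain ⟨j, b, hj, h0, rfl⟩ := lv p hp
    simpa [tf, eG_l] using st j hj h0 (.inr (.inl (b, none, r))) V (by
      rintro (⟨b, v | r⟩ | v) <;> simp [uf, eG_l]
      rintro rfl hv
      exact h1 v (Finset.mem_union.2 hv))
  · obtain ⟨j, b, hj, h0, rfl⟩ := lv p hp
    simpa [tf, im_lxs] using st j hj h0 (.inr (.inl (b, some false, r))) V (by
      rintro (⟨b, v | r⟩ | v) <;> simp [uf, eG_l] <;> grind)
  · obtain ⟨j, b, hj, h0, rfl⟩ := lv p hp
    simpa [tf, im_lxs] using st j hj h0 (.inr (.inl (b, some true, r))) V (by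
      rintro (⟨b, v | r⟩ | v) <;> simp [uf, eG_l] <;> grind)
  · simpa [tf, h1, im_lss _ h0] using st j hj h0 (.inr (.inr r)) V (by
      rintro (⟨_ | _, v | r⟩ | v) <;> simp [uf, eG, h1] <;> grind)
  · have hv : v ∈ Eu σ r := Finset.mem_filter.2 ⟨h2, h3⟩
    simpa [tc, nm, h1, hv, eG] using sc j hj h0 (.inl (r, v)) V (by simp [uc, h1, hv, eG, h4])
  · simpa [tc, nm, h1, eG, sum_lxs] using sc j hj h0 (.inr r) V (by
      rintro (⟨_ | _, v | r⟩ | v) <;> simp [uc, eG, h1] <;> grind)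
  · simpa [tc, nm, h1, h2, eG, sum_lxs] using sc j hj h0 (.inr r) V (by
      rintro (⟨_ | _, v | r⟩ | v) <;> simp [uc, eG, h1, h2] <;> grind)
  · have e : ∀ k, mw h (upTo k) = ∑ v, ∑ p ∈ Finset.range (k + 1), h {gx R p v} := fun k => by
      rw [← mw_Xs]
      exact mw_congr h fun p v => by simp [mem_upTo]
    have hlev : ∀ p j, (lev N p : Finset (Gv N R))
        = (lxs R false Finset.univ ∪ Finset.univ.image (lr N false)).image (eG p j) := by
      intro p j
      ext ⟨q, (v | r) | v⟩ <;> simp [mem_lev, lxs, eG, Finset.image_union, Finset.image_image] <;>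
        grind
    have hR : (Fintype.card R : ℝ) + 1 ≤ Cy N R := by
      have : Fintype.card R ≤ Fintype.card ((N ⊕ R) ⊕ N) := by simp; omega
      unfold Cy
      exact_mod_cast Nat.succ_le_succ this
    have hR' := mul_le_mul_of_nonneg_right hR nn
    have hR0 : 0 ≤ (Fintype.card R : ℝ) * Δ := by positivity
    rw [e]
    induction k with
    | zero =>
      have H := hF 0 hn
      have a := H.low (M := lxs R false Finset.univ) Finset.subset_union_left
        (Finset.subset_union_left (s₂ := Finset.univ.image (lr N false)))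
      have p0 : pa 1 = 0 := by simpa using hpa 0
      have e0 : (upTo 0 : Finset (Gv N R)) = lev N 0 := by
        ext c
        simp only [mem_upTo, mem_lev]
        grind
      rw [sum_lxs] at a
      simp only [zero_add, p0, Finset.image_singleton, eG] at a
      rw [e0, hlev 0 1]
      simp only [zero_add, Finset.range_one, Finset.sum_singleton, Nat.cast_zero, one_mul]
      linarith
    | succ k ih =>
      have H := hF k hk
      have a1 := H.low (M := lM N R) subset_rfl (Finset.subset_univ _)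
      have a2 := H.po.le_add_cnd (A := lxs R false Finset.univ ∪ Finset.univ.image (lr N false))
        (Finset.univ.image (lr N false)) (lxs R false Finset.univ) (by rw [Finset.union_comm])
      have a3 := H.po.le_sum (lxs R false Finset.univ)
      have a4 := H.po.cover Finset.univ (fun r => {lr N false r}) (fun _ => lxs R false Finset.univ)
        (A := Finset.univ.image (lr N false)) (B := lxs R false Finset.univ)
        (fun x hx => Or.inr (by simpa [eq_comm] using hx)) (fun _ _ => subset_rfl)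
      have a5 := Finset.sum_le_card_nsmul Finset.univ _ Δ fun r _ =>
        H.rr false r (Y := lxs R false Finset.univ) (by simp)
      have a6 := hm k hk
      have a7 := ih (by omega)
      rw [lM, Finset.sum_union (by
        rw [Finset.disjoint_left]
        rintro (⟨b, v | r⟩ | v) <;> simp), sum_lxs, sum_lxs] at a1
      rw [sum_lxs] at a3
      rw [hlev _ (k + 1), cop] at a6
      simp only [Finset.image_singleton, eG, nsmul_eq_mul, Finset.card_univ] at a1 a3 a5
      simp only [Finset.sum_range_succ _ (k + 1), Finset.sum_add_distrib]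
      push_cast
      linarith

end gl

section star
variable {N R : Type} [DecidableEq N] [DecidableEq R] [Fintype N] [Fintype R]

/-- The arm of a position. -/
def sdr (j : ℕ) : Fin 3 := ⟨(j - 1) % 3, Nat.mod_lt _ (by norm_num)⟩
/-- The level of a position. -/
def slv (e : Bool) (j : ℕ) : Bool := xor e (decide ((j + 2) / 3 % 2 = 1))
/-- The positions of an index. -/
def sS (i : Fin 3 → ℕ) : Finset ℕ :=
  (Finset.range (3 * (i 0 + i 1 + i 2) + 1)).filter fun j => j = 0 ∨ (j - 1) / 3 < i (sdr j)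

lemma mem_sS (i : Fin 3 → ℕ) (j : ℕ) : j ∈ sS i ↔ j = 0 ∨ (j - 1) / 3 < i (sdr j) := by
  have : ∀ d, i d ≤ i 0 + i 1 + i 2 := fun d => by fin_cases d <;> simp <;> omega
  have := this (sdr j)
  simp only [sS, Finset.mem_filter, Finset.mem_range]
  omega

lemma sdr_eq (j : ℕ) (d : Fin 3) : sdr j = d ↔ (j - 1) % 3 = d := by simp [sdr, Fin.ext_iff]

lemma sS_succ (i : Fin 3 → ℕ) (d : Fin 3) :
    sS (i + Pi.single d 1) = insert (3 * i d + d + 1) (sS i) := by
  ext j
  have := d.isLt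
  simp only [mem_sS, Finset.mem_insert, Pi.add_apply]
  by_cases h : sdr j = d
  · rw [h, Pi.single_eq_same]
    rw [sdr_eq] at h
    omega
  · rw [Pi.single_eq_of_ne h]
    rw [sdr_eq] at h
    omega

lemma sS_zero : sS 0 = {0} := by
  ext j
  simp [mem_sS]

lemma sS_sub (σ : Sy (Fin 3) N R) (r : R) {i : Fin 3 → ℕ} {k : ℕ} (hi : ∀ d, i d ≤ k)
    (hp : ∀ d, i d ≠ 0 → σ.pr r d = true) :
    Sub σ (fun j => j - 3) sdr (3 * (k + 1)) r (sS i) (3 * i (σ.δ r) + σ.δ r + 1) := by
  have h3 := (σ.δ r).isLt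
  have h4 := hi (σ.δ r)
  have hd : ∀ a, sdr (3 * a + σ.δ r + 1) = σ.δ r := fun a => by rw [sdr_eq]; omega
  have hp3 : ∀ j, 3 < j → sdr (j - 3) = sdr j := fun j hj => by
    rw [sdr_eq]
    simp only [sdr]
    omega
  refine ⟨fun p hp => ?_, by omega, ?_, by simp [mem_sS], ?_, hd _, fun j hj h0 => ?_,
    fun p hp => ?_⟩
  · rw [mem_sS] at hp
    have := hi (sdr p)
    omega
  · rw [mem_sS, hd]
    omega
  · rw [mem_sS]
    by_cases h : 3 < 3 * i (σ.δ r) + σ.δ r + 1
    · rw [hp3 _ h, hd]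
      omega
    · omega
  · rw [mem_sS] at hj
    refine ⟨?_, by omega, hp _ (by omega)⟩
    rw [mem_sS]
    by_cases h : 3 < j
    · rw [hp3 _ h]
      omega
    · omega
  · by_cases h : p ≠ 0 ∧ sdr p ≠ σ.δ r
    · exact Or.inl h
    · rw [← sS_succ]
      rw [mem_sS] at hp
      by_cases h0 : p = 0
      · refine Or.inr ⟨3 * 0 + σ.δ r + 1, ?_, by omega, by omega, hd 0⟩
        rw [mem_sS, hd]
        simp only [Pi.add_apply, Pi.single_eq_same]
        omega
      · have h1 : sdr p = σ.δ r := by tauto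
        have h2 : sdr (p + 3) = σ.δ r := by rw [← hp3 _ (by omega), ← h1]; simp
        refine Or.inr ⟨p + 3, ?_, by omega, by omega, h2⟩
        rw [mem_sS, h2]
        rw [h1] at hp
        simp only [Pi.add_apply, Pi.single_eq_same]
        omega

lemma ex_sS (σ : Sy (Fin 3) N R) (r : R) (i : Fin 3 → ℕ) (v : N) :
    ex σ r (sS i) (3 * i (σ.δ r) + σ.δ r + 1) v = sS (shf σ r v i) := by
  unfold ex shf
  split_ifs
  · rw [sS_succ]
  · rfl

lemma yr0 {D : Type} (σ : Sy D N R) (r : R) {j : ℕ} (hj : j ≠ 0) (E : Finset N) :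
    Yr σ r {0} j E = ({lr N false r} ∪ lss R E).image (eG 0 j) := by
  rw [Finset.image_union, im_lss _ hj]
  ext ⟨q, (w | r) | w⟩ <;> simp [eG, Yr]

lemma yr1 {D : Type} (σ : Sy D N R) (r : R) {j : ℕ} (hj : j ≠ 0) (l : ℕ) :
    Yr σ r {j, 0} l ∅
      = ({lr N false r, lr N true r} ∪ lss R (σ.A r ∪ σ.B r)).image (eG 0 j) := by
  rw [Finset.image_union, im_lss _ hj]
  ext ⟨q, (w | r) | w⟩ <;> simp [eG, Yr] <;> grind

lemma zf1 (h : Finset (Gv N R) → ℝ) (v : N) {j : ℕ} (hj : j ≠ 0) : Zf h v {j, 0}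
    = h (({lx R false v, lx R true v, ls R v} : Finset (Lv N R)).image (eG 0 j))
      - h (({ls R v} : Finset (Lv N R)).image (eG 0 j)) := by
  unfold Zf
  congr 2 <;> ext ⟨q, (w | r) | w⟩ <;> simp [eG] <;> grind

lemma zf2 (S : Finset ℕ) (v : N) : Ss R S {v} ∪ S.biUnion (fun q => {gx R q v})
    = Xs R S {v} ∪ Ss R S {v} := by
  ext ⟨q, (w | r) | w⟩ <;> simp

/-- The constant of the star. -/
def C1 (N R : Type) [Fintype N] [Fintype R] : ℝ := 8 * ((7 + Cy N R) * Cy N R)

/-- The links between the star and the base system. -/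
structure Lk (σ : Sy (Fin 3) N R) (f : Finset (Bv (Fin 3) N R) → ℝ) (e : Bool)
    (Z : N → (Fin 3 → ℕ) → ℝ) (ε : ℝ) : Prop where
  k0 : ∀ v, Z v 0 = fx f e v
  k1 : ∀ v d, Z v (Pi.single d 1)
    = fl f e d {lx R false v, lx R true v, ls R v} - fl f e d {ls R v}
  k2 : ∀ r, ∀ E ⊆ Eu σ r, |fl f e (σ.δ r) ({lr N false r} ∪ lss R E)
    - (∑ v ∈ σ.A r ∪ σ.B r, fx f e v + ∑ v ∈ E, fx f (!e) v - ∑ v ∈ σ.A r, Z v (shf σ r v 0))| ≤ ε
  k3 : ∀ r d, σ.pr r d = true → |fl f e d ({lr N false r, lr N true r} ∪ lss R (σ.A r ∪ σ.B r))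
    - (∑ v ∈ σ.A r ∪ σ.B r, (fx f e v + fx f (!e) v)
      - ∑ v ∈ σ.A r, Z v (shf σ r v (Pi.single d 1)))| ≤ ε

theorem star (σ : Sy (Fin 3) N R) {f : Finset (Bv (Fin 3) N R) → ℝ} (hf : Adm f) (e : Bool) :
    ∃ b : ℝ, 0 ≤ b ∧ ∀ n, 3 ≤ n → ∃ Z : N → (Fin 3 → ℕ) → ℝ,
      ZR σ Z n (C1 N R * (cs σ).err f) ∧ ZB Z n b ∧ Lk σ f e Z (C1 N R * (cs σ).err f) := by
  obtain ⟨hP, Ω, α, ζ, _, p, Y, Z0, ν, hp, hfe⟩ := hf
  set b0 : ℝ := ∑ y, (|ν y| + f {y}) with hb0
  have nb : ∀ y, 0 ≤ |ν y| + f {y} := fun y => add_nonneg (abs_nonneg _) (hP.nonneg _)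
  have b1 : ∀ y, |ν y| + f {y} ≤ b0 := fun y =>
    Finset.single_le_sum (f := fun y => |ν y| + f {y}) (fun y _ => nb y) (Finset.mem_univ y)
  have b2 : 0 ≤ b0 := Finset.sum_nonneg fun y _ => nb y
  refine ⟨4 * b0, by positivity, fun n hn => ?_⟩
  have hl : ∀ k, slv e (k + 1) = !slv e (k + 1 - 3) := by
    intro k
    have : (k + 1 + 2) / 3 % 2 = 1 ↔ ¬(k + 1 - 3 + 2) / 3 % 2 = 1 := by omega
    simp only [slv, this, decide_not]
    cases e <;> simp
  obtain ⟨h, emp, sub, hc, hm, hlow⟩ := exists_tree (L := N ⊕ R) (N := N) hp Y Z0 ν (fun j => j - 3)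
    (fun k => by omega) (fun j l => (slv e j, .inl l)) (fun j => eB (slv e (j - 3)) (sdr j))
    (fun k => eB_inj _ _) (fun k l => by simp [eB]) (fun k l => by simp [eB, hl]) (3 * n)
  have hc' : ∀ t < 3 * n, (fun A => h (A.image (eG (t + 1 - 3) (t + 1))))
      = fl f (slv e (t + 1 - 3)) (sdr (t + 1)) := fun t ht => funext fun A => by
    rw [hc t ht A, hfe]
    rfl
  have hΔ := (cs_ok σ).err_nonneg hP
  set Δ := (cs σ).err f
  have G : Gl σ (fun j => j - 3) sdr (3 * n) h Δ := gl_of_loc (by omega) (fun k => by omega) emp sub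
    (fun k hk => by rw [hc' k hk]; exact lf_of hP ((cs_ok σ).err0_le hP) _ _)
    (fun k hk => by rw [hc' k hk]; exact lc_of hP _ _) hm
  have c1 : ∀ (d : Fin 3) A, h (A.image (eG 0 (d + 1))) = fl f e d A := by
    intro d A
    have := d.isLt
    have h1 := congrFun (hc' d (by omega)) A
    have h2 : sdr (d + 1) = d := by rw [sdr_eq]; omega
    rw [h2, show (d : ℕ) + 1 - 3 = 0 by omega] at h1
    simpa [slv] using h1
  have c2 : ∀ v, h {gx R 0 v} = fx f e v := fun v => by
    simpa [eG, fl, eB, fx] using c1 0 {lx R false v}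
  have c3 : ∀ (d : Fin 3) v, h {gx R (d + 1) v} = fx f (!e) v := fun d v => by
    simpa [eG, fl, eB, fx] using c1 d {lx R true v}
  have c4 : ∀ q ≤ 3 * n, ∀ v, h {gx R q v} ≤ b0 := by
    rintro (_ | q) hq v
    · rw [c2]
      exact le_trans (le_add_of_nonneg_left (abs_nonneg _)) (b1 _)
    · have := congrFun (hc' q hq) {lx R true v}
      simp only [Finset.image_singleton, eG, fl] at this
      rw [this]
      exact le_trans (le_add_of_nonneg_left (abs_nonneg _)) (b1 _)
  have cy := one_le_Cy (N := N) (R := R)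
  have ce : ∀ k : ℕ, (7 + Cy N R) * ((((3 * (k + 1) : ℕ) : ℝ) + 1) * Cy N R * Δ)
      ≤ (k + 1) * (4 * ((7 + Cy N R) * Cy N R) * Δ) := by
    intro k
    have : 0 ≤ (k : ℝ) * ((7 + Cy N R) * Cy N R * Δ) := by positivity
    push_cast
    nlinarith
  have cz : 0 ≤ (7 + Cy N R) * Cy N R * Δ := by positivity
  have s1 : ∀ d : Fin 3, sS (Pi.single d 1) = {d.val + 1, 0} := fun d => by
    simpa [sS_zero] using sS_succ 0 d
  refine ⟨fun v i => Zf h v (sS i), fun r i k hi hk hp => ?_, fun v i k hi hk => ?_, fun v => ?_,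
    fun v d => ?_, fun r E hE => ?_, fun r d hd => ?_⟩
  · have := G.rel (fun j => Nat.sub_le j 3) (by omega) (sS_sub σ r hi hp)
    have := ce k
    have : 0 ≤ ((k : ℝ) + 1) * ((7 + Cy N R) * Cy N R * Δ) := by positivity
    simp only [ex_sS] at *
    unfold C1
    linarith
  · have hS : ∀ q ∈ sS i, q ≤ 3 * k := fun q hq => by
      rw [mem_sS] at hq
      have := hi (sdr q)
      omega
    have hc : ((sS i).card : ℝ) ≤ 3 * k + 1 := by
      have := Finset.card_le_card (t := Finset.range (3 * k + 1)) fun q hq =>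
        Finset.mem_range.2 (Nat.lt_succ_of_le (hS q hq))
      rw [Finset.card_range] at this
      exact_mod_cast this
    have a1 := hlow (Xs R (sS i) {v}) (Ss R (sS i) {v}) b0 b2
      fun y => le_trans (le_add_of_nonneg_right (hP.nonneg _)) (b1 y)
    have a2 := add_family (h := h) (sS i) (fun q => {gx R q v}) (fun _ => b0) (fun _ => 0)
      (Ss R (sS i) {v}) fun q hq W _ _ _ => by
        have := G.mx q ((hS q hq).trans (by omega)) v W
        have := c4 q ((hS q hq).trans (by omega)) v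
        linarith
    have e2 : (Xs R (sS i) {v}).card = (sS i).card := by simp [Xs]
    rw [zf2, Finset.sum_const, nsmul_eq_mul] at a2
    rw [e2] at a1
    have := mul_le_mul_of_nonneg_right hc b2
    have : 0 ≤ (k : ℝ) * b0 := by positivity
    unfold Zf
    rw [abs_le]
    constructor <;> linarith
  · rw [← c2]
    simp [Zf, sS_zero, Ss, Xs, emp]
  · rw [← c1, ← c1, s1, zf1 _ _ (Nat.succ_ne_zero _)]
  · have a := G.val (fun j => Nat.sub_le j 3) (by omega)
      (sS_sub σ r (i := 0) (k := 0) (by simp) (by simp)) hE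
    have := ce 0
    simp only [ex_sS] at a
    simp only [sS_zero, Pi.zero_apply, mul_zero, zero_add, Finset.sum_singleton, c2, c3] at a
    rw [yr0 _ _ (Nat.succ_ne_zero _), c1] at a
    refine a.trans ?_
    unfold C1
    push_cast at *
    linarith
  · have a := G.val (fun j => Nat.sub_le j 3) (by omega)
      (sS_sub σ r (i := Pi.single d 1) (k := 1) (fun d' => by
        by_cases h : d' = d <;> simp [h]) (fun d' h => by
        by_cases h' : d' = d
        · rw [h', hd]
        · exact absurd (Pi.single_eq_of_ne h' _) h)) (Finset.empty_subset _)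
    have := ce 1
    simp only [ex_sS] at a
    rw [s1, yr1 _ _ (Nat.succ_ne_zero _), c1] at a
    simp only [Finset.sum_pair (Nat.succ_ne_zero d.val), c2, c3, Finset.sum_empty, add_zero,
      add_comm (fx f (!e) _)] at a
    refine a.trans ?_
    unfold C1
    push_cast at *
    linarith

end star

end Pool.Agent.Lib.MP_3b2820_co.H61
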