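import Pool.Agent.Lib.MP_3b2820_h61.Tree

/-!
Approximate linear relations between the conditional values on subtrees.
-/

set_option autoImplicit false
set_option linter.unusedSectionVars false
set_option linter.unnecessarySeqFocus false

open Finset

namespace Pool.Agent.Lib.MP_3b2820_co.H61

/-- A system of relations between nodes. -/
structure Sy (D N R : Type) where
  /-- Left side. -/
  A : R → Finset N
  /-- Right side. -/
  B : R → Finset N
  /-- Direction of the shifts. -/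
  δ : R → D
  /-- Shifted nodes. -/
  up : R → N → Bool
  /-- Directions along which the relation propagates. -/
  pr : R → D → Bool
  disj : ∀ r, Disjoint (A r) (B r)

lemma add_family {ι κ : Type} [DecidableEq ι] [DecidableEq κ] {h : Finset ι → ℝ} (s : Finset κ)
    (T : κ → Finset ι) (c : κ → ℝ) (rk : κ → ℕ) (V : Finset ι)
    (H : ∀ i ∈ s, ∀ W, V ⊆ W → (∀ j ∈ s, rk j < rk i → T j ⊆ W) →
      (∀ x ∈ W, x ∈ V ∨ ∃ j ∈ s, j ≠ i ∧ x ∈ T j) → h (W ∪ T i) ≤ h W + c i) :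
    h (V ∪ s.biUnion T) ≤ h V + ∑ i ∈ s, c i := by
  induction s using Finset.induction_on_max_value rk with
  | empty => simp
  | insert a s ha hm ih =>
    have h1 := ih fun i hi W hW h2 h3 => H i (Finset.mem_insert_of_mem hi) W hW
      (fun j hj hlt => by
        rcases Finset.mem_insert.1 hj with rfl | hj
        · have := hm i hi
          omega
        · exact h2 j hj hlt)
      (fun x hx => (h3 x hx).imp id fun ⟨j, hj, h4⟩ => ⟨j, Finset.mem_insert_of_mem hj, h4⟩)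
    have h2 := H a (Finset.mem_insert_self a s) (V ∪ s.biUnion T) Finset.subset_union_left
      (fun j hj hlt => by
        rcases Finset.mem_insert.1 hj with rfl | hj
        · omega
        · exact (Finset.subset_biUnion_of_mem T hj).trans Finset.subset_union_right)
      (fun x hx => by
        rcases Finset.mem_union.1 hx with h | h
        · exact Or.inl h
        · obtain ⟨j, hj, h⟩ := Finset.mem_biUnion.1 h
          exact Or.inr ⟨j, Finset.mem_insert_of_mem hj, fun e => ha (e ▸ hj), h⟩)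
    rw [Finset.biUnion_insert, Finset.sum_insert ha, Finset.union_comm (T a), ← Finset.union_assoc]
    linarith

lemma zstep {ι : Type} [DecidableEq ι] {h : Finset ι → ℝ}
    (sub : ∀ A B, h (A ∪ B) + h (A ∩ B) ≤ h A + h B) {W T U : Finset ι} (hU : U ⊆ W)
    (hd : ∀ x ∈ W, x ∉ T) : h (W ∪ T) ≤ h W + (h (T ∪ U) - h U) := by
  have h1 := sub W (T ∪ U)
  have e1 : W ∪ (T ∪ U) = W ∪ T := by
    ext x
    have := @hU x
    simp only [Finset.mem_union]
    tauto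
  have e2 : W ∩ (T ∪ U) = U := by
    ext x
    have := @hU x
    have := hd x
    simp only [Finset.mem_union, Finset.mem_inter]
    tauto
  rw [e1, e2] at h1
  linarith

/-- Variables of the tree. -/
abbrev Gv (N R : Type) : Type := ℕ × ((N ⊕ R) ⊕ N)

section defs
variable {D N R : Type} [DecidableEq D] [DecidableEq N] [DecidableEq R] [Fintype N] [Fintype R]

/-- Main variable. -/
abbrev gx (R : Type) (p : ℕ) (v : N) : Gv N R := (p, .inl (.inl v))
/-- Relation syndrome. -/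
abbrev gr (N : Type) (p : ℕ) (r : R) : Gv N R := (p, .inl (.inr r))
/-- Step syndrome. -/
abbrev gs (R : Type) (p : ℕ) (v : N) : Gv N R := (p, .inr v)

/-- Main variables. -/
def Xs (R : Type) [DecidableEq R] (S : Finset ℕ) (E : Finset N) : Finset (Gv N R) :=
  S ×ˢ E.image fun v => .inl (.inl v)
/-- Step syndromes. -/
def Ss (R : Type) [DecidableEq R] (S : Finset ℕ) (E : Finset N) : Finset (Gv N R) :=
  S.erase 0 ×ˢ E.image fun v => .inr v
/-- Relation syndromes. -/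
def Ps (N : Type) [DecidableEq N] (S : Finset ℕ) (r : R) : Finset (Gv N R) :=
  S ×ˢ {.inl (.inr r)}

variable (S : Finset ℕ) (E : Finset N) (p : ℕ) (v : N) (r r' : R)
@[simp] lemma x_Xs : (p, Sum.inl (Sum.inl v)) ∈ Xs R S E ↔ p ∈ S ∧ v ∈ E := by simp [Xs]
@[simp] lemma r_Xs : (p, Sum.inl (Sum.inr r)) ∈ Xs R S E ↔ False := by simp [Xs]
@[simp] lemma s_Xs : (p, Sum.inr v) ∈ Xs R S E ↔ False := by simp [Xs]
@[simp] lemma x_Ss : (p, Sum.inl (Sum.inl v)) ∈ Ss R S E ↔ False := by simp [Ss]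
@[simp] lemma r_Ss : (p, Sum.inl (Sum.inr r)) ∈ Ss R S E ↔ False := by simp [Ss]
@[simp] lemma s_Ss : (p, Sum.inr v) ∈ Ss R S E ↔ (p ≠ 0 ∧ p ∈ S) ∧ v ∈ E := by simp [Ss]
@[simp] lemma x_Ps : (p, Sum.inl (Sum.inl v)) ∈ Ps N S r ↔ False := by simp [Ps]
@[simp] lemma r_Ps : (p, Sum.inl (Sum.inr r')) ∈ Ps N S r ↔ p ∈ S ∧ r' = r := by
  simp [Ps, eq_comm]
@[simp] lemma s_Ps : (p, Sum.inr v) ∈ Ps N S r ↔ False := by simp [Ps]

/-- Weight of a variable. -/
def wt (h : Finset (Gv N R) → ℝ) (c : Gv N R) : ℝ :=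
  Sum.elim (Sum.elim (fun _ => h {c}) fun _ => 0) (fun _ => 0) c.2

/-- Total weight of the main variables. -/
def mw (h : Finset (Gv N R) → ℝ) (T : Finset (Gv N R)) : ℝ := ∑ c ∈ T, wt h c

lemma mw_Xs (h : Finset (Gv N R) → ℝ) :
    mw h (Xs R S E) = ∑ v ∈ E, ∑ p ∈ S, h {gx R p v} := by
  unfold mw Xs
  rw [Finset.sum_product_right, Finset.sum_image fun a _ b _ h => by simpa using h]
  rfl

lemma mw_congr (h : Finset (Gv N R) → ℝ) {T T' : Finset (Gv N R)}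
    (H : ∀ p v, gx R p v ∈ T ↔ gx R p v ∈ T') : mw h T = mw h T' := by
  have : ∀ T : Finset (Gv N R), mw h T
      = ∑ c ∈ T.filter (fun c => ∃ v, c.2 = .inl (.inl v)), wt h c := fun T => by
    unfold mw
    rw [Finset.sum_filter]
    refine Finset.sum_congr rfl ?_
    rintro ⟨p, (v | r) | v⟩ - <;> simp [wt]
  rw [this, this]
  congr 1
  ext ⟨p, (v | r) | v⟩ <;> simp [H]

/-- The remaining value of a node on a subtree. -/
def Zf (h : Finset (Gv N R) → ℝ) (v : N) (S : Finset ℕ) : ℝ :=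
  h (Xs R S {v} ∪ Ss R S {v}) - h (Ss R S {v})

/-- A bound for the number of variables at a position. -/
def Cy (N R : Type) [Fintype N] [Fintype R] : ℝ := Fintype.card ((N ⊕ R) ⊕ N) + 1

/-- The properties of the set function on the tree. -/
structure Gl (σ : Sy D N R) (pa : ℕ → ℕ) (dr : ℕ → D) (n : ℕ) (h : Finset (Gv N R) → ℝ)
    (Δ : ℝ) : Prop where
  nn : 0 ≤ Δ
  emp : h ∅ = 0
  sub : ∀ A B, h (A ∪ B) + h (A ∩ B) ≤ h A + h B
  mx : ∀ p ≤ n, ∀ v V, h (V ∪ {gx R p v}) ≤ h V + h {gx R p v}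
  f3 : ∀ j ≤ n, j ≠ 0 → ∀ v V, gx R (pa j) v ∈ V → gs R j v ∈ V → h (V ∪ {gx R j v}) ≤ h V + Δ
  f4 : ∀ j ≤ n, j ≠ 0 → ∀ v V, gx R (pa j) v ∈ V → gx R j v ∈ V → h (V ∪ {gs R j v}) ≤ h V + Δ
  f6 : ∀ p ≤ n, ∀ r V, (∀ v ∈ σ.A r ∪ σ.B r, gx R p v ∈ V) → h (V ∪ {gr N p r}) ≤ h V + Δ
  fb : ∀ p ≤ n, ∀ r V, (∀ v ∈ σ.B r, gx R p v ∈ V) → gr N p r ∈ V →
    h (V ∪ Xs R {p} (σ.A r)) ≤ h V + Δ
  f1 : ∀ p ≤ n, ∀ r V, (∀ v ∈ σ.A r, gx R p v ∈ V) → gr N p r ∈ V →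
    h (V ∪ Xs R {p} (σ.B r)) ≤ h V + Δ
  fc : ∀ j ≤ n, j ≠ 0 → ∀ r V, σ.pr r (dr j) → (∀ v ∈ σ.A r, gs R j v ∈ V) →
    gr N (pa j) r ∈ V → gr N j r ∈ V → h (V ∪ Ss R {j} (σ.B r)) ≤ h V + Δ
  ca : ∀ j ≤ n, j ≠ 0 → ∀ r v V, dr j = σ.δ r → v ∈ σ.A r ∪ σ.B r → σ.up r v →
    gr N (pa j) r ∈ V → h (V ∪ {gs R j v}) ≤ h V + (h {gx R j v} + Δ)
  cb : ∀ j ≤ n, j ≠ 0 → ∀ r V, dr j = σ.δ r → (∀ v ∈ σ.A r, σ.up r v → gs R j v ∈ V) →
    h (V ∪ {gr N (pa j) r}) ≤ h V + (∑ v ∈ σ.B r, h {gx R (pa j) v} + Δ)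
  cc : ∀ j ≤ n, j ≠ 0 → ∀ r V, dr j ≠ σ.δ r → σ.pr r (dr j) → (∀ v ∈ σ.A r, gs R j v ∈ V) →
    gr N (pa j) r ∈ V → h (V ∪ {gr N j r}) ≤ h V + (∑ v ∈ σ.B r, h {gx R j v} + Δ)
  tot : ∀ k ≤ n, mw h (upTo k) - (k + 1) * Cy N R * Δ ≤ h (upTo k)

end defs

section gl
variable {D N R : Type} [DecidableEq D] [DecidableEq N] [DecidableEq R] [Fintype N] [Fintype R]
  {σ : Sy D N R} {pa : ℕ → ℕ} {dr : ℕ → D} {n : ℕ} {h : Finset (Gv N R) → ℝ} {Δ : ℝ}

lemma card_le_Cy (E : Finset N) : (E.card : ℝ) ≤ Cy N R := by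
  have h1 := Finset.card_le_univ E
  have h2 : Fintype.card N ≤ Fintype.card ((N ⊕ R) ⊕ N) + 1 := by simp; omega
  unfold Cy
  exact_mod_cast h1.trans h2

lemma one_le_Cy : (1 : ℝ) ≤ Cy N R := by
  unfold Cy
  have : (0 : ℝ) ≤ Fintype.card ((N ⊕ R) ⊕ N) := Nat.cast_nonneg _
  linarith

lemma card_le_up {k : ℕ} {W : Finset (Gv N R)} (hW : W ⊆ upTo k) :
    (W.card : ℝ) ≤ (k + 1) * Cy N R := by
  have h1 := Finset.card_le_card (hW.trans (Finset.filter_subset _ _))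
  rw [Finset.card_product, Finset.card_range, Finset.card_univ] at h1
  have h2 : (W.card : ℝ) ≤ (k + 1) * Fintype.card ((N ⊕ R) ⊕ N) := by exact_mod_cast h1
  unfold Cy
  have : (0 : ℝ) ≤ k := Nat.cast_nonneg _
  nlinarith

lemma Gl.fill (G : Gl σ pa dr n h Δ) {k : ℕ} (hk : k ≤ n) (V : Finset (Gv N R))
    {W : Finset (Gv N R)} (hW : W ⊆ upTo k)
    (h1 : ∀ p r, gr N p r ∈ W → ∀ v ∈ σ.A r ∪ σ.B r, gx R p v ∈ W)
    (h2 : ∀ j v, gs R j v ∈ W → gx R (pa j) v ∈ W ∧ gx R j v ∈ W) :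
    h (V ∪ W) ≤ h V + mw h (W \ V) + (k + 1) * Cy N R * Δ := by
  have a := add_family (h := h) (W \ V) (fun c => {c}) (fun c => wt h c + Δ)
    (fun c => Sum.elim (Sum.elim (fun _ => 0) fun _ => 1) (fun _ => 1) c.2) V (by
      rintro ⟨p, (v | r) | v⟩ hc U hU h3 -
      all_goals
        have hc1 := (Finset.mem_sdiff.1 hc).1
        have hc2 := (mem_upTo _ _).1 (hW hc1)
        have hx : ∀ p v, gx R p v ∈ W → (∀ j ∈ W \ V,
            Sum.elim (Sum.elim (fun _ => 0) fun _ => 1) (fun _ => 1) j.2 < 1 → {j} ⊆ U) →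
            gx R p v ∈ U := fun p v hv h3 => by
          by_cases h4 : gx R p v ∈ V
          · exact hU h4
          · exact h3 _ (Finset.mem_sdiff.2 ⟨hv, h4⟩) (by simp) (Finset.mem_singleton_self _)
      · have := G.mx p (hc2.1.trans hk) v U
        have := G.nn
        simp only [wt, Sum.elim_inl]
        linarith
      · have := G.f6 p (hc2.1.trans hk) r U fun v hv => hx _ _ (h1 p r hc1 v hv) h3
        simpa [wt] using this
      · have := G.f4 p (hc2.1.trans hk) (by simpa using hc2.2) v U (hx _ _ (h2 p v hc1).1 h3)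
          (hx _ _ (h2 p v hc1).2 h3)
        simpa [wt] using this)
  rw [Finset.biUnion_singleton_eq_self, Finset.union_sdiff_self_eq_union, Finset.sum_add_distrib,
    Finset.sum_const, nsmul_eq_mul] at a
  have b := mul_le_mul_of_nonneg_right (card_le_up (W := W \ V) (Finset.sdiff_subset.trans hW))
    G.nn
  unfold mw
  linarith

lemma Gl.low (G : Gl σ pa dr n h Δ) (hpa : ∀ j, pa j ≤ j) {k : ℕ} (hk : k ≤ n)
    {T : Finset (Gv N R)} (hT : T ⊆ upTo k) : mw h T - 2 * ((k + 1) * Cy N R * Δ) ≤ h T := by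
  have a := G.fill hk T (W := upTo k) subset_rfl (fun p r hr v _ => by
      simp only [mem_upTo] at hr ⊢
      exact ⟨hr.1, Or.inl rfl⟩) (fun j v hv => by
      simp only [mem_upTo] at hv ⊢
      exact ⟨⟨(hpa j).trans hv.1, Or.inl rfl⟩, hv.1, Or.inl rfl⟩)
  rw [Finset.union_eq_right.2 hT] at a
  have b := G.tot k hk
  have c := Finset.sum_sdiff (f := wt h) hT
  unfold mw at *
  linarith

lemma Gl.high (G : Gl σ pa dr n h Δ) {k : ℕ} (hk : k ≤ n) {W : Finset (Gv N R)} (hW : W ⊆ upTo k)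
    (h1 : ∀ p r, gr N p r ∈ W → ∀ v ∈ σ.A r ∪ σ.B r, gx R p v ∈ W)
    (h2 : ∀ j v, gs R j v ∈ W → gx R (pa j) v ∈ W ∧ gx R j v ∈ W) :
    h W ≤ mw h W + (k + 1) * Cy N R * Δ := by
  simpa [G.emp] using G.fill hk ∅ hW h1 h2

end gl

end Pool.Agent.Lib.MP_3b2820_co.H61
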