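import Pool.Agent.Lib.MP_3b2820_co.Poly

/-!
A Markov tree of copies of a system, glued along the level variables.
-/

set_option autoImplicit false
set_option linter.unusedSectionVars false
set_option linter.unnecessarySeqFocus false

open Finset

namespace Pool.Agent.Lib.MP_3b2820_co.H61

/-- Variables of one edge: two levels and the step variables. -/
abbrev Lc (L N : Type) : Type := (Bool × L) ⊕ N

section defs
variable {L N : Type} [DecidableEq L] [DecidableEq N] [Fintype L] [Fintype N]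

/-- The variables of the edge from `p` to `j`. -/
def eG (p j : ℕ) : Lc L N → ℕ × (L ⊕ N)
  | .inl (false, l) => (p, .inl l)
  | .inl (true, l) => (j, .inl l)
  | .inr v => (j, .inr v)

/-- Level variables at a position. -/
def lev (N : Type) [DecidableEq N] (t : ℕ) : Finset (ℕ × (L ⊕ N)) :=
  Finset.univ.image fun l => (t, Sum.inl l)

/-- All variables of an edge. -/
def cop (p j : ℕ) : Finset (ℕ × (L ⊕ N)) := Finset.univ.image (eG p j)

/-- The variables of the first positions. -/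
def upTo (n : ℕ) : Finset (ℕ × (L ⊕ N)) :=
  (Finset.range (n + 1) ×ˢ Finset.univ).filter fun c => c.2.isLeft ∨ c.1 ≠ 0

lemma mem_lev (t : ℕ) (c : ℕ × (L ⊕ N)) :
    c ∈ (lev N t : Finset (ℕ × (L ⊕ N))) ↔ c.1 = t ∧ c.2.isLeft := by
  obtain ⟨a, b | b⟩ := c <;> simp [lev, eq_comm]

lemma mem_cop (p j : ℕ) (c : ℕ × (L ⊕ N)) :
    c ∈ (cop p j : Finset (ℕ × (L ⊕ N))) ↔ c.1 = j ∨ (c.1 = p ∧ c.2.isLeft) := by
  obtain ⟨a, b | b⟩ := c
  · simp only [cop, Finset.mem_image, Finset.mem_univ, true_and, Sum.isLeft_inl, and_true]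
    constructor
    · rintro ⟨⟨_ | _, l⟩ | v, h⟩ <;> simp [eG] at h <;> tauto
    · rintro (rfl | rfl)
      · exact ⟨.inl (true, b), rfl⟩
      · exact ⟨.inl (false, b), rfl⟩
  · simp only [cop, Finset.mem_image, Finset.mem_univ, true_and, Sum.isLeft_inr]
    constructor
    · rintro ⟨⟨_ | _, l⟩ | v, h⟩ <;> simp [eG] at h <;> tauto
    · rintro (rfl | h)
      · exact ⟨.inr b, rfl⟩
      · simp at h

lemma mem_upTo (n : ℕ) (c : ℕ × (L ⊕ N)) :
    c ∈ (upTo n : Finset (ℕ × (L ⊕ N))) ↔ c.1 ≤ n ∧ (c.2.isLeft ∨ c.1 ≠ 0) := by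
  simp [upTo]

lemma eG_inj {p j : ℕ} (h : p ≠ j) : Function.Injective (eG p j : Lc L N → _) := by
  rintro (⟨_ | _, l⟩ | v) (⟨_ | _, l'⟩ | v') h' <;> simp_all [eG]

lemma cop_sub {p j n : ℕ} (h1 : p < j) (h2 : j ≤ n) :
    (cop p j : Finset (ℕ × (L ⊕ N))) ⊆ upTo n := by
  intro c hc
  rw [mem_cop] at hc
  rw [mem_upTo]
  rcases hc with h | h
  · exact ⟨by omega, Or.inr (by omega)⟩
  · exact ⟨by omega, Or.inl h.2⟩

lemma upTo_mono {k n : ℕ} (h : k ≤ n) : (upTo k : Finset (ℕ × (L ⊕ N))) ⊆ upTo n := by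
  intro c hc
  rw [mem_upTo] at *
  exact ⟨by omega, hc.2⟩

lemma lev_sub {k n : ℕ} (h : k ≤ n) : (lev N k : Finset (ℕ × (L ⊕ N))) ⊆ upTo n := by
  intro c hc
  rw [mem_lev] at hc
  rw [mem_upTo]
  exact ⟨by omega, Or.inl hc.2⟩

lemma upTo_succ {p k : ℕ} (h : p ≤ k) :
    (upTo (k + 1) : Finset (ℕ × (L ⊕ N))) = upTo k ∪ cop p (k + 1) := by
  ext c
  simp only [mem_upTo, mem_cop, Finset.mem_union]
  by_cases h1 : c.2.isLeft = true <;> simp [h1] <;> omega

lemma upTo_inter {p k : ℕ} (h : p ≤ k) :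
    (upTo k : Finset (ℕ × (L ⊕ N))) ∩ cop p (k + 1) = lev N p := by
  ext c
  simp only [mem_upTo, mem_cop, mem_lev, Finset.mem_inter]
  by_cases h1 : c.2.isLeft = true <;> simp [h1] <;> omega

end defs

section tree
variable {Ω α ζ L N X : Type} [Fintype Ω] [DecidableEq L] [DecidableEq N] [Fintype L] [Fintype N]
  [DecidableEq X] {p : Ω → ℝ}

lemma tree_aux (hp : IsProb p) (Y : X → Ω → α) (Z : Ω → ζ) (pa : ℕ → ℕ)
    (hpa : ∀ k, pa (k + 1) ≤ k) (lv : ℕ → L → X) (em : ℕ → Lc L N → X)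
    (h0 : ∀ k l, em (k + 1) (.inl (false, l)) = lv (pa (k + 1)) l)
    (h1 : ∀ k l, em (k + 1) (.inl (true, l)) = lv (k + 1) l) (n : ℕ) :
    ∃ (Ω' : Type) (_ : Fintype Ω') (p' : Ω' → ℝ) (Y' : ℕ × (L ⊕ N) → Ω' → α) (Z' : Ω' → ζ)
      (π : ℕ → Ω' → Ω), IsProb p' ∧ (∀ t ≤ n, Push p' (π t) p ∧ (∀ a, Z' a = Z (π t a)) ∧
      ∀ l a, Y' (t, Sum.inl l) a = Y (lv t l) (π t a)) ∧
      (∀ t < n, ∀ A : Finset (Lc L N), cent p' Y' Z' (A.image (eG (pa (t + 1)) (t + 1)))
        = cent p Y Z (A.image (em (t + 1)))) ∧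
      (∀ k < n, cent p' Y' Z' (upTo (k + 1)) + cent p' Y' Z' (lev N (pa (k + 1)))
        = cent p' Y' Z' (upTo k) + cent p' Y' Z' (cop (pa (k + 1)) (k + 1))) := by
  classical
  induction n with
  | zero =>
    refine ⟨Ω, inferInstance, p, fun c => Sum.elim (fun l => Y (lv 0 l))
      (fun v => Y (em 0 (.inr v))) c.2, Z, fun _ a => a, hp, fun t ht => ?_,
      fun t ht => absurd ht (Nat.not_lt_zero t), fun t ht => absurd ht (Nat.not_lt_zero t)⟩
    obtain rfl : t = 0 := by omega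
    exact ⟨push_id, fun _ => rfl, fun _ _ => rfl⟩
  | succ n ih =>
    obtain ⟨Ω', _, p', Y', Z', π, hp', hπ, hc, hm⟩ := ih
    set q := pa (n + 1) with hq
    have hqn : q ≤ n := hpa n
    obtain ⟨hπq, hZ, hY⟩ := hπ q hqn
    let a₂ : Ω → ζ × (L → α) := fun b => (Z b, fun l => Y (lv q l) b)
    let a₁ : Ω' → ζ × (L → α) := fun a => a₂ (π q a)
    let μ : ζ × (L → α) → ℝ := fun c => ∑ b, if a₂ b = c then p b else 0
    have h₂ : Push p a₂ μ := fun c => by
      simp only [μ]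
      refine Finset.sum_congr rfl fun b _ => ?_
      congr
    have h₁ : Push p' a₁ μ := hπq.comp h₂
    have f1 := glue_push_fst (p₂ := p) hp' h₁ h₂
    have f2 := glue_push_snd (p₁ := p') hp h₁ h₂
    let nw : L ⊕ N → X := Sum.elim (fun l => lv (n + 1) l) (fun v => em (n + 1) (.inr v))
    let Y'' : ℕ × (L ⊕ N) → Glue a₁ a₂ → α := fun c x =>
      if c.1 ≤ n then Y' c x.1.1 else Y (nw c.2) x.1.2
    let Z'' : Glue a₁ a₂ → ζ := fun x => Z x.1.2
    have hZ1 : ∀ x : Glue a₁ a₂, Z'' x = Z' x.1.1 := fun x => by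
      rw [hZ]
      exact (congrArg Prod.fst x.2).symm
    have hY1 : ∀ c ∈ (upTo n : Finset (ℕ × (L ⊕ N))), ∀ x, Y'' c x = Y' c x.1.1 :=
      fun c hc x => if_pos ((mem_upTo _ _).1 hc).1
    have hY2 : ∀ (y : Lc L N) x, Y'' (eG q (n + 1) y) x = Y (em (n + 1) y) x.1.2 := by
      rintro (⟨_ | _, l⟩ | v) x
      · simp only [eG, Y'', if_pos hqn]
        rw [hY, h0]
        exact congrFun (congrArg Prod.snd x.2) l
      · simp [eG, Y'', nw, h1]
      · simp [eG, Y'', nw]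
    have k1 : ∀ A ⊆ (upTo n : Finset (ℕ × (L ⊕ N))),
        cent (glueP p' p μ a₁ a₂) Y'' Z'' A = cent p' Y' Z' A := by
      intro A hA
      rw [cent_push f1 (fun c => c) A hZ1 (fun c hc => hY1 c (hA hc)), Finset.image_id']
    have k2 : ∀ A : Finset (Lc L N), cent (glueP p' p μ a₁ a₂) Y'' Z'' (A.image (eG q (n + 1)))
        = cent p Y Z (A.image (em (n + 1))) := by
      intro A
      rw [← cent_push push_id (Y := fun y => Y'' (eG q (n + 1) y)) (Z := Z'') (eG q (n + 1)) A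
        (fun _ => rfl) (fun _ _ _ => rfl)]
      exact cent_push f2 (em (n + 1)) A (fun _ => rfl) (fun c _ x => hY2 c x)
    refine ⟨Glue a₁ a₂, inferInstance, glueP p' p μ a₁ a₂, Y'', Z'',
      fun t x => if t ≤ n then π t x.1.1 else x.1.2,
      glue_prob hp' hp h₁ h₂, fun t ht => ?_, fun t ht A => ?_, fun k hk => ?_⟩
    · by_cases h : t ≤ n
      · simp only [if_pos h]
        obtain ⟨b1, b2, b3⟩ := hπ t h
        refine ⟨f1.comp b1, fun x => by rw [hZ1, b2], fun l x => ?_⟩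
        simp only [Y'', if_pos h]
        exact b3 l _
      · obtain rfl : t = n + 1 := by omega
        simp only [if_neg h]
        exact ⟨f2, fun _ => rfl, fun l x => by simp [Y'', nw]⟩
    · rcases Nat.lt_succ_iff_lt_or_eq.1 ht with h | h
      · rw [k1 _ ((Finset.image_subset_image (Finset.subset_univ A)).trans
          (cop_sub (Nat.lt_succ_of_le (hpa t)) h)), hc t h A]
      · subst h
        exact k2 A
    · rcases Nat.lt_succ_iff_lt_or_eq.1 hk with h | h
      · rw [k1 _ (upTo_mono h), k1 _ (lev_sub ((hpa k).trans h.le)), k1 _ (upTo_mono h.le),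
          k1 _ (cop_sub (Nat.lt_succ_of_le (hpa k)) h)]
        exact hm k h
      · subst h
        rw [k1 _ (lev_sub hqn), k1 _ subset_rfl, cop, k2]
        have e0 : entR (glueP p' p μ a₁ a₂) (agr Y'' Z'' ∅) = entR p (agr Y Z ∅) :=
          f2.entR_eq fun a b => by simp [agr_iff, Z'']
        have e1 : entR (glueP p' p μ a₁ a₂) (agr Y'' Z'' (upTo (k + 1)))
            = entR p' (agr Y' Z' (upTo k))
              + entR p (agr Y Z ((Finset.univ : Finset (Lc L N)).image (em (k + 1))))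
              - entR p' (agr Y' Z' (lev N q)) := by
          have r : ∀ a b, agr Y' Z' (lev N q) a b ↔ a₁ a = a₁ b := by
            intro a b
            simp only [agr_iff, a₁, a₂, Prod.mk.injEq, hZ, lev, Finset.forall_mem_image,
              Finset.mem_univ, forall_true_left, hY, funext_iff]
          refine glue_entR hp' hp h₁ h₂ (fun a b h => (r a b).1 (agr_anti Y' Z' (lev_sub hqn) h))
            (fun a b h => ?_) r (fun x y => ?_)
          · refine Prod.ext h.1 (funext fun l => h.2 _ ?_)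
            exact Finset.mem_image.2 ⟨.inl (false, l), Finset.mem_univ _, h0 _ _⟩
          · rw [upTo_succ hqn]
            simp only [agr_iff, Finset.forall_mem_image, Finset.forall_mem_union, cop, hY2]
            constructor
            · rintro ⟨h1, h2, h3⟩
              refine ⟨⟨by rw [← hZ1, ← hZ1]; exact h1, fun c hc => ?_⟩, h1, h3⟩
              rw [← hY1 c hc, ← hY1 c hc]
              exact h2 c hc
            · rintro ⟨⟨_, h2⟩, h3, h4⟩
              refine ⟨h3, fun c hc => ?_, h4⟩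
              rw [hY1 c hc, hY1 c hc]
              exact h2 c hc
        unfold cent
        rw [e0, e1]
        ring

/-- The denoised set function on the tree. -/
theorem exists_tree (hp : IsProb p) (Y : X → Ω → α) (Z : Ω → ζ) (ν : X → ℝ) (pa : ℕ → ℕ)
    (hpa : ∀ k, pa (k + 1) ≤ k) (lv : ℕ → L → X) (em : ℕ → Lc L N → X)
    (hem : ∀ k, Function.Injective (em (k + 1)))
    (h0 : ∀ k l, em (k + 1) (.inl (false, l)) = lv (pa (k + 1)) l)
    (h1 : ∀ k l, em (k + 1) (.inl (true, l)) = lv (k + 1) l) (n : ℕ) :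
    ∃ h : Finset (ℕ × (L ⊕ N)) → ℝ, h ∅ = 0 ∧ (∀ A B, h (A ∪ B) + h (A ∩ B) ≤ h A + h B) ∧
      (∀ t < n, ∀ A : Finset (Lc L N), h (A.image (eG (pa (t + 1)) (t + 1)))
        = cent p Y Z (A.image (em (t + 1))) - ∑ i ∈ A.image (em (t + 1)), ν i) ∧
      (∀ k < n, h (upTo (k + 1)) + h (lev N (pa (k + 1)))
        = h (upTo k) + h (cop (pa (k + 1)) (k + 1))) ∧
      (∀ A B : Finset (ℕ × (L ⊕ N)), ∀ b : ℝ, 0 ≤ b → (∀ y, |ν y| ≤ b) →
        -(A.card * b) ≤ h (A ∪ B) - h B) := by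
  obtain ⟨Ω', _, p', Y', Z', π, hp', -, hc, hm⟩ := tree_aux hp Y Z pa hpa lv em h0 h1 n
  have hg := cent_poly hp' Y' Z'
  let ν' : ℕ × (L ⊕ N) → ℝ := fun c =>
    ν (Sum.elim (fun l => lv c.1 l) (fun v => em c.1 (.inr v)) c.2)
  refine ⟨fun A => cent p' Y' Z' A - ∑ c ∈ A, ν' c, by simp [hg.empty], fun A B => ?_,
    fun t ht A => ?_, fun k hk => ?_, fun A B b hb0 hb => ?_⟩
  · have := hg.submod A B
    have := Finset.sum_union_inter (s₁ := A) (s₂ := B) (f := ν')
    linarith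
  · have hne : pa (t + 1) ≠ t + 1 := by have := hpa t; omega
    simp only [hc t ht A]
    rw [Finset.sum_image fun a _ b _ h => eG_inj hne h,
      Finset.sum_image fun a _ b _ h => hem t h]
    congr 1
    refine Finset.sum_congr rfl ?_
    rintro (⟨_ | _, l⟩ | v) - <;> simp [ν', eG, h0, h1]
  · have h2 := hm k hk
    have h3 := Finset.sum_union_inter (s₁ := upTo k) (s₂ := cop (pa (k + 1)) (k + 1)) (f := ν')
    rw [← upTo_succ (hpa k), upTo_inter (hpa k)] at h3
    linarith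
  · have h2 := hg.mono B (A ∪ B) Finset.subset_union_right
    have h3 : ∑ c ∈ A ∪ B, ν' c = ∑ c ∈ A \ B, ν' c + ∑ c ∈ B, ν' c := by
      rw [← Finset.sum_union Finset.sdiff_disjoint, Finset.sdiff_union_self_eq_union]
    have h4 : ∑ c ∈ A \ B, ν' c ≤ (A \ B).card • b :=
      Finset.sum_le_card_nsmul _ _ _ fun c _ => (le_abs_self _).trans (hb _)
    have h5 : ((A \ B).card : ℝ) ≤ A.card := by
      exact_mod_cast Finset.card_le_card Finset.sdiff_subset
    rw [nsmul_eq_mul] at h4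
    nlinarith

end tree

end Pool.Agent.Lib.MP_3b2820_co.H61
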