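import Pool.Agent.Lib.MP_3b2820_h61.Blue

/-!
Stability of the exact solution of the system of a counter machine.
-/

set_option autoImplicit false
set_option linter.unusedSectionVars false
set_option linter.unusedVariables false

open Finset

noncomputable section

namespace Pool.Agent.Lib.MP_3b2820_co.H61

namespace ZST

variable {Q : Type} [DecidableEq Q] [Fintype Q] (μ : Mc Q) (M : ℕ)

/-- A unit vector. -/
abbrev ee (d : Fin 3) : Fin 3 → ℕ := Pi.single d 1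

/-- The relations in explicit form with an error. -/
structure Rel (W : Nd Q M → (Fin 3 → ℕ) → ℝ) (K : ℕ) (e : ℝ) : Prop where
  src : ∀ d i, (∀ c, i c ≤ K) → |W (nc Q M) (i + ee d)| ≤ e
  r1i : ∀ q i, (∀ c, i c ≤ K) → μ.ins q = true →
    |W (no M q true) (i + ee (μ.dr q)) - W (ni q 0) i| ≤ e
  r1d : ∀ q i, (∀ c, i c ≤ K) → μ.ins q = false →
    |W (no M q true) i - W (ni q 0) (i + ee (μ.dr q))| ≤ e
  r2i : ∀ q i, (∀ c, i c ≤ K) → μ.ins q = true → i (μ.dr q) = 0 →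
    |W (no M q true) i + W (ni q 1) (i + ee (μ.dr q)) - (W (ni q 0) i + W (ni q 2) i)| ≤ e
  r2d : ∀ q i, (∀ c, i c ≤ K) → μ.ins q = false → i (μ.dr q) = 0 →
    |W (no M q false) i + (W (ni q 1) (i + ee (μ.dr q)) + W (ni q 2) (i + ee (μ.dr q))) -
      (W (ni q 0) i + W (no M q true) (i + ee (μ.dr q)))| ≤ e
  r3i : ∀ q i, (∀ c, i c ≤ K) → μ.ins q = true → |W (no M q false) i| ≤ e
  r3d : ∀ q i, (∀ c, i c ≤ K) → μ.ins q = false → |W (no M q false) (i + ee (μ.dr q))| ≤ e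
  mrg : ∀ q i, (∀ c, i c ≤ K) → |∑ k : Fin (M + 3), W (ni q k) i -
    (∑ x ∈ Finset.univ.filter (fun x : Q × Bool => μ.nx x.1 x.2 = q), W (no M x.1 x.2) i +
      if q = μ.q0 then W (nc Q M) i else 0)| ≤ e
  cpy : ∀ q k i, (∀ c, i c ≤ K) → |W (ni q k) i - W (ni q 0) i| ≤ e

lemma two_sided {Z : Nd Q M → (Fin 3 → ℕ) → ℝ} {n : ℕ} {ε : ℝ} (h : ZR (μ.sys M) Z n ε)
    {K : ℕ} (hK : K + 1 ≤ n) (r : Rl Q M) (i : Fin 3 → ℕ) (hi : ∀ c, i c ≤ K)
    (hp : ∀ d, i d ≠ 0 → μ.pr0 M r d = true) :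
    |∑ a ∈ μ.A0 M r, Z a (if μ.up0 M r a then i + ee (μ.δ0 M r) else i) -
      ∑ a ∈ μ.B0 M r, Z a (if μ.up0 M r a then i + ee (μ.δ0 M r) else i)| ≤ (K + 1) * ε := by
  have h1 := h (r, false) i K hi hK hp
  have h2 := h (r, true) i K hi hK hp
  simp only [Mc.sys, shf, Bool.false_eq_true, if_false, if_true] at h1 h2
  rw [abs_le]
  constructor <;> linarith

lemma rel_of_ZR {Z : Nd Q M → (Fin 3 → ℕ) → ℝ} {n : ℕ} {ε : ℝ} (hε : 0 ≤ ε)
    (h : ZR (μ.sys M) Z n ε) {K : ℕ} (hK : K + 1 ≤ n) : Rel μ M Z K ((K + 1) * ε) := by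
  have h1 : (1 : Fin (M + 3)) ≠ 0 := by simp
  have h2 : (2 : Fin (M + 3)) ≠ 0 := Fin.ne_of_val_ne (by
    simp [Nat.mod_eq_of_lt (show 2 < M + 3 by omega)])
  have h3 : (1 : Fin (M + 3)) ≠ 2 := Fin.ne_of_val_ne (by
    simp [Nat.mod_eq_of_lt (show 2 < M + 3 by omega)])
  have h1' := h1.symm
  have h2' := h2.symm
  have h3' := h3.symm
  have T := two_sided μ M h hK
  refine ⟨fun d i hi => ?_, fun q i hi hq => ?_, fun q i hi hq => ?_, fun q i hi hq h0 => ?_,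
    fun q i hi hq h0 => ?_, fun q i hi hq => ?_, fun q i hi hq => ?_, fun q i hi => ?_,
    fun q k i hi => ?_⟩
  · simpa [Mc.A0, Mc.B0, Mc.up0, Mc.δ0] using T (.inl d) i hi (fun _ _ => rfl)
  · simpa [Mc.A0, Mc.B0, Mc.up0, Mc.δ0, hq] using T (.inr (.inl (q, 0))) i hi (fun _ _ => rfl)
  · simpa [Mc.A0, Mc.B0, Mc.up0, Mc.δ0, hq] using T (.inr (.inl (q, 0))) i hi (fun _ _ => rfl)
  · have := T (.inr (.inl (q, 1))) i hi (fun d hd => by
      simp only [Mc.pr0, decide_eq_true_eq]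
      rintro rfl
      exact hd h0)
    simpa [Mc.A0, Mc.B0, Mc.up0, Mc.δ0, hq, h1, h2, h3, h1', h2', h3'] using this
  · have := T (.inr (.inl (q, 1))) i hi (fun d hd => by
      simp only [Mc.pr0, decide_eq_true_eq]
      rintro rfl
      exact hd h0)
    simpa [Mc.A0, Mc.B0, Mc.up0, Mc.δ0, hq, h1, h2, h3, h1', h2', h3'] using this
  · simpa [Mc.A0, Mc.B0, Mc.up0, Mc.δ0, hq] using T (.inr (.inl (q, 2))) i hi (fun _ _ => rfl)
  · simpa [Mc.A0, Mc.B0, Mc.up0, Mc.δ0, hq] using T (.inr (.inl (q, 2))) i hi (fun _ _ => rfl)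
  · have := T (.inr (.inr (.inl q))) i hi (fun _ _ => rfl)
    simp only [Mc.A0, Mc.B0, Mc.up0, Bool.false_eq_true, if_false] at this
    rw [Finset.sum_image (fun a _ b _ hab => by simpa using hab), Finset.sum_union (by
      split_ifs <;> simp), Finset.sum_image (fun a _ b _ hab => by
        simp only [Sum.inr.injEq, Sum.inl.injEq] at hab
        exact hab)] at this
    split_ifs at this ⊢ <;> simpa using this
  · by_cases hk : k = 0
    · subst hk
      simp only [sub_self, abs_zero]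
      positivity
    · simpa [Mc.A0, Mc.B0, Mc.up0, Mc.δ0, hk] using
        T (.inr (.inr (.inr (q, k)))) i hi (fun _ _ => rfl)

lemma lin {a b x c e : ℝ} (h1 : |a| ≤ e) (h2 : |b| ≤ 0) (h : x = a - c * b) : |x| ≤ e := by
  have : b = 0 := abs_nonpos_iff.mp h2
  rw [h, this]
  simpa using h1

lemma rel_sub {Z Y : Nd Q M → (Fin 3 → ℕ) → ℝ} {K : ℕ} {e : ℝ} (c : ℝ) (h : Rel μ M Z K e)
    (g : Rel μ M Y K 0) : Rel μ M (fun v i => Z v i - c * Y v i) K e := by
  refine ⟨fun d i hi => lin (h.src d i hi) (g.src d i hi) rfl,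
    fun q i hi hq => lin (c := c) (h.r1i q i hi hq) (g.r1i q i hi hq) (by ring),
    fun q i hi hq => lin (c := c) (h.r1d q i hi hq) (g.r1d q i hi hq) (by ring),
    fun q i hi hq h0 => lin (c := c) (h.r2i q i hi hq h0) (g.r2i q i hi hq h0) (by ring),
    fun q i hi hq h0 => lin (c := c) (h.r2d q i hi hq h0) (g.r2d q i hi hq h0) (by ring),
    fun q i hi hq => lin (h.r3i q i hi hq) (g.r3i q i hi hq) rfl,
    fun q i hi hq => lin (h.r3d q i hi hq) (g.r3d q i hi hq) rfl,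
    fun q i hi => lin (c := c) (h.mrg q i hi) (g.mrg q i hi) ?_,
    fun q k i hi => lin (c := c) (h.cpy q k i hi) (g.cpy q k i hi) (by ring)⟩
  simp only [Finset.sum_sub_distrib, ← Finset.mul_sum]
  split_ifs <;> ring

lemma split_pos (i : Fin 3 → ℕ) (d : Fin 3) (h : i d ≠ 0) :
    ∃ j : Fin 3 → ℕ, i = j + ee d ∧ ∀ c, j c ≤ i c := by
  refine ⟨i - ee d, ?_, fun c => Nat.sub_le _ _⟩
  funext c
  by_cases hc : c = d
  · subst hc
    simp only [Pi.add_apply, Pi.sub_apply, Pi.single_eq_same]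
    omega
  · simp [hc]

lemma add_le (i : Fin 3 → ℕ) (d : Fin 3) {k : ℕ} (h : ∀ c, i c ≤ k) (c : Fin 3) :
    (i + ee d) c ≤ k + 1 := by
  have := h c
  by_cases hc : c = d
  · subst hc
    simp only [Pi.add_apply, Pi.single_eq_same]
    omega
  · simp only [Pi.add_apply, Pi.single_eq_of_ne hc]
    omega

section contr
variable {μ M}
variable {W : Nd Q M → (Fin 3 → ℕ) → ℝ} {k : ℕ} {e x : ℝ}

lemma b_cpy (h : Rel μ M W (k + 2) e)
    (hP : ∀ q i, (∀ c, i c ≤ k + 2) → |W (ni q 0) i| ≤ x) (q : Q) (j : Fin (M + 3))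
    (i : Fin 3 → ℕ) (hi : ∀ c, i c ≤ k + 2) : |W (ni q j) i| ≤ x + e := by
  have h1 := abs_le.mp (h.cpy q j i hi)
  have h2 := abs_le.mp (hP q i hi)
  rw [abs_le]
  constructor <;> linarith [h1.1, h1.2, h2.1, h2.2]

lemma b_out1 (he : 0 ≤ e) (hx : 0 ≤ x) (h : Rel μ M W (k + 2) e)
    (hP : ∀ q i, (∀ c, i c ≤ k + 2) → |W (ni q 0) i| ≤ x) (q : Q)
    (i : Fin 3 → ℕ) (hi : ∀ c, i c ≤ k + 1) : |W (no M q true) i| ≤ 3 * x + 4 * e := by
  have hi2 : ∀ c, i c ≤ k + 2 := fun c => (hi c).trans (Nat.le_succ _)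
  have hi3 : ∀ c, (i + ee (μ.dr q)) c ≤ k + 2 := add_le i _ hi
  cases hq : μ.ins q
  · have h1 := abs_le.mp (h.r1d q i hi2 hq)
    have h2 := abs_le.mp (hP q _ hi3)
    rw [abs_le]
    constructor <;> linarith [h1.1, h1.2, h2.1, h2.2]
  · by_cases h0 : i (μ.dr q) = 0
    · have h1 := abs_le.mp (h.r2i q i hi2 hq h0)
      have h2 := abs_le.mp (hP q _ hi2)
      have h3 := abs_le.mp (b_cpy h hP q 2 i hi2)
      have h4 := abs_le.mp (b_cpy h hP q 1 _ hi3)
      rw [abs_le]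
      constructor <;> linarith [h1.1, h1.2, h2.1, h2.2, h3.1, h3.2, h4.1, h4.2]
    · obtain ⟨j, rfl, hj⟩ := split_pos i _ h0
      have hj2 : ∀ c, j c ≤ k + 2 := fun c => (hj c).trans (hi2 c)
      have h1 := abs_le.mp (h.r1i q j hj2 hq)
      have h2 := abs_le.mp (hP q _ hj2)
      rw [abs_le]
      constructor <;> linarith [h1.1, h1.2, h2.1, h2.2]

lemma b_out2 (he : 0 ≤ e) (hx : 0 ≤ x) (h : Rel μ M W (k + 2) e)
    (hP : ∀ q i, (∀ c, i c ≤ k + 2) → |W (ni q 0) i| ≤ x) (q : Q)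
    (i : Fin 3 → ℕ) (hi : ∀ c, i c ≤ k) : |W (no M q false) i| ≤ 6 * x + 8 * e := by
  have hi2 : ∀ c, i c ≤ k + 2 := fun c => (hi c).trans (by omega)
  have hi3 : ∀ c, (i + ee (μ.dr q)) c ≤ k + 1 := add_le i _ hi
  have hi4 : ∀ c, (i + ee (μ.dr q)) c ≤ k + 2 := fun c => (hi3 c).trans (Nat.le_succ _)
  cases hq : μ.ins q
  · by_cases h0 : i (μ.dr q) = 0
    · have h1 := abs_le.mp (h.r2d q i hi2 hq h0)
      have h2 := abs_le.mp (hP q _ hi2)
      have h3 := abs_le.mp (b_cpy h hP q 2 _ hi4)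
      have h4 := abs_le.mp (b_cpy h hP q 1 _ hi4)
      have h5 := abs_le.mp (b_out1 he hx h hP q _ hi3)
      rw [abs_le]
      constructor <;> linarith [h1.1, h1.2, h2.1, h2.2, h3.1, h3.2, h4.1, h4.2, h5.1, h5.2]
    · obtain ⟨j, rfl, hj⟩ := split_pos i _ h0
      have hj2 : ∀ c, j c ≤ k + 2 := fun c => (hj c).trans (hi2 c)
      have h1 := h.r3d q j hj2 hq
      linarith
  · have h1 := h.r3i q i hi2 hq
    linarith

lemma b_src (he : 0 ≤ e) (h : Rel μ M W (k + 2) e) (h0 : W (nc Q M) 0 = 0)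
    (i : Fin 3 → ℕ) (hi : ∀ c, i c ≤ k + 2) : |W (nc Q M) i| ≤ e := by
  by_cases hz : i = 0
  · rw [hz, h0, abs_zero]
    exact he
  · obtain ⟨d, hd⟩ := Function.ne_iff.mp hz
    obtain ⟨j, rfl, hj⟩ := split_pos i d hd
    exact h.src d j (fun c => (hj c).trans (hi c))

lemma b_all (he : 0 ≤ e) (hx : 0 ≤ x) (h : Rel μ M W (k + 2) e) (h0 : W (nc Q M) 0 = 0)
    (hP : ∀ q i, (∀ c, i c ≤ k + 2) → |W (ni q 0) i| ≤ x) (v : Nd Q M)
    (i : Fin 3 → ℕ) (hi : ∀ c, i c ≤ k) : |W v i| ≤ 6 * x + 8 * e := by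
  have hi2 : ∀ c, i c ≤ k + 2 := fun c => (hi c).trans (by omega)
  obtain u | ⟨q, b⟩ | ⟨q, j⟩ := v
  · have := b_src he h h0 i hi2
    exact this.trans (by linarith)
  · cases b
    · exact b_out2 he hx h hP q i hi
    · exact (b_out1 he hx h hP q i (fun c => (hi c).trans (Nat.le_succ _))).trans (by linarith)
  · exact (b_cpy h hP q j i hi2).trans (by linarith)

lemma b_step (hM : 48 * Fintype.card Q + 64 ≤ M) (he : 0 ≤ e) (hx : 0 ≤ x)
    (h : Rel μ M W (k + 2) e) (h0 : W (nc Q M) 0 = 0)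
    (hP : ∀ q i, (∀ c, i c ≤ k + 2) → |W (ni q 0) i| ≤ x) (q : Q)
    (i : Fin 3 → ℕ) (hi : ∀ c, i c ≤ k) : |W (ni q 0) i| ≤ x / 4 + 2 * e := by
  have hi2 : ∀ c, i c ≤ k + 2 := fun c => (hi c).trans (by omega)
  have h1 := h.mrg q i hi2
  have h2 : |∑ j : Fin (M + 3), W (ni q j) i - ((M : ℝ) + 3) * W (ni q 0) i| ≤ (M + 3) * e := by
    have e1 : ∑ j : Fin (M + 3), W (ni q j) i - ((M : ℝ) + 3) * W (ni q 0) i
        = ∑ j : Fin (M + 3), (W (ni q j) i - W (ni q 0) i) := by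
      rw [Finset.sum_sub_distrib]
      simp
    rw [e1]
    refine (Finset.abs_sum_le_sum_abs _ _).trans ?_
    refine (Finset.sum_le_sum fun j _ => h.cpy q j i hi2).trans ?_
    simp
  have h3 : |∑ y ∈ Finset.univ.filter (fun y : Q × Bool => μ.nx y.1 y.2 = q),
      W (no M y.1 y.2) i| ≤ 2 * (Fintype.card Q : ℝ) * (6 * x + 8 * e) := by
    refine (Finset.abs_sum_le_sum_abs _ _).trans ?_
    refine (Finset.sum_le_sum fun y _ => b_all he hx h h0 hP (no M y.1 y.2) i hi).trans ?_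
    rw [Finset.sum_const, nsmul_eq_mul]
    refine mul_le_mul_of_nonneg_right ?_ (by positivity)
    have := Finset.card_filter_le (Finset.univ : Finset (Q × Bool))
      (fun y : Q × Bool => μ.nx y.1 y.2 = q)
    rw [Finset.card_univ, Fintype.card_prod, Fintype.card_bool] at this
    have h' : ((Finset.univ.filter (fun y : Q × Bool => μ.nx y.1 y.2 = q)).card : ℝ)
        ≤ ((Fintype.card Q * 2 : ℕ) : ℝ) := by exact_mod_cast this
    push_cast at h'
    linarith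
  have h4 : |(if q = μ.q0 then W (nc Q M) i else 0)| ≤ e := by
    split_ifs
    · exact b_src he h h0 i hi2
    · simpa using he
  have hM' : 48 * (Fintype.card Q : ℝ) + 64 ≤ M := by exact_mod_cast hM
  have hq : (0 : ℝ) ≤ Fintype.card Q := Nat.cast_nonneg _
  have h5 : |((M : ℝ) + 3) * W (ni q 0) i| ≤
      2 * (Fintype.card Q : ℝ) * (6 * x + 8 * e) + (M + 5) * e := by
    have a1 := abs_le.mp h1
    have a2 := abs_le.mp h2
    have a3 := abs_le.mp h3
    have a4 := abs_le.mp h4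
    rw [abs_le]
    constructor <;> linarith [a1.1, a1.2, a2.1, a2.2, a3.1, a3.2, a4.1, a4.2]
  have hp : (0 : ℝ) < (M : ℝ) + 3 := by positivity
  rw [abs_mul, abs_of_pos hp] at h5
  have h6 : 2 * (Fintype.card Q : ℝ) * (6 * x + 8 * e) + (M + 5) * e
      ≤ ((M : ℝ) + 3) * (x / 4 + 2 * e) := by
    have b1 := mul_le_mul_of_nonneg_right hM' hx
    have b2 := mul_le_mul_of_nonneg_right hM' he
    have b3 := mul_nonneg hq he
    nlinarith
  exact le_of_mul_le_mul_left (h5.trans h6) hp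

lemma b_iter (hM : 48 * Fintype.card Q + 64 ≤ M) {ε B : ℝ} (hε : 0 ≤ ε) (hB : 0 ≤ B) {n : ℕ}
    (h : ∀ K, K + 1 ≤ n → Rel μ M W K ((K + 1) * ε)) (h0 : W (nc Q M) 0 = 0) (j : ℕ) :
    ∀ k, k + 2 * j + 1 ≤ n → (∀ q i, (∀ c, i c ≤ k + 2 * j) → |W (ni q 0) i| ≤ B) →
      ∀ q i, (∀ c, i c ≤ k) → |W (ni q 0) i| ≤ B / 4 ^ j + 4 * (k + 3) * ε := by
  induction j with
  | zero =>
    intro k hk hP q i hi
    have := hP q i (by simpa using hi)
    have h2 : 0 ≤ 4 * ((k : ℝ) + 3) * ε := by positivity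
    simp only [pow_zero, div_one]
    linarith
  | succ j ih =>
    intro k hk hP q i hi
    have h1 := ih (k + 2) (by omega) (fun q i hi => hP q i fun c => (hi c).trans (by omega))
    have h2 := b_step hM (by positivity) (by positivity) (h (k + 2) (by omega)) h0 h1 q i hi
    refine h2.trans ?_
    push_cast
    rw [pow_succ, ← div_div]
    nlinarith

end contr

/-- The term of the exact solution. -/
def tm (v : Nd Q M) (i : Fin 3 → ℕ) (t : ℕ) : ℝ :=
  if μ.act M v t then box (μ.sz M v t) i / ((M : ℝ) + 3) ^ (t + Mc.lag M v) else 0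

lemma Zs_eq (v : Nd Q M) (i : Fin 3 → ℕ) : μ.Zs M v i = ∑' t, tm μ M v i t := rfl

lemma run_succ (t : ℕ) : μ.run (t + 1) = μ.step (μ.run t) := Function.iterate_succ_apply' _ _ _

lemma run_le (t : ℕ) : ∀ c, (μ.run t).2 c ≤ t := by
  induction t with
  | zero => intro c; simp [Mc.run]
  | succ t ih =>
    intro c
    rw [run_succ]
    simp only [Mc.step]
    split_ifs
    · exact add_le _ _ ih c
    · exact (Nat.sub_le _ _).trans ((ih c).trans (Nat.le_succ _))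

lemma box_nonneg (s i : Fin 3 → ℕ) : 0 ≤ box s i :=
  Finset.prod_nonneg fun _ _ => Nat.cast_nonneg _

lemma box_le (s i : Fin 3 → ℕ) (t : ℕ) (h : ∀ c, s c ≤ t + 1) : box s i ≤ ((t : ℝ) + 2) ^ 3 := by
  have : ((t : ℝ) + 2) ^ 3 = ∏ _d : Fin 3, ((t : ℝ) + 2) := by simp
  rw [this]
  refine Finset.prod_le_prod (fun _ _ => Nat.cast_nonneg _) fun d _ => ?_
  have h1 : s d + 1 - i d ≤ t + 2 := by
    have := h d
    omega
  exact_mod_cast h1

lemma tm_nonneg (v : Nd Q M) (i : Fin 3 → ℕ) (t : ℕ) : 0 ≤ tm μ M v i t := by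
  unfold tm
  split_ifs
  · exact div_nonneg (box_nonneg _ _) (by positivity)
  · exact le_rfl

/-- The majorant. -/
def mj (t : ℕ) : ℝ := ((t : ℝ) + 2) ^ 3 * (1 / 2) ^ t

lemma mj_summable : Summable mj := by
  have h := summable_pow_mul_geometric_of_norm_lt_one (R := ℝ) 3 (r := 1 / 2) (by norm_num)
  have h2 := ((summable_nat_add_iff 2).mpr h).mul_left 4
  refine h2.congr fun t => ?_
  unfold mj
  push_cast
  ring

lemma tm_le (v : Nd Q M) (i : Fin 3 → ℕ) (t : ℕ) : tm μ M v i t ≤ mj t := by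
  unfold tm mj
  split_ifs
  · have h1 : box (μ.sz M v t) i ≤ ((t : ℝ) + 2) ^ 3 := by
      refine box_le _ _ _ fun c => ?_
      obtain u | y | y := v
      · simp [Mc.sz]
      · exact run_le μ (t + 1) c
      · exact (run_le μ t c).trans (Nat.le_succ _)
    have hM : (0 : ℝ) ≤ M := Nat.cast_nonneg _
    have h2 : (2 : ℝ) ^ t ≤ ((M : ℝ) + 3) ^ (t + Mc.lag M v) :=
      (pow_le_pow_left₀ (by norm_num) (by linarith) t).trans
        (pow_le_pow_right₀ (by linarith) (Nat.le_add_right _ _))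
    rw [one_div, inv_pow, ← div_eq_mul_inv]
    exact div_le_div₀ (by positivity) h1 (by positivity) h2
  · positivity

lemma tm_summable (v : Nd Q M) (i : Fin 3 → ℕ) : Summable (tm μ M v i) :=
  Summable.of_nonneg_of_le (tm_nonneg μ M v i) (tm_le μ M v i) mj_summable

lemma Zs_le (v : Nd Q M) (i : Fin 3 → ℕ) : |μ.Zs M v i| ≤ ∑' t, mj t := by
  rw [Zs_eq, abs_of_nonneg (tsum_nonneg (tm_nonneg μ M v i))]
  exact (tm_summable μ M v i).tsum_le_tsum (tm_le μ M v i) mj_summable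

lemma Zs_nc (i : Fin 3 → ℕ) : μ.Zs M (nc Q M) i = box 0 i := by
  rw [Zs_eq, tsum_eq_single 0]
  · simp [tm, Mc.act, Mc.sz, Mc.lag]
  · intro t ht
    simp [tm, Mc.act, ht]

/-- The factor of a box away from a direction. -/
def rest (s i : Fin 3 → ℕ) (d : Fin 3) : ℝ := ∏ c ∈ Finset.univ.erase d, ((s c + 1 - i c : ℕ) : ℝ)

lemma box_eq (s i s' i' : Fin 3 → ℕ) (d : Fin 3) (hs : ∀ c, c ≠ d → s' c = s c)
    (hi : ∀ c, c ≠ d → i' c = i c) : box s' i' = ((s' d + 1 - i' d : ℕ) : ℝ) * rest s i d := by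
  unfold box rest
  rw [← Finset.mul_prod_erase _ _ (Finset.mem_univ d)]
  refine congrArg _ (Finset.prod_congr rfl fun c hc => ?_)
  have hc' := Finset.ne_of_mem_erase hc
  rw [hs c hc', hi c hc']

lemma box00 (s i : Fin 3 → ℕ) (d : Fin 3) :
    box s i = ((s d + 1 - i d : ℕ) : ℝ) * rest s i d :=
  box_eq s i s i d (fun _ _ => rfl) (fun _ _ => rfl)

lemma box01 (s i : Fin 3 → ℕ) (d : Fin 3) :
    box s (i + ee d) = ((s d - i d : ℕ) : ℝ) * rest s i d := by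
  rw [box_eq s i s (i + ee d) d (fun _ _ => rfl) (fun c hc => by simp [hc])]
  simp

lemma boxp0 (s i : Fin 3 → ℕ) (d : Fin 3) :
    box (s + ee d) i = ((s d + 2 - i d : ℕ) : ℝ) * rest s i d := by
  rw [box_eq s i (s + ee d) i d (fun c hc => by simp [hc]) (fun _ _ => rfl)]
  simp

lemma boxp1 (s i : Fin 3 → ℕ) (d : Fin 3) :
    box (s + ee d) (i + ee d) = ((s d + 1 - i d : ℕ) : ℝ) * rest s i d := by
  rw [box_eq s i (s + ee d) (i + ee d) d (fun c hc => by simp [hc]) (fun c hc => by simp [hc])]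
  simp

lemma boxm0 (s i : Fin 3 → ℕ) (d : Fin 3) :
    box (s - ee d) i = ((s d - 1 + 1 - i d : ℕ) : ℝ) * rest s i d := by
  rw [box_eq s i (s - ee d) i d (fun c hc => by simp [hc]) (fun _ _ => rfl)]
  simp

lemma boxm1 (s i : Fin 3 → ℕ) (d : Fin 3) :
    box (s - ee d) (i + ee d) = ((s d - 1 - i d : ℕ) : ℝ) * rest s i d := by
  rw [box_eq s i (s - ee d) (i + ee d) d (fun c hc => by simp [hc]) (fun c hc => by simp [hc])]
  simp

lemma tm_ni (q : Q) (k : Fin (M + 3)) (i : Fin 3 → ℕ) (t : ℕ) : tm μ M (ni q k) i t =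
    if (μ.run t).1 = q then box (μ.run t).2 i / ((M : ℝ) + 3) ^ (t + 1) else 0 := by
  simp [tm, Mc.act, Mc.sz, Mc.lag]

lemma tm_no (q : Q) (b : Bool) (i : Fin 3 → ℕ) (t : ℕ) : tm μ M (no M q b) i t =
    if (μ.run t).1 = q ∧ μ.br (μ.run t) = b then
      box (μ.run (t + 1)).2 i / ((M : ℝ) + 3) ^ (t + 1) else 0 := by
  simp [tm, Mc.act, Mc.sz, Mc.lag]

lemma tm_no_inc (q : Q) (hq : μ.ins q = true) (b : Bool) (i : Fin 3 → ℕ) (t : ℕ) :
    tm μ M (no M q b) i t = if (μ.run t).1 = q ∧ b = true then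
      box ((μ.run t).2 + ee (μ.dr q)) i / ((M : ℝ) + 3) ^ (t + 1) else 0 := by
  rw [tm_no, run_succ]
  by_cases h : (μ.run t).1 = q
  · cases b <;> simp [Mc.step, Mc.br, h, hq]
  · simp [h]

lemma tm_no_dec (q : Q) (hq : μ.ins q = false) (b : Bool) (i : Fin 3 → ℕ) (t : ℕ) :
    tm μ M (no M q b) i t = if (μ.run t).1 = q ∧ decide ((μ.run t).2 (μ.dr q) ≠ 0) = b then
      box ((μ.run t).2 - ee (μ.dr q)) i / ((M : ℝ) + 3) ^ (t + 1) else 0 := by
  rw [tm_no, run_succ]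
  by_cases h : (μ.run t).1 = q
  · simp [Mc.step, Mc.br, h, hq]
  · simp [h]

lemma zero_of {a b : ℝ} (h : a = b) : |a - b| ≤ 0 := by
  rw [h, sub_self, abs_zero]

lemma merge_eq (q : Q) (i : Fin 3 → ℕ) : ∑ k : Fin (M + 3), μ.Zs M (ni q k) i =
    ∑ x ∈ Finset.univ.filter (fun x : Q × Bool => μ.nx x.1 x.2 = q), μ.Zs M (no M x.1 x.2) i +
      if q = μ.q0 then μ.Zs M (nc Q M) i else 0 := by
  have hp : ((M : ℝ) + 3) ≠ 0 := by positivity
  have e1 : ∑ k : Fin (M + 3), μ.Zs M (ni q k) i = ((M : ℝ) + 3) * μ.Zs M (ni q 0) i := by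
    rw [Finset.sum_congr rfl (g := fun _ => μ.Zs M (ni q 0) i) (fun k _ => by
      simp only [Zs_eq, tm_ni])]
    simp
  rw [e1, Zs_nc]
  simp only [Zs_eq]
  rw [← Summable.tsum_finsetSum (fun x _ => tm_summable μ M _ i),
    (tm_summable μ M (ni q 0) i).tsum_eq_zero_add, mul_add, ← tsum_mul_left, add_comm]
  have e2 : ((M : ℝ) + 3) * tm μ M (ni q 0) i 0 = if q = μ.q0 then box 0 i else 0 := by
    rw [tm_ni]
    have : μ.run 0 = (μ.q0, 0) := rfl
    rw [this]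
    by_cases hq : q = μ.q0
    · simp only [hq, if_true, zero_add, pow_one]
      field_simp
    · simp [hq, Ne.symm hq]
  rw [e2]
  refine congrArg (· + _) (tsum_congr fun t => ?_)
  rw [tm_ni]
  simp only [tm_no]
  rw [Finset.sum_filter, Finset.sum_eq_single ((μ.run t).1, μ.br (μ.run t))]
  · have : (μ.run (t + 1)).1 = μ.nx (μ.run t).1 (μ.br (μ.run t)) := by
      rw [run_succ]
      rfl
    rw [this]
    split_ifs with h1 h2
    · rw [pow_succ _ (t + 1)]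
      field_simp
    · simp at h2
    · simp
  · rintro ⟨a, b⟩ _ hne
    have : ¬((μ.run t).1 = a ∧ μ.br (μ.run t) = b) := by
      rintro ⟨rfl, rfl⟩
      exact hne rfl
    simp only [this, if_false, ite_self]
  · simp

lemma rel_Zs (K : ℕ) : Rel μ M (μ.Zs M) K 0 := by
  have S := tm_summable μ M
  refine ⟨fun d i hi => ?_, fun q i hi hq => zero_of ?_, fun q i hi hq => zero_of ?_,
    fun q i hi hq h0 => zero_of ?_, fun q i hi hq h0 => zero_of ?_, fun q i hi hq => ?_,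
    fun q i hi hq => ?_, fun q i hi => zero_of (merge_eq μ M q i), fun q k i hi => zero_of ?_⟩
  · rw [Zs_nc, box01]
    simp
  · simp only [Zs_eq]
    refine tsum_congr fun t => ?_
    rw [tm_no_inc μ M q hq, tm_ni, boxp1, ← box00]
    simp
  · simp only [Zs_eq]
    refine tsum_congr fun t => ?_
    rw [tm_no_dec μ M q hq, tm_ni, boxm0, box01]
    by_cases h1 : (μ.run t).1 = q
    · by_cases h2 : (μ.run t).2 (μ.dr q) = 0
      · simp [h1, h2]
      · have : (μ.run t).2 (μ.dr q) - 1 + 1 = (μ.run t).2 (μ.dr q) := by omega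
        simp [h1, h2, this]
    · simp [h1]
  · simp only [Zs_eq]
    rw [← (S _ _).tsum_add (S _ _), ← (S _ _).tsum_add (S _ _)]
    refine tsum_congr fun t => ?_
    rw [tm_no_inc μ M q hq, tm_ni, tm_ni, tm_ni, boxp0, box01, box00 _ i (μ.dr q), h0]
    by_cases h1 : (μ.run t).1 = q
    · simp only [h1, and_self, if_true, Nat.sub_zero]
      push_cast
      ring
    · simp [h1]
  · simp only [Zs_eq]
    rw [← (S _ _).tsum_add (S _ _), ← (S _ _).tsum_add ((S _ _).add (S _ _)),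
      ← (S _ _).tsum_add (S _ _)]
    refine tsum_congr fun t => ?_
    rw [tm_no_dec μ M q hq, tm_no_dec μ M q hq, tm_ni, tm_ni, tm_ni, boxm0, boxm1, box01,
      box00 _ i (μ.dr q), h0]
    by_cases h1 : (μ.run t).1 = q
    · by_cases h2 : (μ.run t).2 (μ.dr q) = 0
      · simp [h1, h2]
      · obtain ⟨a, ha⟩ := Nat.exists_eq_succ_of_ne_zero h2
        simp only [h1, ha, ne_eq, Nat.succ_ne_zero, not_false_eq_true, decide_true,
          Bool.true_eq_false, and_false, if_false, if_true, and_self, Nat.sub_zero,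
          Nat.succ_sub_one]
        push_cast
        ring
    · simp [h1]
  · rw [Zs_eq, tsum_congr (g := fun _ => 0), tsum_zero, abs_zero]
    intro t
    rw [tm_no_inc μ M q hq]
    simp
  · rw [Zs_eq, tsum_congr (g := fun _ => 0), tsum_zero, abs_zero]
    intro t
    rw [tm_no_dec μ M q hq, boxm1]
    by_cases h2 : (μ.run t).2 (μ.dr q) = 0
    · simp [h2]
    · simp [h2]
  · simp only [Zs_eq, tm_ni]

lemma small (b c η : ℝ) (hη : 0 < η) :
    ∃ j : ℕ, 6 * ((((2 * j + 5 : ℕ) : ℝ) * b + c) / 4 ^ j) ≤ η := by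
  have h1 := tendsto_pow_const_mul_const_pow_of_abs_lt_one 1 (r := (1 / 4 : ℝ)) (by norm_num [abs_of_pos])
  have h2 := tendsto_pow_atTop_nhds_zero_of_lt_one (r := (1 / 4 : ℝ)) (by norm_num) (by norm_num)
  have h3 := (h1.const_mul (12 * b)).add (h2.const_mul (30 * b + 6 * c))
  simp only [mul_zero, add_zero] at h3
  obtain ⟨j, hj⟩ := (h3.eventually (gt_mem_nhds hη)).exists
  refine ⟨j, le_trans (le_of_eq ?_) hj.le⟩
  push_cast
  rw [one_div, inv_pow]
  ring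

end ZST

open ZST in
theorem stZST : St_ZST := by
  intro Q _ _ μ M hM
  refine ⟨208, fun b η hb hη => ?_⟩
  have hm : 0 ≤ ∑' t, mj t := (abs_nonneg _).trans (Zs_le μ M (nc Q M) 0)
  obtain ⟨j, hj⟩ := small b (b * ∑' t, mj t) η hη
  refine ⟨2 * j + 5, by omega, fun Z ε hε hR hB v i hi => ?_⟩
  have hrel : ∀ K, K + 1 ≤ 2 * j + 5 →
      Rel μ M (fun v i => Z v i - Z (nc Q M) 0 * μ.Zs M v i) K ((K + 1) * ε) :=
    fun K hK => rel_sub μ M _ (rel_of_ZR μ M hε hR hK) (rel_Zs μ M K)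
  have h0 : Z (nc Q M) 0 - Z (nc Q M) 0 * μ.Zs M (nc Q M) 0 = 0 := by
    rw [Zs_nc]
    simp [box]
  have hc : |Z (nc Q M) 0| ≤ b := by
    simpa using hB (nc Q M) 0 0 (fun _ => le_rfl) (Nat.zero_le _)
  have hBn : 0 ≤ ((2 * j + 5 : ℕ) : ℝ) * b + b * ∑' t, mj t := by positivity
  have h1 := b_iter hM hε hBn hrel h0 j 4 (by omega) (fun q i hi => by
    have a1 := hB (ni q 0) i (4 + 2 * j) hi (by omega)
    have a2 : |Z (nc Q M) 0 * μ.Zs M (ni q 0) i| ≤ b * ∑' t, mj t := by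
      rw [abs_mul]
      exact mul_le_mul hc (Zs_le μ M _ _) (abs_nonneg _) hb
    have a3 : (((4 + 2 * j : ℕ) : ℝ) + 1) * b = ((2 * j + 5 : ℕ) : ℝ) * b := by
      push_cast
      ring
    exact (abs_sub _ _).trans (by linarith))
  have h2 := b_all (k := 2) (by positivity) (by positivity) (hrel 4 (by omega)) h0 h1 v i hi
  refine h2.trans ?_
  push_cast at hj ⊢
  linarith

end Pool.Agent.Lib.MP_3b2820_co.H61
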